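import Pool.Agent.Work.MP_71c2fc_gt.Limit

set_option autoImplicit false

open Set Filter Topology

namespace Pool.Agent.Work.MP_71c2fc_gt

/-- The shift of the `j`-th row of bricks. -/
noncomputable def sft (j : ℤ) : ℝ := if Even j then 0 else 1 / 2

theorem two_sft (j : ℤ) : ∃ m : ℤ, sft j = m / 2 := by
  unfold sft
  split_ifs
  · exact ⟨0, by simp⟩
  · exact ⟨1, by simp⟩

theorem exists_generic_translate {B : Set (ℝ × ℝ)} (hB : IsClosed B) (hint : interior B = ∅)
    {δ : ℝ} : ∃ a : ℝ × ℝ, ∀ m n : ℤ, (a.1 + m / 2 * δ, a.2 + n * δ) ∉ B := by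
  by_contra hcon
  push Not at hcon
  let f : ℤ × ℤ → Set (ℝ × ℝ) := fun k => {a | (a.1 + k.1 / 2 * δ, a.2 + k.2 * δ) ∈ B}
  have hfc : ∀ k, IsClosed (f k) := fun k => hB.preimage (by fun_prop)
  have hU : ⋃ k, f k = univ := by
    rw [eq_univ_iff_forall]
    intro a
    obtain ⟨m, n, h⟩ := hcon a
    exact mem_iUnion.2 ⟨(m, n), h⟩
  obtain ⟨k, hk⟩ := nonempty_interior_of_iUnion_of_closed hfc hU
  obtain ⟨a, ha⟩ := hk
  -- translate the interior
  have h1 : (a.1 + k.1 / 2 * δ, a.2 + k.2 * δ) ∈ interior B := by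
    rw [mem_interior_iff_mem_nhds] at ha ⊢
    let e : ℝ × ℝ → ℝ × ℝ := fun b => (b.1 - k.1 / 2 * δ, b.2 - k.2 * δ)
    have he : Continuous e := by fun_prop
    have hea : e (a.1 + k.1 / 2 * δ, a.2 + k.2 * δ) = a := by
      show (a.1 + k.1 / 2 * δ - k.1 / 2 * δ, a.2 + k.2 * δ - k.2 * δ) = a
      ext <;> simp
    have h2 : e ⁻¹' (f k) ∈ 𝓝 (a.1 + k.1 / 2 * δ, a.2 + k.2 * δ) :=
      he.continuousAt.preimage_mem_nhds (by rw [hea]; exact ha)
    filter_upwards [h2] with b hb
    have h3 : ((b.1 - k.1 / 2 * δ) + k.1 / 2 * δ, (b.2 - k.2 * δ) + k.2 * δ) ∈ B := hb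
    simpa using h3
  rw [hint] at h1
  exact h1

theorem thinCover_of_interior_eq_empty {B : Set (ℝ × ℝ)} (hB : IsCompact B)
    (hint : interior B = ∅) : ThinCover B := by
  intro ε hε
  set δ := ε / 4 with hδdef
  have hδ : 0 < δ := by positivity
  obtain ⟨a, ha⟩ := exists_generic_translate hB.isClosed hint (δ := δ)
  -- rescaled coordinates
  let X : ℝ × ℝ → ℝ := fun b => (b.1 - a.1) / δ
  let Y : ℝ × ℝ → ℝ := fun b => (b.2 - a.2) / δ
  have hXc : Continuous X := by
    show Continuous fun b : ℝ × ℝ => (b.1 - a.1) / δ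
    fun_prop
  have hYc : Continuous Y := by
    show Continuous fun b : ℝ × ℝ => (b.2 - a.2) / δ
    fun_prop
  -- a positive distance to the vertices
  obtain ⟨η, hη, hη8, hfar⟩ : ∃ η : ℝ, 0 < η ∧ η ≤ 1 / 8 ∧ ∀ b ∈ B, ∀ m n : ℤ,
      ¬ (|X b - m / 2| < η ∧ |Y b - n| < η) := by
    rcases B.eq_empty_or_nonempty with hemp | hne
    · exact ⟨1 / 8, by norm_num, le_rfl, fun b hb => by rw [hemp] at hb; exact absurd hb (by simp)⟩
    · have hc : ContinuousOn (fun b => |Real.sin (2 * Real.pi * X b)| +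
          |Real.sin (Real.pi * Y b)|) B := by
        apply Continuous.continuousOn
        exact ((Real.continuous_sin.comp (continuous_const.mul hXc)).abs).add
          ((Real.continuous_sin.comp (continuous_const.mul hYc)).abs)
      obtain ⟨b₀, hb₀, hmin⟩ := hB.exists_isMinOn hne hc
      have hpos : 0 < |Real.sin (2 * Real.pi * X b₀)| + |Real.sin (Real.pi * Y b₀)| := by
        by_contra hle
        push Not at hle
        have h1 := abs_nonneg (Real.sin (2 * Real.pi * X b₀))
        have h2 := abs_nonneg (Real.sin (Real.pi * Y b₀))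
        have h3 : Real.sin (2 * Real.pi * X b₀) = 0 := abs_eq_zero.1 (by linarith)
        have h4 : Real.sin (Real.pi * Y b₀) = 0 := abs_eq_zero.1 (by linarith)
        obtain ⟨m, hm⟩ := Real.sin_eq_zero_iff.1 h3
        obtain ⟨n, hn⟩ := Real.sin_eq_zero_iff.1 h4
        have hpi := Real.pi_pos
        have h5 : X b₀ = m / 2 := by
          have : Real.pi * (2 * X b₀ - m) = 0 := by linarith
          rcases mul_eq_zero.1 this with h | h
          · exact absurd h hpi.ne'
          · linarith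
        have h6 : Y b₀ = n := by
          have : Real.pi * (Y b₀ - n) = 0 := by linarith
          rcases mul_eq_zero.1 this with h | h
          · exact absurd h hpi.ne'
          · linarith
        apply ha m n
        have h7 : b₀ = (a.1 + m / 2 * δ, a.2 + n * δ) := by
          ext
          · show b₀.1 = a.1 + m / 2 * δ
            have : (b₀.1 - a.1) / δ = m / 2 := h5
            rw [div_eq_iff hδ.ne'] at this
            linarith
          · show b₀.2 = a.2 + n * δ
            have : (b₀.2 - a.2) / δ = n := h6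
            rw [div_eq_iff hδ.ne'] at this
            linarith
        rw [← h7]
        exact hb₀
      set κ := |Real.sin (2 * Real.pi * X b₀)| + |Real.sin (Real.pi * Y b₀)| with hκ
      have hpi := Real.pi_pos
      refine ⟨min (κ / (3 * Real.pi)) (1 / 8), by positivity, min_le_right _ _, ?_⟩
      intro b hb m n
      rintro ⟨h1, h2⟩
      have h1' := h1.trans_le (min_le_left _ _)
      have h2' := h2.trans_le (min_le_left _ _)
      have h3 : |Real.sin (2 * Real.pi * X b)| ≤ 2 * Real.pi * |X b - m / 2| := by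
        have e : Real.sin (2 * Real.pi * X b) =
            (-1) ^ m * Real.sin (2 * Real.pi * (X b - m / 2)) := by
          have : 2 * Real.pi * X b = 2 * Real.pi * (X b - m / 2) + m * Real.pi := by ring
          rw [this, Real.sin_add_int_mul_pi]
        rw [e, abs_mul, abs_zpow, abs_neg, abs_one, one_zpow, one_mul]
        refine (Real.abs_sin_le_abs (x := _)).trans ?_
        rw [abs_mul, abs_of_pos (by positivity : (0 : ℝ) < 2 * Real.pi)]
      have h4 : |Real.sin (Real.pi * Y b)| ≤ Real.pi * |Y b - n| := by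
        have e : Real.sin (Real.pi * Y b) = (-1) ^ n * Real.sin (Real.pi * (Y b - n)) := by
          have : Real.pi * Y b = Real.pi * (Y b - n) + n * Real.pi := by ring
          rw [this, Real.sin_add_int_mul_pi]
        rw [e, abs_mul, abs_zpow, abs_neg, abs_one, one_zpow, one_mul]
        refine (Real.abs_sin_le_abs (x := _)).trans ?_
        rw [abs_mul, abs_of_pos hpi]
      have h5 : κ ≤ |Real.sin (2 * Real.pi * X b)| + |Real.sin (Real.pi * Y b)| := hmin hb
      have h6 : 2 * Real.pi * |X b - m / 2| < 2 * Real.pi * (κ / (3 * Real.pi)) :=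
        mul_lt_mul_of_pos_left h1' (by positivity)
      have h7 : Real.pi * |Y b - n| < Real.pi * (κ / (3 * Real.pi)) :=
        mul_lt_mul_of_pos_left h2' hpi
      have h8 : 2 * Real.pi * (κ / (3 * Real.pi)) + Real.pi * (κ / (3 * Real.pi)) = κ := by
        field_simp
        ring
      linarith
  let cx : ℤ × ℤ → ℝ := fun k => k.1 + 1 / 2 + sft k.2
  let cy : ℤ × ℤ → ℝ := fun k => k.2 + 1 / 2
  let d : ℤ × ℤ → ℝ × ℝ → ℝ := fun k b =>
    max 0 (min (1 / 2 + η - |X b - cx k|) (1 / 2 + η - |Y b - cy k|))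
  have hdpos : ∀ k b, 0 < d k b → |X b - cx k| < 1 / 2 + η ∧ |Y b - cy k| < 1 / 2 + η := by
    intro k b h
    have h1 : 0 < min (1 / 2 + η - |X b - cx k|) (1 / 2 + η - |Y b - cy k|) := by
      rcases lt_max_iff.1 h with h | h
      · exact absurd h (lt_irrefl _)
      · exact h
    have h2 := lt_min_iff.1 h1
    exact ⟨by linarith [h2.1], by linarith [h2.2]⟩
  refine ⟨ℤ × ℤ, d, ?_, ?_, ?_, ?_, ?_⟩
  · intro k
    show Continuous fun b => max 0 (min (1 / 2 + η - |X b - cx k|) (1 / 2 + η - |Y b - cy k|))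
    fun_prop
  · intro k b
    exact le_max_left _ _
  · intro b _
    refine ⟨(⌊X b - sft ⌊Y b⌋⌋, ⌊Y b⌋), ?_⟩
    show 0 < max 0 (min (1 / 2 + η - |X b - (⌊X b - sft ⌊Y b⌋⌋ + 1 / 2 + sft ⌊Y b⌋)|)
      (1 / 2 + η - |Y b - (⌊Y b⌋ + 1 / 2)|))
    apply lt_max_of_lt_right
    apply lt_min
    · have h1 := Int.floor_le (X b - sft ⌊Y b⌋)
      have h2 := Int.lt_floor_add_one (X b - sft ⌊Y b⌋)
      have : |X b - (⌊X b - sft ⌊Y b⌋⌋ + 1 / 2 + sft ⌊Y b⌋)| ≤ 1 / 2 := by
        rw [abs_le]; constructor <;> linarith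
      linarith
    · have h1 := Int.floor_le (Y b)
      have h2 := Int.lt_floor_add_one (Y b)
      have : |Y b - (⌊Y b⌋ + 1 / 2)| ≤ 1 / 2 := by
        rw [abs_le]; constructor <;> linarith
      linarith
  · -- order at most two
    intro b hb k l m hk hl hm
    by_contra hcon
    push Not at hcon
    obtain ⟨hkl, hkm, hlm⟩ := hcon
    have row : ∀ k l : ℤ × ℤ, 0 < d k b → 0 < d l b → k.2 < l.2 → l.2 = k.2 + 1 ∧
        |Y b - l.2| < η := by
      intro k l hk hl hlt
      have h1 := abs_lt.1 (hdpos k b hk).2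
      have h2 := abs_lt.1 (hdpos l b hl).2
      have e1 : cy k = k.2 + 1 / 2 := rfl
      have e2 : cy l = l.2 + 1 / 2 := rfl
      rw [e1] at h1
      rw [e2] at h2
      have h3 : (l.2 : ℝ) < (k.2 : ℝ) + 2 := by linarith [h1.1, h1.2, h2.1, h2.2]
      have h4 : l.2 < k.2 + 2 := by exact_mod_cast h3
      have h5 : l.2 = k.2 + 1 := by omega
      refine ⟨h5, ?_⟩
      have h6 : (l.2 : ℝ) = k.2 + 1 := by rw [h5]; push_cast; ring
      rw [abs_lt]
      constructor <;> linarith [h1.1, h1.2, h2.1, h2.2]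
    have col : ∀ k l : ℤ × ℤ, 0 < d k b → 0 < d l b → k.2 = l.2 → k.1 < l.1 →
        l.1 = k.1 + 1 ∧ ∃ q : ℤ, |X b - q / 2| < η := by
      intro k l hk hl heq hlt
      have h1 := abs_lt.1 (hdpos k b hk).1
      have h2 := abs_lt.1 (hdpos l b hl).1
      have e1 : cx k = k.1 + 1 / 2 + sft k.2 := rfl
      have e2 : cx l = l.1 + 1 / 2 + sft k.2 := by
        show (l.1 : ℝ) + 1 / 2 + sft l.2 = _
        rw [heq]
      rw [e1] at h1
      rw [e2] at h2
      have h3 : (l.1 : ℝ) < (k.1 : ℝ) + 2 := by linarith [h1.1, h1.2, h2.1, h2.2]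
      have h4 : l.1 < k.1 + 2 := by exact_mod_cast h3
      have h5 : l.1 = k.1 + 1 := by omega
      refine ⟨h5, ?_⟩
      obtain ⟨r, hr⟩ := two_sft k.2
      have h6 : (l.1 : ℝ) = k.1 + 1 := by rw [h5]; push_cast; ring
      refine ⟨2 * l.1 + r, ?_⟩
      push_cast
      have h7 : ((2 * (l.1 : ℝ) + r) / 2) = l.1 + sft k.2 := by rw [hr]; ring
      rw [h7, abs_lt]
      constructor <;> linarith [h1.1, h1.2, h2.1, h2.2]
    -- two rows and two columns are impossible
    have hRow : ∀ k l : ℤ × ℤ, 0 < d k b → 0 < d l b → k.2 ≠ l.2 → ∃ n : ℤ, |Y b - n| < η := by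
      intro k l hk hl hne
      rcases lt_or_gt_of_ne hne with h | h
      · exact ⟨_, (row k l hk hl h).2⟩
      · exact ⟨_, (row l k hl hk h).2⟩
    have hCol : ∀ k l : ℤ × ℤ, 0 < d k b → 0 < d l b → k.2 = l.2 → k ≠ l →
        ∃ q : ℤ, |X b - q / 2| < η := by
      intro k l hk hl heq hne
      have hne' : k.1 ≠ l.1 := fun h => hne (Prod.ext h heq)
      rcases lt_or_gt_of_ne hne' with h | h
      · exact (col k l hk hl heq h).2
      · exact (col l k hl hk heq.symm h).2
    have hbad : (∃ n : ℤ, |Y b - n| < η) → (∃ q : ℤ, |X b - q / 2| < η) → False := by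
      rintro ⟨n, hn⟩ ⟨q, hq⟩
      exact hfar b hb q n ⟨hq, hn⟩
    by_cases h1 : k.2 = l.2
    · by_cases h2 : k.2 = m.2
      · -- all in one row
        have a1 : k.1 ≠ l.1 := fun h => hkl (Prod.ext h h1)
        have a2 : k.1 ≠ m.1 := fun h => hkm (Prod.ext h h2)
        have a3 : l.1 ≠ m.1 := fun h => hlm (Prod.ext h (h1.symm.trans h2))
        have c12 : l.1 = k.1 + 1 ∨ k.1 = l.1 + 1 := by
          rcases lt_or_gt_of_ne a1 with h | h
          · exact Or.inl (col k l hk hl h1 h).1
          · exact Or.inr (col l k hl hk h1.symm h).1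
        have c13 : m.1 = k.1 + 1 ∨ k.1 = m.1 + 1 := by
          rcases lt_or_gt_of_ne a2 with h | h
          · exact Or.inl (col k m hk hm h2 h).1
          · exact Or.inr (col m k hm hk h2.symm h).1
        have c23 : m.1 = l.1 + 1 ∨ l.1 = m.1 + 1 := by
          rcases lt_or_gt_of_ne a3 with h | h
          · exact Or.inl (col l m hl hm (h1.symm.trans h2) h).1
          · exact Or.inr (col m l hm hl (h1.symm.trans h2).symm h).1
        omega
      · exact hbad (hRow k m hk hm h2) (hCol k l hk hl h1 hkl)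
    · by_cases h2 : k.2 = m.2
      · exact hbad (hRow k l hk hl h1) (hCol k m hk hm h2 hkm)
      · by_cases h3 : l.2 = m.2
        · exact hbad (hRow k l hk hl h1) (hCol l m hl hm h3 hlm)
        · -- three rows
          have c12 : l.2 = k.2 + 1 ∨ k.2 = l.2 + 1 := by
            rcases lt_or_gt_of_ne h1 with h | h
            · exact Or.inl (row k l hk hl h).1
            · exact Or.inr (row l k hl hk h).1
          have c13 : m.2 = k.2 + 1 ∨ k.2 = m.2 + 1 := by
            rcases lt_or_gt_of_ne h2 with h | h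
            · exact Or.inl (row k m hk hm h).1
            · exact Or.inr (row m k hm hk h).1
          have c23 : m.2 = l.2 + 1 ∨ l.2 = m.2 + 1 := by
            rcases lt_or_gt_of_ne h3 with h | h
            · exact Or.inl (row l m hl hm h).1
            · exact Or.inr (row m l hm hl h).1
          omega
  · -- mesh
    intro k b _ b' _ h h'
    obtain ⟨h1, h2⟩ := hdpos k b h
    obtain ⟨h1', h2'⟩ := hdpos k b' h'
    have e1 : |X b - X b'| ≤ 2 := by
      rw [abs_lt] at h1 h1'
      rw [abs_le]; constructor <;> linarith [h1.1, h1.2, h1'.1, h1'.2]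
    have e2 : |Y b - Y b'| ≤ 2 := by
      rw [abs_lt] at h2 h2'
      rw [abs_le]; constructor <;> linarith [h2.1, h2.2, h2'.1, h2'.2]
    have f1 : |b.1 - b'.1| ≤ 2 * δ := by
      have : b.1 - b'.1 = (X b - X b') * δ := by
        show b.1 - b'.1 = ((b.1 - a.1) / δ - (b'.1 - a.1) / δ) * δ
        field_simp
        ring
      rw [this, abs_mul, abs_of_pos hδ]
      exact mul_le_mul_of_nonneg_right e1 hδ.le
    have f2 : |b.2 - b'.2| ≤ 2 * δ := by
      have : b.2 - b'.2 = (Y b - Y b') * δ := by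
        show b.2 - b'.2 = ((b.2 - a.2) / δ - (b'.2 - a.2) / δ) * δ
        field_simp
        ring
      rw [this, abs_mul, abs_of_pos hδ]
      exact mul_le_mul_of_nonneg_right e2 hδ.le
    rw [Prod.dist_eq, Real.dist_eq, Real.dist_eq]
    apply max_le <;> linarith

end Pool.Agent.Work.MP_71c2fc_gt
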