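import Pool.Agent.Work.MP_71c2fc_gt.Complex
import Pool.Agent.Work.MP_71c2fc_gt.Brick

set_option autoImplicit false

open Set Filter Topology
open scoped unitInterval

universe u v w

namespace Pool.Agent.Work.MP_71c2fc_gt

/-- Open covers of arbitrarily small mesh and order at most two. -/
def DimLeOneAux {M : Type*} [MetricSpace M] (B : Set M) : Prop :=
  ∀ ε : ℝ, 0 < ε → ∃ (ι : Type) (U : ι → Set M), (∀ k, IsOpen (U k)) ∧ (∀ z ∈ B, ∃ k, z ∈ U k) ∧
    (∀ z ∈ B, ∀ k l m, z ∈ U k → z ∈ U l → z ∈ U m → k = l ∨ k = m ∨ l = m) ∧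
    (∀ k, ∀ a ∈ B, ∀ b ∈ B, a ∈ U k → b ∈ U k → dist a b ≤ ε)

theorem thinCover_of_dimLeOne {M : Type*} [MetricSpace M] {B : Set M} (h : DimLeOneAux B) :
    ThinCover B := by
  classical
  intro ε hε
  obtain ⟨ι, U, hU, hcov, hord, hmesh⟩ := h ε hε
  let d : ι → M → ℝ := fun k z => if (U k)ᶜ = ∅ then 1 else Metric.infDist z (U k)ᶜ
  have hd : ∀ k z, 0 < d k z ↔ z ∈ U k := by
    intro k z
    by_cases hk : (U k)ᶜ = ∅
    · have h1 : d k z = 1 := if_pos hk
      rw [h1]
      have h2 : U k = univ := compl_empty_iff.1 hk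
      rw [h2]
      simp
    · have h1 : d k z = Metric.infDist z (U k)ᶜ := if_neg hk
      rw [h1, ← (hU k).isClosed_compl.notMem_iff_infDist_pos (nonempty_iff_ne_empty.2 hk)]
      simp
  refine ⟨ι, d, ?_, ?_, ?_, ?_, ?_⟩
  · intro k
    by_cases hk : (U k)ᶜ = ∅
    · have : d k = fun _ => 1 := funext fun z => if_pos hk
      rw [this]
      exact continuous_const
    · have : d k = fun z => Metric.infDist z (U k)ᶜ := funext fun z => if_neg hk
      rw [this]
      exact Metric.continuous_infDist_pt _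
  · intro k z
    by_cases hk : (U k)ᶜ = ∅
    · have h1 : d k z = 1 := if_pos hk
      rw [h1]; exact zero_le_one
    · have h1 : d k z = Metric.infDist z (U k)ᶜ := if_neg hk
      rw [h1]; exact Metric.infDist_nonneg
  · intro z hz
    obtain ⟨k, hk⟩ := hcov z hz
    exact ⟨k, (hd k z).2 hk⟩
  · intro z hz k l m hk hl hm
    exact hord z hz k l m ((hd k z).1 hk) ((hd l z).1 hl) ((hd m z).1 hm)
  · intro k a ha b hb hak hbk
    exact hmesh k a ha b hb ((hd k a).1 hak) ((hd k b).1 hbk)

/-- Thin-fibred sets. -/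
def ThinAux {T : Type w} [TopologicalSpace T] (K : Set T) : Prop :=
  ∃ (E : Type u) (_ : NormedAddCommGroup E) (_ : NormedSpace ℝ E) (j : T → E) (h : T → ℝ × ℝ),
    IsEmbedding j ∧ ContinuousOn h K ∧ interior (h '' K) = ∅ ∧
      ∀ C ⊆ K, IsPreconnected C → (∀ a ∈ C, ∀ b ∈ C, h a = h b) →
        convexHull ℝ (j '' C) ⊆ range j

theorem fibred_of_thin {T : Type w} [TopologicalSpace T] [Nonempty T] {K : Set T}
    (hK : IsCompact K) (h : ThinAux.{u, w} K) : FibredAux.{u, 0, w} K := by
  obtain ⟨E, _, _, j, h, hj, hh, hint, hconv⟩ := h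
  have hl : Function.LeftInverse (Function.invFun j) j := Function.leftInverse_invFun hj.injective
  refine ⟨E, inferInstance, inferInstance, j, Function.invFun j, ℝ × ℝ, inferInstance, h,
    hj.continuous.continuousOn, hh, thinCover_of_interior_eq_empty (hK.image_of_continuousOn hh)
      hint, fun a _ => hl a, ?_⟩
  have h1 : ContinuousOn (Function.invFun j) (range j) := by
    rintro _ ⟨a, rfl⟩
    rw [ContinuousWithinAt, hl, ← hj.isInducing.map_nhds_eq, tendsto_map'_iff]
    have h2 : Function.invFun j ∘ j = id := hl.id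
    rw [h2]
    exact tendsto_id
  refine h1.mono ?_
  rintro e ⟨C, hCK, hCc, hCh, he⟩
  exact hconv C hCK hCc hCh he

/-- The combined torsion theorem. -/
theorem torsionFree_combined {T : Type w} [TopologicalSpace T]
    (hX : ∀ K : Set T, IsCompact K → ∃ D : T × I → T, ContinuousOn D (K ×ˢ univ) ∧
      (∀ a ∈ K, D (a, 0) = a) ∧
      (FibredAux.{u, v, w} ((fun a => D (a, 1)) '' K) ∨
        ThinAux.{u, w} ((fun a => D (a, 1)) '' K) ∨
        PuncturedAux ((fun a => D (a, 1)) '' K)))
    (x : T) (g : FundamentalGroup T x) (hg : IsOfFinOrder g) : g = 1 := by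
  classical
  obtain ⟨p, hp, hgp⟩ := isOfFinOrder_iff_pow_eq_one.1 hg
  obtain ⟨γ, rfl⟩ := Path.Homotopic.Quotient.mk_surjective g
  obtain ⟨H, hH, hHK, c, hc, hc01, hcγ⟩ := exists_PP_map γ hp.ne' hgp
  obtain ⟨D, hD, hD0, hfib⟩ := hX (range H) hHK
  have hne : Nonempty T := ⟨x⟩
  have hD1 : ContinuousOn (fun a => D (a, 1)) (range H) :=
    hD.comp (by fun_prop) (fun a ha => ⟨ha, mem_univ _⟩)
  have hr : (fun a => D (a, 1)) '' range H = range (fun z => D (H z, 1)) := by
    rw [← range_comp]; rfl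
  have hrc : IsCompact (range (fun z => D (H z, 1))) := by
    rw [← hr]
    exact hHK.image_of_continuousOn hD1
  have hH' : Continuous (fun z => D (H z, 1)) := hD1.comp_continuous hH (fun z => ⟨z, rfl⟩)
  have hγr : ∀ s, γ s ∈ range H := fun s => ⟨c s, hcγ s⟩
  have hFc : Continuous (fun z : I × I => D (γ z.2, z.1)) :=
    hD.comp_continuous (by fun_prop) (fun z => ⟨hγr _, mem_univ _⟩)
  let γ' : Path (D (x, 1)) (D (x, 1)) :=
    { toFun := fun s => D (γ s, 1)
      continuous_toFun := hFc.comp (f := fun s : I => ((1 : I), s)) (by fun_prop)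
      source' := by simp
      target' := by simp }
  have hγ' : ∀ t : I, D (H (c t), 1) = γ' t := by
    intro t
    show D (H (c t), 1) = D (γ t, 1)
    rw [hcγ]
  have hnull : γ'.Homotopic (Path.refl _) := by
    rw [hr] at hfib
    rcases hfib with hf | hf | hf
    · exact null_of_fibred (liftsCircle_PP hp.ne') _ hH' hrc hf c hc hc01 γ' hγ'
    · exact null_of_fibred (liftsCircle_PP hp.ne') _ hH' hrc (fibred_of_thin hrc hf) c hc hc01
        γ' hγ'
    · exact null_of_fibred (liftsCircle_PP hp.ne') _ hH' hrc (fibred_of_punctured hrc hf) c hc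
        hc01 γ' hγ'
  have hhom : γ.Homotopic (Path.refl x) := by
    refine null_of_free γ γ' ⟨fun z : I × I => D (γ z.2, z.1), hFc⟩ ?_ ?_ ?_ hnull
    · intro s
      exact hD0 _ (hγr s)
    · intro s
      rfl
    · intro t
      show D (γ 0, t) = D (γ 1, t)
      simp
  show Path.Homotopic.Quotient.mk γ = Path.Homotopic.Quotient.refl x
  rw [← Path.Homotopic.Quotient.mk_refl, Path.Homotopic.Quotient.eq]
  exact hhom

end Pool.Agent.Work.MP_71c2fc_gt
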