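import Pool.Agent.Work.MP_71c2fc_gt.Nodes

set_option autoImplicit false

open Set Filter Topology
open scoped unitInterval

namespace Pool.Agent.Work.MP_71c2fc_gt

/-- The gluing whose quotient is (an open version of) the pseudo-projective plane of order `p`:
a cylinder whose lower end is wrapped `p` times and whose upper end is collapsed. -/
def ppSetoid (p : ℕ) : Setoid (ℝ × ℝ) where
  r a b := a.2 = b.2 ∧ ((∃ m : ℤ, a.1 - b.1 = m) ∨ (a.2 ≤ 0 ∧ ∃ m : ℤ, p * (a.1 - b.1) = m) ∨
    1 ≤ a.2)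
  iseqv := by
    refine ⟨?_, ?_, ?_⟩
    · intro a
      exact ⟨rfl, Or.inl ⟨0, by simp⟩⟩
    · rintro a b ⟨h, h'⟩
      refine ⟨h.symm, ?_⟩
      rcases h' with ⟨m, hm⟩ | ⟨h0, m, hm⟩ | h1
      · exact Or.inl ⟨-m, by push_cast; linarith⟩
      · exact Or.inr (Or.inl ⟨h ▸ h0, -m, by push_cast; linarith⟩)
      · exact Or.inr (Or.inr (h ▸ h1))
    · rintro a b c ⟨h, h'⟩ ⟨k, k'⟩
      refine ⟨h.trans k, ?_⟩
      rcases h' with ⟨m, hm⟩ | ⟨h0, m, hm⟩ | h1
      · rcases k' with ⟨l, hl⟩ | ⟨k0, l, hl⟩ | k1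
        · exact Or.inl ⟨m + l, by push_cast; linarith⟩
        · refine Or.inr (Or.inl ⟨h.symm ▸ k0, p * m + l, ?_⟩)
          push_cast
          rw [← hm, ← hl]; ring
        · exact Or.inr (Or.inr (h.symm ▸ k1))
      · rcases k' with ⟨l, hl⟩ | ⟨k0, l, hl⟩ | k1
        · refine Or.inr (Or.inl ⟨h0, m + p * l, ?_⟩)
          push_cast
          rw [← hm, ← hl]; ring
        · refine Or.inr (Or.inl ⟨h0, m + l, ?_⟩)
          push_cast
          rw [← hm, ← hl]; ring
        · exact Or.inr (Or.inr (h.symm ▸ k1))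
      · exact Or.inr (Or.inr h1)

/-- The pseudo-projective plane. -/
abbrev PP (p : ℕ) : Type := Quotient (ppSetoid p)

instance (p : ℕ) : LocallyPathConnectedSpace (PP p) :=
  inferInstanceAs (LocallyPathConnectedSpace (Quot _))

theorem lift_real (f : ℝ × ℝ → AddCircle (1 : ℝ)) (hf : Continuous f) :
    ∃ F : ℝ × ℝ → ℝ, Continuous F ∧ ∀ z, ((F z : ℝ) : AddCircle (1 : ℝ)) = f z := by
  obtain ⟨e, he⟩ := QuotientAddGroup.mk_surjective (f 0)
  obtain ⟨F, ⟨_, hF⟩, _⟩ := (AddCircle.isCoveringMap_coe (1 : ℝ)).existsUnique_continuousMap_lifts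
    (⟨f, hf⟩ : C(ℝ × ℝ, AddCircle (1 : ℝ))) 0 e he
  exact ⟨F, F.continuous, fun z => congrFun hF z⟩

theorem liftsCircle_PP {p : ℕ} (hp : p ≠ 0) : LiftsCircle (PP p) := by
  intro φ hφ
  have hmk : Continuous (fun z : ℝ × ℝ => (Quotient.mk (ppSetoid p) z : PP p)) :=
    continuous_quotient_mk'
  obtain ⟨F, hF, hFφ⟩ := lift_real (fun z => φ (Quotient.mk (ppSetoid p) z)) (hφ.comp hmk)
  have hp' : (p : ℝ) ≠ 0 := Nat.cast_ne_zero.2 hp
  -- if two points are identified, then the values of `F` agree modulo `1`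
  have hrel : ∀ a b : ℝ × ℝ, (ppSetoid p).r a b →
      ((F a - F b : ℝ) : AddCircle (1 : ℝ)) = 0 := by
    intro a b hab
    rw [AddCircle.coe_sub, hFφ, hFφ, Quotient.sound (s := ppSetoid p) hab, sub_self]
  -- the upper end
  have htop : ∀ z : ℝ × ℝ, 1 ≤ z.2 → F z = F (0, z.2) := by
    intro z hz
    have hS : IsPreconnected {z : ℝ × ℝ | 1 ≤ z.2} := by
      have : Convex ℝ {z : ℝ × ℝ | 1 ≤ z.2} := by
        have := (convex_Ici (1 : ℝ)).linear_preimage (LinearMap.snd ℝ ℝ ℝ)
        exact this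
      exact this.isPreconnected
    have h1 : ∀ w ∈ {z : ℝ × ℝ | 1 ≤ z.2},
        (((fun z : ℝ × ℝ => F z - F (0, z.2)) w : ℝ) : AddCircle (1 : ℝ)) = 0 := by
      intro w hw
      exact hrel w (0, w.2) ⟨rfl, Or.inr (Or.inr hw)⟩
    have h2 := eq_of_int_valued hS (f := fun z : ℝ × ℝ => F z - F (0, z.2))
      (fun w _ => by fun_prop) h1 hz (show ((0 : ℝ), z.2) ∈ {z : ℝ × ℝ | 1 ≤ z.2} from hz)
    simp only [sub_self] at h2
    linarith
  -- period one
  have hper : ∀ z : ℝ × ℝ, F (z.1 + 1, z.2) = F z := by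
    intro z
    have h1 : ∀ w ∈ (univ : Set (ℝ × ℝ)),
        (((fun z : ℝ × ℝ => F (z.1 + 1, z.2) - F z) w : ℝ) : AddCircle (1 : ℝ)) = 0 := by
      intro w _
      exact hrel (w.1 + 1, w.2) w ⟨rfl, Or.inl ⟨1, by simp⟩⟩
    have h2 := eq_of_int_valued isPreconnected_univ
      (f := fun z : ℝ × ℝ => F (z.1 + 1, z.2) - F z)
      (fun w _ => by fun_prop) h1 (mem_univ z) (mem_univ ((0 : ℝ), (1 : ℝ)))
    simp only at h2
    rw [htop (0 + 1, 1) le_rfl] at h2
    simp only [sub_self] at h2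
    linarith
  -- period `1 / p` at the lower end
  have hper' : ∀ z : ℝ × ℝ, z.2 ≤ 0 → F (z.1 + 1 / p, z.2) = F z := by
    have hS : IsPreconnected {z : ℝ × ℝ | z.2 ≤ 0} := by
      have : Convex ℝ {z : ℝ × ℝ | z.2 ≤ 0} := by
        have := (convex_Iic (0 : ℝ)).linear_preimage (LinearMap.snd ℝ ℝ ℝ)
        exact this
      exact this.isPreconnected
    have h1 : ∀ w ∈ {z : ℝ × ℝ | z.2 ≤ 0},
        (((fun z : ℝ × ℝ => F (z.1 + 1 / p, z.2) - F z) w : ℝ) : AddCircle (1 : ℝ)) = 0 := by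
      intro w hw
      refine hrel (w.1 + 1 / p, w.2) w ⟨rfl, Or.inr (Or.inl ⟨hw, 1, ?_⟩)⟩
      push_cast
      field_simp
      ring
    have h2 : ∀ z : ℝ × ℝ, z.2 ≤ 0 → F (z.1 + 1 / p, z.2) - F z =
        F ((0 : ℝ) + 1 / p, 0) - F (0, 0) := by
      intro z hz
      exact eq_of_int_valued hS (f := fun z : ℝ × ℝ => F (z.1 + 1 / p, z.2) - F z)
        (fun w _ => by fun_prop) h1 hz (show ((0 : ℝ), (0 : ℝ)) ∈ {z : ℝ × ℝ | z.2 ≤ 0} from le_refl (0 : ℝ))
    set e := F ((0 : ℝ) + 1 / p, 0) - F (0, 0) with he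
    have h3 : ∀ k : ℕ, F ((k : ℝ) / p, 0) = F (0, 0) + k * e := by
      intro k
      induction k with
      | zero => simp
      | succ k ih =>
        have h4 := h2 ((k : ℝ) / p, 0) le_rfl
        have h5 : ((k + 1 : ℕ) : ℝ) / p = (k : ℝ) / p + 1 / p := by push_cast; ring
        rw [h5]
        push_cast
        simp only at h4
        linarith
    have h6 := h3 p
    rw [div_self hp'] at h6
    have h7 := hper (0, 0)
    simp only [zero_add] at h7
    rw [h7] at h6
    have h8 : (p : ℝ) * e = 0 := by linarith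
    have h9 : e = 0 := by
      rcases mul_eq_zero.1 h8 with h | h
      · exact absurd h hp'
      · exact h
    intro z hz
    have := h2 z hz
    rw [h9] at this
    linarith
  have hinv : ∀ a b : ℝ × ℝ, (ppSetoid p).r a b → F a = F b := by
    rintro ⟨a, s⟩ ⟨b, s'⟩ ⟨h, h'⟩
    simp only at h h'
    subst h
    rcases h' with ⟨m, hm⟩ | ⟨h0, m, hm⟩ | h1
    · have hP : Function.Periodic (fun t : ℝ => F (t, s)) 1 := fun t => hper (t, s)
      have := hP.int_mul m b
      simp only [mul_one] at this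
      rw [← hm] at this
      rw [← this]
      congr 2
      ring
    · have hP : Function.Periodic (fun t : ℝ => F (t, s)) (1 / p) := fun t => hper' (t, s) h0
      have := hP.int_mul m b
      rw [← hm] at this
      rw [← this]
      congr 2
      field_simp
      ring
    · rw [htop (a, s) h1, htop (b, s) h1]
  refine ⟨Quotient.lift F hinv, ?_, ?_⟩
  · exact hF.quotient_lift hinv
  · intro z
    induction z using Quotient.inductionOn with
    | h a => exact hFφ a

/-- The linear path from `0` to `n`. -/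
noncomputable def segPath (n : ℕ) : Path (0 : ℝ) (n : ℝ) where
  toFun t := n * (t : ℝ)
  continuous_toFun := by fun_prop
  source' := by simp
  target' := by simp

/-- The path from `n` to `n + 1`. -/
noncomputable def nextPath (n : ℕ) : Path (n : ℝ) ((n + 1 : ℕ) : ℝ) where
  toFun t := n + (t : ℝ)
  continuous_toFun := by fun_prop
  source' := by simp
  target' := by simp

section

variable {Y : Type*} [TopologicalSpace Y] {x : Y}

omit [TopologicalSpace Y] in
theorem periodic_nat {Γ : ℝ → Y} (hper : ∀ t : ℝ, Γ (t + 1) = Γ t) (h0 : Γ 0 = x) (n : ℕ) :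
    Γ n = x := by
  induction n with
  | zero => simpa using h0
  | succ n ih => push_cast; rw [hper, ih]

/-- The `n`-fold power of a loop, run at constant speed. -/
noncomputable def powLoop (Γ : C(ℝ, Y)) (hper : ∀ t : ℝ, Γ (t + 1) = Γ t) (h0 : Γ 0 = x)
    (n : ℕ) : Path x x :=
  ((segPath n).map Γ.continuous).cast h0.symm (periodic_nat hper h0 n).symm

theorem powLoop_apply (Γ : C(ℝ, Y)) (hper : ∀ t : ℝ, Γ (t + 1) = Γ t) (h0 : Γ 0 = x)
    (n : ℕ) (t : I) : powLoop Γ hper h0 n t = Γ (n * (t : ℝ)) := rfl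

theorem pow_eq_powLoop (γ : Path x x) (Γ : C(ℝ, Y)) (hΓ : ∀ t : I, Γ (t : ℝ) = γ t)
    (hper : ∀ t : ℝ, Γ (t + 1) = Γ t) (h0 : Γ 0 = x) (n : ℕ) :
    (FundamentalGroup.fromPath (Path.Homotopic.Quotient.mk γ)) ^ n =
      FundamentalGroup.fromPath (Path.Homotopic.Quotient.mk (powLoop Γ hper h0 n)) := by
  induction n with
  | zero =>
    rw [pow_zero, FundamentalGroup.one_def]
    show Path.Homotopic.Quotient.refl x = Path.Homotopic.Quotient.mk _
    rw [← Path.Homotopic.Quotient.mk_refl]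
    congr 1
    ext t
    rw [powLoop_apply]
    simp [h0]
  | succ n ih =>
    rw [pow_succ', ih, FundamentalGroup.mul_def]
    show Path.Homotopic.Quotient.trans (Path.Homotopic.Quotient.mk _)
      (Path.Homotopic.Quotient.mk _) = Path.Homotopic.Quotient.mk _
    rw [← Path.Homotopic.Quotient.mk_trans]
    rw [Path.Homotopic.Quotient.eq]
    have h1 : ((segPath n).trans (nextPath n)).Homotopic (segPath (n + 1)) :=
      SimplyConnectedSpace.paths_homotopic _ _
    have h2 := (h1.map Γ).pathCast h0.symm (periodic_nat hper h0 (n + 1)).symm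
    have h3 : (powLoop Γ hper h0 n).trans γ =
        (((segPath n).trans (nextPath n)).map Γ.continuous).cast h0.symm
          (periodic_nat hper h0 (n + 1)).symm := by
      ext t
      rw [Path.cast_coe, Path.map_coe, Function.comp_apply, Path.trans_apply, Path.trans_apply]
      split_ifs with ht
      · rfl
      · rw [← hΓ]
        show Γ _ = Γ ((n : ℝ) + _)
        rw [add_comm]
        exact (Function.Periodic.nat_mul hper n _ ▸ by simp)
    rw [h3]
    exact h2

end

end Pool.Agent.Work.MP_71c2fc_gt
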