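import Pool.Agent.Work.MP_71c2fc_gt.Limit
import Pool.Agent.Work.MP_71c2fc_gt.PPlane

set_option autoImplicit false

open Set Filter Topology
open scoped unitInterval

namespace Pool.Agent.Work.MP_71c2fc_gt

theorem exists_PP_map {Y : Type*} [TopologicalSpace Y] {x : Y} (γ : Path x x) {p : ℕ} (hp : p ≠ 0)
    (hpow : (FundamentalGroup.fromPath (Path.Homotopic.Quotient.mk γ)) ^ p = 1) :
    ∃ H : PP p → Y, Continuous H ∧ IsCompact (range H) ∧
      ∃ c : ℝ → PP p, Continuous c ∧ c 0 = c 1 ∧ ∀ t : I, H (c t) = γ t := by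
  have hp' : (p : ℝ) ≠ 0 := Nat.cast_ne_zero.2 hp
  have hΓc : Continuous (fun t : ℝ => γ.extend (Int.fract t)) :=
    ContinuousOn.comp_fract'' (f := γ.extend) γ.continuous_extend.continuousOn (by simp)
  let Γ : C(ℝ, Y) := ⟨fun t : ℝ => γ.extend (Int.fract t), hΓc⟩
  have hΓfr : ∀ s t : ℝ, Int.fract s = Int.fract t → Γ s = Γ t := by
    intro s t h
    show γ.extend (Int.fract s) = γ.extend (Int.fract t)
    rw [h]
  have hper : ∀ t : ℝ, Γ (t + 1) = Γ t := fun t => hΓfr _ _ (Int.fract_add_one t)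
  have h0 : Γ 0 = x := by
    show γ.extend (Int.fract 0) = x
    simp
  have hΓ : ∀ t : I, Γ (t : ℝ) = γ t := by
    intro t
    show γ.extend (Int.fract (t : ℝ)) = γ t
    rcases eq_or_lt_of_le t.2.2 with h | h
    · have ht : t = 1 := Subtype.ext h
      subst ht
      simp
    · rw [Int.fract_eq_self.2 ⟨t.2.1, h⟩]
      exact γ.extend_apply t.2
  rw [pow_eq_powLoop γ Γ hΓ hper h0 p, FundamentalGroup.one_def] at hpow
  have hhom : (powLoop Γ hper h0 p).Homotopic (Path.refl x) := by
    rw [← Path.Homotopic.Quotient.eq]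
    exact hpow
  obtain ⟨A⟩ := hhom
  have hA0 : ∀ t : I, A (0, t) = Γ (p * (t : ℝ)) := by
    intro t
    rw [A.apply_zero]
    rfl
  have hA1 : ∀ t : I, A (1, t) = x := by
    intro t
    rw [A.apply_one]
    rfl
  have hAl : ∀ s : I, A (s, 0) = x := fun s => A.source s
  have hAr : ∀ s : I, A (s, 1) = x := fun s => A.target s
  -- the map on the plane
  let f : ℝ × ℝ → ℝ → Y := fun z t => A (projIcc 0 1 zero_le_one z.2, projIcc 0 1 zero_le_one t)
  have hfc : Continuous (Function.uncurry f) := by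
    show Continuous (fun w : (ℝ × ℝ) × ℝ =>
      A (projIcc 0 1 zero_le_one w.1.2, projIcc 0 1 zero_le_one w.2))
    fun_prop
  let H₀ : ℝ × ℝ → Y := fun z => f z (Int.fract z.1)
  have hH₀ : Continuous H₀ := by
    refine ContinuousOn.comp_fract (f := f) (s := fun z : ℝ × ℝ => z.1) hfc.continuousOn
      continuous_fst ?_
    intro z
    show A (_, projIcc 0 1 zero_le_one 0) = A (_, projIcc 0 1 zero_le_one 1)
    rw [projIcc_left, projIcc_right]
    exact (hAl _).trans (hAr _).symm
  have hlow : ∀ (s t : ℝ), s ≤ 0 → H₀ (t, s) = Γ (p * t) := by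
    intro s t hs
    show A (projIcc 0 1 zero_le_one s, projIcc 0 1 zero_le_one (Int.fract t)) = _
    rw [projIcc_of_le_left zero_le_one hs]
    show A (0, _) = _
    rw [hA0, projIcc_of_mem zero_le_one ⟨Int.fract_nonneg t, (Int.fract_lt_one t).le⟩]
    apply hΓfr
    rw [Int.fract_eq_fract]
    refine ⟨-(p * ⌊t⌋), ?_⟩
    push_cast
    rw [← Int.self_sub_floor t]
    ring
  have hinv : ∀ a b : ℝ × ℝ, (ppSetoid p).r a b → H₀ a = H₀ b := by
    rintro ⟨a, s⟩ ⟨b, s'⟩ ⟨h, h'⟩
    simp only at h h'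
    subst h
    rcases h' with ⟨m, hm⟩ | ⟨hs, m, hm⟩ | h1
    · have : Int.fract a = Int.fract b := Int.fract_eq_fract.2 ⟨m, hm⟩
      show f (a, s) (Int.fract a) = f (b, s) (Int.fract b)
      rw [this]
    · rw [hlow s a hs, hlow s b hs]
      apply hΓfr
      rw [Int.fract_eq_fract]
      exact ⟨m, by rw [← hm]; ring⟩
    · show A (projIcc 0 1 zero_le_one s, _) = A (projIcc 0 1 zero_le_one s, _)
      rw [projIcc_of_right_le zero_le_one h1]
      exact (hA1 _).trans (hA1 _).symm
  have hmk : Continuous (fun z : ℝ × ℝ => (Quotient.mk (ppSetoid p) z : PP p)) :=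
    continuous_quotient_mk'
  refine ⟨Quotient.lift H₀ hinv, hH₀.quotient_lift hinv, ?_,
    fun s => Quotient.mk (ppSetoid p) (s / p, 0), hmk.comp (by fun_prop), ?_, ?_⟩
  · have hr : range (Quotient.lift H₀ hinv) = range A := by
      apply Subset.antisymm
      · rintro _ ⟨z, rfl⟩
        induction z using Quotient.inductionOn with
        | h a => exact ⟨_, rfl⟩
      · rintro _ ⟨⟨s, t⟩, rfl⟩
        rcases eq_or_lt_of_le t.2.2 with h | h
        · have ht : t = 1 := Subtype.ext h
          subst ht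
          refine ⟨Quotient.mk (ppSetoid p) (0, (s : ℝ)), ?_⟩
          show A (projIcc 0 1 zero_le_one (s : ℝ), projIcc 0 1 zero_le_one (Int.fract 0)) = _
          rw [projIcc_val, Int.fract_zero, projIcc_left]
          exact (hAl _).trans (hAr _).symm
        · refine ⟨Quotient.mk (ppSetoid p) ((t : ℝ), (s : ℝ)), ?_⟩
          show A (projIcc 0 1 zero_le_one (s : ℝ),
            projIcc 0 1 zero_le_one (Int.fract (t : ℝ))) = _
          rw [projIcc_val, Int.fract_eq_self.2 ⟨t.2.1, h⟩, projIcc_val]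
    rw [hr]
    exact isCompact_range A.continuous
  · apply Quotient.sound (s := ppSetoid p)
    refine ⟨rfl, Or.inr (Or.inl ⟨le_rfl, -1, ?_⟩)⟩
    push_cast
    field_simp
    ring
  · intro t
    show H₀ ((t : ℝ) / p, 0) = γ t
    rw [hlow 0 _ le_rfl, ← hΓ]
    congr 1
    field_simp

/-- Let `j` embed the space `T` in a normed space `E`.  If every compact subset `K` of `T` has a
continuous map `h` to a metric space such that `h '' K` has small covers of order at most two and
such that for every connected subset `C` of `K` on which `h` is constant the convex hull of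
`j '' C` lies in the range of `j`, then the fundamental groups of `T` are torsion-free. -/
theorem torsionFree_of_embedding {T : Type*} [TopologicalSpace T] {E : Type*}
    [NormedAddCommGroup E] [NormedSpace ℝ E] (j : T → E) (hj : IsEmbedding j)
    (hX : ∀ K : Set T, IsCompact K → ∃ (M : Type) (_ : MetricSpace M) (h : T → M),
      ContinuousOn h K ∧ ThinCover (h '' K) ∧
      ∀ C ⊆ K, IsPreconnected C → (∀ a ∈ C, ∀ b ∈ C, h a = h b) →
        convexHull ℝ (j '' C) ⊆ range j)
    (x : T) (g : FundamentalGroup T x) (hg : IsOfFinOrder g) : g = 1 := by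
  classical
  obtain ⟨p, hp, hgp⟩ := isOfFinOrder_iff_pow_eq_one.1 hg
  obtain ⟨γ, rfl⟩ := Path.Homotopic.Quotient.mk_surjective g
  obtain ⟨H, hH, hHK, c, hc, hc01, hcγ⟩ := exists_PP_map γ hp.ne' hgp
  have hHE : Continuous (fun z => j (H z)) := hj.continuous.comp hH
  have hrange : range (fun z => j (H z)) = j '' range H := by
    rw [← range_comp]; rfl
  have hK : IsCompact (range fun z => j (H z)) := by
    rw [hrange]
    exact hHK.image hj.continuous
  obtain ⟨M, _, h, hh, hthin, hconv⟩ := hX (range H) hHK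
  have hMne : Nonempty M := ⟨h x⟩
  let h' : E → M := Function.extend j h (fun _ => h x)
  have hh' : ∀ a, h' (j a) = h a := fun a => hj.injective.extend_apply h _ a
  have hh'c : ContinuousOn h' (range fun z => j (H z)) := by
    rw [hrange]
    rintro _ ⟨a, ha, rfl⟩
    rw [ContinuousWithinAt, hh', ← hj.map_nhdsWithin_eq, tendsto_map'_iff]
    exact Tendsto.congr (fun b => (hh' b).symm) (hh a ha).tendsto
  have himg : h' '' (range fun z => j (H z)) = h '' range H := by
    rw [hrange, image_image]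
    exact image_congr (fun a _ => hh' a)
  obtain ⟨G, hG, hGX, hGp, hGc⟩ := exists_filling (liftsCircle_PP hp.ne')
    (fun z => j (H z)) hHE hK h' hh'c (by rw [himg]; exact hthin) (range j) (by
      intro C' hC' hpre hconst
      rw [hrange] at hC'
      have hCC : C' = j '' (j ⁻¹' C') := by
        rw [image_preimage_eq_inter_range]
        exact (inter_eq_left.2 (hC'.trans (image_subset_range _ _))).symm
      rw [hCC]
      apply hconv
      · intro a ha
        obtain ⟨b, hb, hab⟩ := hC' ha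
        rwa [← hj.injective hab]
      · rw [← hj.isInducing.isPreconnected_image, ← hCC]
        exact hpre
      · intro a ha b hb
        rw [← hh', ← hh']
        exact hconst _ ha _ hb) c hc hc01
  have hDom : ∀ z : I × I, ((z.2 : ℝ), (1 - (z.1 : ℝ)) * (z.2 : ℝ) ^ 2 + (z.1 : ℝ) * (z.2 : ℝ))
      ∈ Dom := by
    rintro ⟨t, s⟩
    have h1 := s.2.1
    have h2 := s.2.2
    have h3 := t.2.1
    have h4 := t.2.2
    have h5 : (0 : ℝ) ≤ (s : ℝ) - (s : ℝ) ^ 2 := by nlinarith
    constructor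
    · show (s : ℝ) ^ 2 ≤ (1 - (t : ℝ)) * (s : ℝ) ^ 2 + (t : ℝ) * (s : ℝ)
      nlinarith [mul_nonneg h3 h5]
    · show (1 - (t : ℝ)) * (s : ℝ) ^ 2 + (t : ℝ) * (s : ℝ) ≤ (s : ℝ)
      nlinarith [mul_nonneg (sub_nonneg.2 h4) h5]
  have hc0x : H (c 0) = x := by
    have := hcγ 0
    rw [show ((0 : I) : ℝ) = 0 from rfl] at this
    rw [this]; simp
  choose F hF using fun z : I × I => hGX _ (hDom z)
  have hFc : Continuous F := by
    rw [hj.isInducing.continuous_iff]
    have : j ∘ F = fun z : I × I =>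
        G ((z.2 : ℝ), (1 - (z.1 : ℝ)) * (z.2 : ℝ) ^ 2 + (z.1 : ℝ) * (z.2 : ℝ)) := funext hF
    rw [this]
    exact hG.comp_continuous (by fun_prop) hDom
  have hhom : γ.Homotopic (Path.refl x) := by
    refine ⟨⟨⟨⟨F, hFc⟩, ?_, ?_⟩, ?_⟩⟩
    · intro s
      apply hj.injective
      show j (F (0, s)) = j (γ s)
      rw [hF]
      show G ((s : ℝ), (1 - ((0 : I) : ℝ)) * (s : ℝ) ^ 2 + ((0 : I) : ℝ) * (s : ℝ)) = j (γ s)
      rw [show (1 - ((0 : I) : ℝ)) * (s : ℝ) ^ 2 + ((0 : I) : ℝ) * (s : ℝ) = (s : ℝ) ^ 2 by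
        simp, hGp s s.2, hcγ]
    · intro s
      apply hj.injective
      show j (F (1, s)) = j x
      rw [hF]
      show G ((s : ℝ), (1 - ((1 : I) : ℝ)) * (s : ℝ) ^ 2 + ((1 : I) : ℝ) * (s : ℝ)) = j x
      rw [show (1 - ((1 : I) : ℝ)) * (s : ℝ) ^ 2 + ((1 : I) : ℝ) * (s : ℝ) = (s : ℝ) by
        simp, hGc s s.2, hc0x]
    · intro t s hs
      apply hj.injective
      rcases hs with rfl | hs
      · show j (F (t, 0)) = j (γ 0)
        rw [hF]
        show G (((0 : I) : ℝ), (1 - (t : ℝ)) * ((0 : I) : ℝ) ^ 2 + (t : ℝ) * ((0 : I) : ℝ)) =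
          j (γ 0)
        have h1 := hGc 0 ⟨le_rfl, zero_le_one⟩
        simp only [Icc.coe_zero, ne_eq, OfNat.ofNat_ne_zero, not_false_eq_true, zero_pow,
          mul_zero, add_zero, Path.source]
        rw [h1, hc0x]
      · rw [mem_singleton_iff] at hs
        subst hs
        show j (F (t, 1)) = j (γ 1)
        rw [hF]
        show G (((1 : I) : ℝ), (1 - (t : ℝ)) * ((1 : I) : ℝ) ^ 2 + (t : ℝ) * ((1 : I) : ℝ)) =
          j (γ 1)
        have h1 := hGc 1 ⟨zero_le_one, le_rfl⟩
        simp only [Icc.coe_one, one_pow, mul_one, sub_add_cancel, Path.target]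
        rw [h1, hc0x]
  show Path.Homotopic.Quotient.mk γ = Path.Homotopic.Quotient.refl x
  rw [← Path.Homotopic.Quotient.mk_refl, Path.Homotopic.Quotient.eq]
  exact hhom

end Pool.Agent.Work.MP_71c2fc_gt
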