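import Pool.Agent.Work.MP_71c2fc_gt.Sharp

set_option autoImplicit false

open Set Filter Topology
open scoped unitInterval

namespace Pool.Agent.Work.MP_71c2fc_gt

/-- Ear cutting for integer-valued holonomies. -/
theorem ear_sum {Q : Type*} (R : Q → Q → Prop)
    (hear : ∀ (n : ℕ) (y : ℕ → Q), (∀ i < n, R (y i) (y (i + 1))) → y 0 = y n → 2 ≤ n →
      ∃ i, i + 2 ≤ n ∧ R (y i) (y (i + 2)))
    (h : Q → Q → ℤ → Prop) (N : ℤ) (h1 : ∀ a b, R a b → ∃ k, h a b k)
    (h2 : ∀ a b c, R a b → R b c → R a c → ∀ k₁ k₂ k₃, h a b k₁ → h b c k₂ → h a c k₃ →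
      N ∣ k₁ + k₂ - k₃)
    (h3 : ∀ a k, h a a k → N ∣ k) :
    ∀ (m : ℕ) (a : ℕ → Q) (k : ℕ → ℤ), 1 ≤ m → (∀ i < m, R (a i) (a (i + 1))) →
      (∀ i < m, h (a i) (a (i + 1)) (k i)) → a 0 = a m → N ∣ ∑ i ∈ Finset.range m, k i := by
  intro m
  induction m with
  | zero => intro a k hm; omega
  | succ m ih =>
    intro a k _ hR hh h0
    rcases Nat.eq_zero_or_pos m with hm | hm
    · subst hm
      rw [Finset.sum_range_one]
      apply h3 (a 0)
      have := hh 0 (by omega)
      rwa [← h0] at this
    · obtain ⟨i, hi, hRi⟩ := hear (m + 1) a hR h0 (by omega)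
      obtain ⟨k', hk'⟩ := h1 _ _ hRi
      have hdvd : N ∣ k i + k (i + 1) - k' := h2 (a i) (a (i + 1)) (a (i + 2)) (hR i (by omega))
        (hR (i + 1) (by omega)) hRi _ _ _ (hh i (by omega)) (hh (i + 1) (by omega)) hk'
      let a' : ℕ → Q := fun j => if j ≤ i then a j else a (j + 1)
      let kk : ℕ → ℤ := fun j => if j < i then k j else if j = i then k' else k (j + 1)
      have hstep : ∀ j < m, R (a' j) (a' (j + 1)) ∧ h (a' j) (a' (j + 1)) (kk j) := by
        intro j hj
        rcases lt_trichotomy j i with hji | hji | hji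
        · have e1 : a' j = a j := if_pos hji.le
          have e2 : a' (j + 1) = a (j + 1) := if_pos (by omega)
          have e3 : kk j = k j := if_pos hji
          rw [e1, e2, e3]
          exact ⟨hR j (by omega), hh j (by omega)⟩
        · subst hji
          have e1 : a' j = a j := if_pos le_rfl
          have e2 : a' (j + 1) = a (j + 2) := if_neg (by omega)
          have e3 : kk j = k' := by
            show (if j < j then _ else if j = j then k' else _) = k'
            rw [if_neg (by omega), if_pos rfl]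
          rw [e1, e2, e3]
          exact ⟨hRi, hk'⟩
        · have e1 : a' j = a (j + 1) := if_neg (by omega)
          have e2 : a' (j + 1) = a (j + 2) := if_neg (by omega)
          have e3 : kk j = k (j + 1) := by
            show (if j < i then _ else if j = i then k' else k (j + 1)) = _
            rw [if_neg (by omega), if_neg (by omega)]
          rw [e1, e2, e3]
          exact ⟨hR (j + 1) (by omega), hh (j + 1) (by omega)⟩
      have hsum : ∀ t, i + 1 ≤ t → ∑ j ∈ Finset.range t, kk j =
          ∑ j ∈ Finset.range (t + 1), k j - (k i + k (i + 1)) + k' := by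
        intro t ht
        induction t, ht using Nat.le_induction with
        | base =>
          rw [Finset.sum_range_succ, Finset.sum_range_succ, Finset.sum_range_succ]
          have e1 : ∑ j ∈ Finset.range i, kk j = ∑ j ∈ Finset.range i, k j :=
            Finset.sum_congr rfl fun j hj => if_pos (Finset.mem_range.1 hj)
          have e3 : kk i = k' := by
            show (if i < i then _ else if i = i then k' else _) = k'
            rw [if_neg (by omega), if_pos rfl]
          rw [e1, e3]; ring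
        | succ t ht iht =>
          rw [Finset.sum_range_succ, iht, Finset.sum_range_succ _ (t + 1)]
          have e3 : kk t = k (t + 1) := by
            show (if t < i then _ else if t = i then k' else k (t + 1)) = _
            rw [if_neg (by omega), if_neg (by omega)]
          rw [e3]; ring
      have h4 := ih a' kk hm (fun j hj => (hstep j hj).1) (fun j hj => (hstep j hj).2) (by
        have e1 : a' 0 = a 0 := if_pos (Nat.zero_le i)
        have e2 : a' m = a (m + 1) := if_neg (by omega)
        rw [e1, e2, h0])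
      rw [hsum m (by omega)] at h4
      have h5 := dvd_add h4 hdvd
      have h6 : ∑ j ∈ Finset.range (m + 1), k j - (k i + k (i + 1)) + k' + (k i + k (i + 1) - k') =
          ∑ j ∈ Finset.range (m + 1), k j := by ring
      rwa [h6] at h5

/-- The curve along the singular circle. -/
theorem hol_line {n : ℕ} {S : Set (PP n)} {u u' : ℝ}
    (h : ∀ t ∈ uIcc u u', psPi n (cs n t) ∈ S) (hn : n ≠ 0) : Hol n S u u' 0 := by
  let θ : Path u u' :=
    { toFun := fun r => (1 - (r : ℝ)) * u + (r : ℝ) * u'
      continuous_toFun := by fun_prop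
      source' := by simp
      target' := by simp }
  refine ⟨θ.map (continuous_cs n), θ.cast rfl (by simp), ?_, ?_⟩
  · intro r
    apply h
    have h1 := r.2.1
    have h2 := r.2.2
    show (1 - (r : ℝ)) * u + (r : ℝ) * u' ∈ _
    rw [mem_uIcc]
    rcases le_total u u' with huu | huu
    · left; constructor <;> nlinarith
    · right; constructor <;> nlinarith
  · intro r
    show ((θ r : ℝ) : AddCircle (1 : ℝ)) = ang n (cs n (θ r))
    rw [ang_cs hn]

theorem Hol.shift {n : ℕ} (hn : n ≠ 0) {S : Set (PP n)} {u u' : ℝ} {k : ℤ}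
    (h : Hol n S u (u' + 1) k) : Hol n S u u' (k + 1) := by
  obtain ⟨w, θ, h1, h2⟩ := h
  exact ⟨w.cast rfl (cs_add_one hn u').symm, θ.cast rfl (by push_cast; ring), h1, h2⟩

/-- Over every cover of order at most two of the pseudo-projective plane some set close to a
member of the cover carries a curve with nontrivial holonomy modulo `N`. -/
theorem carry_stage {n : ℕ} (hn : n ≠ 0) {N : ℤ} (hN : ¬ N ∣ 1) {M : Type*} [PseudoMetricSpace M]
    (v : PP n → M) {ι : Type*} {d : ι → PP n → ℝ} (hd : ∀ k, Continuous (d k))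
    (hd0 : ∀ k z, 0 ≤ d k z) (hcov : ∀ z, ∃ k, 0 < d k z)
    (hord : ∀ z k l m, 0 < d k z → 0 < d l z → 0 < d m z → k = l ∨ k = m ∨ l = m)
    {ε : ℝ} (hmesh : ∀ k a b, 0 < d k a → 0 < d k b → dist (v a) (v b) ≤ ε) :
    ∃ (S : Set (PP n)) (u : ℝ) (k : ℤ), IsPreconnected S ∧ psPi n (cs n u) ∈ S ∧
      (∀ a ∈ S, ∀ b ∈ S, dist (v a) (v b) ≤ 2 * ε) ∧ Hol n S u u k ∧ ¬ N ∣ k := by
  classical
  by_contra hno
  push Not at hno
  let W : ι → Set (PP n) := fun k => {z | 0 < d k z}
  have hWo : ∀ k, IsOpen (W k) := fun k => isOpen_lt continuous_const (hd k)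
  let c : ℝ → PP n := fun t => psPi n (cs n t)
  have hc : Continuous c := (continuous_psPi n).comp (continuous_cs n)
  have hc01 : c 0 = c 1 := by
    show psPi n (cs n 0) = psPi n (cs n 1)
    rw [← cs_add_one hn 0, zero_add]
  have hrefl : ∀ A : Node W, A.meets A := fun A => by
    obtain ⟨z, hz⟩ := A.nonempty
    exact ⟨z, hz, hz⟩
  -- unions of nodes which meet
  have hpair : ∀ A B : Node W, A.meets B → IsPreconnected (A.carrier ∪ B.carrier) := by
    rintro A B ⟨z, hz1, hz2⟩
    exact IsPreconnected.union z hz1 hz2 A.isPreconnected B.isPreconnected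
  have htri : ∀ A B C : Node W, A.meets B → A.meets C →
      IsPreconnected (A.carrier ∪ B.carrier ∪ C.carrier) := by
    rintro A B C hAB ⟨z, hz1, hz2⟩
    exact IsPreconnected.union z (Or.inl hz1) hz2 (hpair A B hAB) C.isPreconnected
  have hsmall : ∀ A B C : Node W, A.meets B → A.meets C → B.meets C →
      ∀ a ∈ A.carrier ∪ B.carrier ∪ C.carrier, ∀ b ∈ A.carrier ∪ B.carrier ∪ C.carrier,
        dist (v a) (v b) ≤ 2 * ε := by
    intro A B C hAB hAC hBC
    have key : ∀ D E : Node W, D.meets E → ∀ a ∈ D.carrier, ∀ b ∈ E.carrier,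
        dist (v a) (v b) ≤ 2 * ε := by
      rintro D E ⟨e, he1, he2⟩ a ha b hb
      have h1 := hmesh _ a e (D.subset ha) (D.subset he1)
      have h2 := hmesh _ e b (E.subset he2) (E.subset hb)
      linarith [dist_triangle (v a) (v e) (v b)]
    have hs : ∀ D E : Node W, D.meets E → E.meets D := fun D E ⟨z, hz⟩ => ⟨z, hz.2, hz.1⟩
    rintro a ((ha | ha) | ha) b ((hb | hb) | hb)
    · exact key A A (hrefl A) a ha b hb
    · exact key A B hAB a ha b hb
    · exact key A C hAC a ha b hb
    · exact key B A (hs _ _ hAB) a ha b hb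
    · exact key B B (hrefl B) a ha b hb
    · exact key B C hBC a ha b hb
    · exact key C A (hs _ _ hAC) a ha b hb
    · exact key C B (hs _ _ hBC) a ha b hb
    · exact key C C (hrefl C) a ha b hb
  -- pointed nodes
  let Q : Type _ := {q : Node W × ℝ // c q.2 ∈ q.1.carrier}
  let R : Q → Q → Prop := fun a b => a.1.1.meets b.1.1
  let h : Q → Q → ℤ → Prop := fun a b k =>
    Hol n (a.1.1.carrier ∪ b.1.1.carrier) a.1.2 b.1.2 k
  have hno' : ∀ (A B C : Node W), A.meets B → A.meets C → B.meets C → ∀ (u : ℝ) (k : ℤ),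
      c u ∈ A.carrier ∪ B.carrier ∪ C.carrier →
      Hol n (A.carrier ∪ B.carrier ∪ C.carrier) u u k → N ∣ k := by
    intro A B C hAB hAC hBC u k hu hH
    exact hno _ u k (htri A B C hAB hAC) hu (hsmall A B C hAB hAC hBC) hH
  have h1 : ∀ a b, R a b → ∃ k, h a b k := by
    intro a b hab
    exact exists_Hol hn ((a.1.1.isOpen hWo).union (b.1.1.isOpen hWo)) (hpair _ _ hab)
      (Or.inl a.2) (Or.inr b.2)
  have h2 : ∀ a b c', R a b → R b c' → R a c' → ∀ k₁ k₂ k₃, h a b k₁ → h b c' k₂ → h a c' k₃ →
      N ∣ k₁ + k₂ - k₃ := by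
    intro a b c' hab hbc hac k₁ k₂ k₃ e1 e2 e3
    have f1 := e1.mono (S' := a.1.1.carrier ∪ b.1.1.carrier ∪ c'.1.1.carrier)
      subset_union_left
    have f2 := e2.mono (S' := a.1.1.carrier ∪ b.1.1.carrier ∪ c'.1.1.carrier)
      (union_subset (subset_union_right.trans subset_union_left) subset_union_right)
    have f3 := e3.mono (S' := a.1.1.carrier ∪ b.1.1.carrier ∪ c'.1.1.carrier)
      (union_subset (subset_union_left.trans subset_union_left) subset_union_right)
    have := (f1.trans f2).trans f3.symm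
    rw [← sub_eq_add_neg] at this
    exact hno' _ _ _ hab hac hbc _ _ (Or.inl (Or.inl a.2)) this
  have h3 : ∀ a k, h a a k → N ∣ k := by
    intro a k e
    refine hno' _ _ _ (hrefl a.1.1) (hrefl _) (hrefl _) a.1.2 k (Or.inl (Or.inl a.2)) ?_
    exact e.mono subset_union_left
  have hear : ∀ (n : ℕ) (y : ℕ → Q), (∀ i < n, R (y i) (y (i + 1))) → y 0 = y n → 2 ≤ n →
      ∃ i, i + 2 ≤ n ∧ R (y i) (y (i + 2)) := by
    intro m y hy h0 hm
    exact exists_ear Node.meets hrefl (node_bridge (liftsCircle_PP hn) hd hd0 hcov hord) m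
      (fun i => (y i).1.1) hy (by rw [h0]) hm
  -- the closed walk
  obtain ⟨δ, hδ, hleb⟩ := lebesgue_number_lemma_of_metric (s := Icc (0 : ℝ) 1)
    (c := fun k => c ⁻¹' {z | 0 < d k z}) isCompact_Icc
    (fun k => (isOpen_lt continuous_const (hd k)).preimage hc) (by
      intro x _
      obtain ⟨k, hk⟩ := hcov (c x)
      exact mem_iUnion.2 ⟨k, hk⟩)
  have hιne : Nonempty ι := ⟨(hcov (c 0)).choose⟩
  choose! kf hkf using hleb
  obtain ⟨m, hm1, hm2⟩ : ∃ m : ℕ, 1 ≤ m ∧ 1 / (m : ℝ) < δ := by
    obtain ⟨m, hm⟩ := exists_nat_one_div_lt hδ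
    refine ⟨m + 1, by omega, ?_⟩
    push_cast
    exact hm
  have hmpos : (0 : ℝ) < m := by exact_mod_cast hm1
  let tv : ℕ → ℝ := fun i => if i < m then (i : ℝ) / m else 0
  have htv : ∀ i, tv i ∈ Icc (0 : ℝ) 1 := by
    intro i
    by_cases h : i < m
    · show (if i < m then (i : ℝ) / m else 0) ∈ _
      rw [if_pos h]
      refine ⟨by positivity, ?_⟩
      rw [div_le_one hmpos]
      exact_mod_cast h.le
    · show (if i < m then (i : ℝ) / m else 0) ∈ _
      rw [if_neg h]
      exact ⟨le_rfl, zero_le_one⟩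
  let nd : Icc (0 : ℝ) 1 → Node W := fun x =>
    Node.mk' (kf x) (c x) (hkf x x.2 (Metric.mem_ball_self hδ))
  have hnd : ∀ x : Icc (0 : ℝ) 1, c x ∈ (nd x).carrier := fun x => Node.mem_mk' _ _ _
  let a : ℕ → Q := fun i => ⟨(nd ⟨tv i, htv i⟩, tv i), hnd ⟨tv i, htv i⟩⟩
  -- the arc from the `i`-th point lies in the `i`-th node
  have harc : ∀ i < m, ∀ t ∈ Icc ((i : ℝ) / m) ((i + 1 : ℝ) / m), c t ∈ (a i).1.1.carrier := by
    intro i hi
    have h2 : tv i = (i : ℝ) / m := if_pos hi
    have hsub : c '' (Icc ((i : ℝ) / m) ((i + 1 : ℝ) / m)) ⊆ W (kf (tv i)) := by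
      rintro _ ⟨t, ht, rfl⟩
      apply hkf (tv i) (htv i)
      rw [h2, Metric.mem_ball, Real.dist_eq, abs_of_nonneg (by linarith [ht.1])]
      have h3 := ht.2
      have h4 : ((i : ℝ) + 1) / m = (i : ℝ) / m + 1 / m := by ring
      rw [h4] at h3
      linarith
    have hpc : IsPreconnected (c '' (Icc ((i : ℝ) / m) ((i + 1 : ℝ) / m))) :=
      isPreconnected_Icc.image _ hc.continuousOn
    have h3 := hpc.subset_connectedComponentIn (x := c (tv i)) ⟨(i : ℝ) / m, ⟨le_rfl, by
      apply div_le_div_of_nonneg_right _ hmpos.le; linarith⟩, by rw [h2]⟩ hsub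
    intro t ht
    exact h3 ⟨t, ht, rfl⟩
  have hclosed : a 0 = a m := by
    have h1 : tv 0 = tv m := by
      show (if 0 < m then ((0 : ℕ) : ℝ) / m else 0) = if m < m then ((m : ℕ) : ℝ) / m else 0
      rw [if_pos (by omega), if_neg (by omega)]
      simp
    apply Subtype.ext
    show (nd ⟨tv 0, htv 0⟩, tv 0) = (nd ⟨tv m, htv m⟩, tv m)
    simp only [h1]
  have hnext : ∀ i < m, c (((i : ℝ) + 1) / m) ∈ (a (i + 1)).1.1.carrier := by
    intro i hi
    have h1 : c (tv (i + 1)) ∈ (a (i + 1)).1.1.carrier := (a (i + 1)).2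
    rcases Nat.lt_or_ge (i + 1) m with h | h
    · have h2 : tv (i + 1) = ((i : ℝ) + 1) / m := by
        show (if i + 1 < m then ((i + 1 : ℕ) : ℝ) / m else 0) = _
        rw [if_pos h]; push_cast; rfl
      rwa [h2] at h1
    · have h2 : tv (i + 1) = 0 := if_neg (by omega)
      have h3 : ((i : ℝ) + 1) / m = 1 := by
        have : (m : ℝ) = (i : ℝ) + 1 := by
          have : m = i + 1 := by omega
          rw [this]; push_cast; rfl
        rw [this]
        exact div_self (by positivity)
      rw [h2, hc01] at h1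
      rwa [h3]
  have hwalk : ∀ i < m, R (a i) (a (i + 1)) := by
    intro i hi
    refine ⟨c (((i : ℝ) + 1) / m), harc i hi _ ⟨?_, le_rfl⟩, hnext i hi⟩
    apply div_le_div_of_nonneg_right _ hmpos.le; linarith
  let kk : ℕ → ℤ := fun i => if i + 1 < m then 0 else 1
  have hhol : ∀ i < m, h (a i) (a (i + 1)) (kk i) := by
    intro i hi
    have h2 : tv i = (i : ℝ) / m := if_pos hi
    have hline : Hol n ((a i).1.1.carrier ∪ (a (i + 1)).1.1.carrier) (tv i)
        (((i : ℝ) + 1) / m) 0 := by
      apply hol_line _ hn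
      intro t ht
      left
      apply harc i hi t
      rw [h2, uIcc_of_le] at ht
      · exact ht
      · apply div_le_div_of_nonneg_right _ hmpos.le; linarith
    show Hol n _ (tv i) (tv (i + 1)) (kk i)
    rcases Nat.lt_or_ge (i + 1) m with h | h
    · have h3 : tv (i + 1) = ((i : ℝ) + 1) / m := by
        show (if i + 1 < m then ((i + 1 : ℕ) : ℝ) / m else 0) = _
        rw [if_pos h]; push_cast; rfl
      have h4 : kk i = 0 := if_pos h
      rw [h3, h4]
      exact hline
    · have h3 : tv (i + 1) = 0 := if_neg (by omega)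
      have h4 : kk i = 1 := if_neg (by omega)
      have h5 : ((i : ℝ) + 1) / m = 0 + 1 := by
        have : (m : ℝ) = (i : ℝ) + 1 := by
          have : m = i + 1 := by omega
          rw [this]; push_cast; rfl
        rw [this, zero_add]
        exact div_self (by positivity)
      rw [h3, h4]
      rw [h5] at hline
      have := hline.shift hn
      rwa [zero_add] at this
  have hfin := ear_sum R hear h N h1 h2 h3 m a kk hm1 hwalk hhol hclosed
  have hsum : ∑ i ∈ Finset.range m, kk i = 1 := by
    rw [Finset.sum_eq_single (m - 1)]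
    · show (if m - 1 + 1 < m then (0 : ℤ) else 1) = 1
      rw [if_neg (by omega)]
    · intro j hj hne
      have : j < m := Finset.mem_range.1 hj
      show (if j + 1 < m then (0 : ℤ) else 1) = 0
      rw [if_pos (by omega)]
    · intro hj
      exact absurd (Finset.mem_range.2 (by omega)) hj
  rw [hsum] at hfin
  exact hN hfin

end Pool.Agent.Work.MP_71c2fc_gt
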