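import Pool.Agent.Work.MP_71c2fc_gt.Limit

set_option autoImplicit false

open Set Filter Topology

namespace Pool.Agent.Work.MP_71c2fc_gt

theorem ThinCover.mono {M : Type*} [PseudoMetricSpace M] {B B' : Set M} (h : ThinCover B')
    (hB : B ⊆ B') : ThinCover B := by
  intro ε hε
  obtain ⟨ι, d, h1, h2, h3, h4, h5⟩ := h ε hε
  exact ⟨ι, d, h1, h2, fun z hz => h3 z (hB hz), fun z hz => h4 z (hB hz),
    fun k a ha b hb => h5 k a (hB ha) b (hB hb)⟩

/-- The graph of all points of the simplex on at most two vertices. -/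
def SkelOne (n : ℕ) : Set (Fin n → ℝ) :=
  {g | (∀ v, 0 ≤ g v) ∧ ∑ v, g v = 1 ∧ ∃ v w, ∀ u, u ≠ v → u ≠ w → g u = 0}

theorem SkelOne.add_eq {n : ℕ} {g : Fin n → ℝ} (hg : g ∈ SkelOne n) {v w : Fin n} (hvw : v ≠ w)
    (hv : 0 < g v) (hw : 0 < g w) : g v + g w = 1 ∧ ∀ u, u ≠ v → u ≠ w → g u = 0 := by
  obtain ⟨h0, h1, a, b, hab⟩ := hg
  have hva : v = a ∨ v = b := by
    by_contra h
    push Not at h
    exact hv.ne' (hab v h.1 h.2)
  have hwa : w = a ∨ w = b := by
    by_contra h
    push Not at h
    exact hw.ne' (hab w h.1 h.2)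
  have hz : ∀ u, u ≠ v → u ≠ w → g u = 0 := by
    intro u hu1 hu2
    apply hab u
    · rintro rfl
      rcases hva with h | h
      · exact hu1 h.symm
      · rcases hwa with h' | h'
        · exact hu2 h'.symm
        · exact hvw (h.trans h'.symm)
    · rintro rfl
      rcases hva with h | h
      · rcases hwa with h' | h'
        · exact hvw (h.trans h'.symm)
        · exact hu2 h'.symm
      · exact hu1 h.symm
  refine ⟨?_, hz⟩
  rw [← h1]
  exact (Fintype.sum_eq_add v w hvw fun u hu => hz u hu.1 hu.2).symm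

theorem thinCover_skelOne (n : ℕ) : ThinCover (SkelOne n) := by
  classical
  intro ε hε
  obtain ⟨m, hm⟩ := exists_nat_one_div_lt (show 0 < ε / 2 by positivity)
  set N : ℝ := (m : ℝ) + 2 with hN
  have hN2 : 2 ≤ N := by rw [hN]; have : (0 : ℝ) ≤ m := Nat.cast_nonneg m
                         linarith
  have hNpos : 0 < N := by linarith
  have hNε : 2 / N ≤ ε := by
    have h1 : 1 / N ≤ 1 / ((m : ℝ) + 1) := by
      apply one_div_le_one_div_of_le
      · positivity
      · rw [hN]; linarith
    have h2 : 2 / N = 2 * (1 / N) := by ring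
    rw [h2]; linarith
  have h1N : 1 / N ≤ 1 / 2 := one_div_le_one_div_of_le (by norm_num) hN2
  let d : Fin n ⊕ (Fin n × Fin n × ℕ) → (Fin n → ℝ) → ℝ := fun k g => match k with
    | Sum.inl v => max 0 (1 - N * (1 - g v))
    | Sum.inr (v, w, k) => if v < w ∧ 1 ≤ k ∧ k < m + 2 then
        min (max 0 (1 - |N * g v - k|)) (max 0 (g w)) else 0
  have hdl : ∀ v g, 0 < d (Sum.inl v) g → 1 - 1 / N < g v := by
    intro v g h
    have h1 : 0 < 1 - N * (1 - g v) := by
      rcases lt_max_iff.1 (show 0 < max 0 (1 - N * (1 - g v)) from h) with h | h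
      · exact absurd h (lt_irrefl _)
      · exact h
    have h2 : 1 - g v < 1 / N := by
      rw [lt_div_iff₀ hNpos]; linarith
    linarith
  have hdr : ∀ v w k g, 0 < d (Sum.inr (v, w, k)) g → v < w ∧ 1 ≤ k ∧ k < m + 2 ∧
      |N * g v - k| < 1 ∧ 0 < g w ∧ 0 < g v := by
    intro v w k g h
    by_cases hc : v < w ∧ 1 ≤ k ∧ k < m + 2
    · have h1 : 0 < min (max 0 (1 - |N * g v - k|)) (max 0 (g w)) := by
        have : d (Sum.inr (v, w, k)) g = min (max 0 (1 - |N * g v - k|)) (max 0 (g w)) := if_pos hc
        rwa [this] at h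
      obtain ⟨h2, h3⟩ := lt_min_iff.1 h1
      have h4 : 0 < 1 - |N * g v - k| := by
        rcases lt_max_iff.1 h2 with h | h
        · exact absurd h (lt_irrefl _)
        · exact h
      have h5 : 0 < g w := by
        rcases lt_max_iff.1 h3 with h | h
        · exact absurd h (lt_irrefl _)
        · exact h
      refine ⟨hc.1, hc.2.1, hc.2.2, by linarith, h5, ?_⟩
      have h6 : |N * g v - k| < 1 := by linarith
      rw [abs_lt] at h6
      have h7 : (1 : ℝ) ≤ k := by exact_mod_cast hc.2.1
      have h8 : 0 < N * g v := by linarith [h6.1]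
      exact (pos_iff_pos_of_mul_pos h8).1 hNpos
    · have : d (Sum.inr (v, w, k)) g = 0 := if_neg hc
      rw [this] at h
      exact absurd h (lt_irrefl _)
  have hll : ∀ g ∈ SkelOne n, ∀ v v', 0 < d (Sum.inl v) g → 0 < d (Sum.inl v') g → v = v' := by
    intro g hg v v' h h'
    by_contra hne
    have h1 := hdl v g h
    have h2 := hdl v' g h'
    have := (SkelOne.add_eq hg hne (by linarith) (by linarith)).1
    linarith
  have hrr : ∀ g ∈ SkelOne n, ∀ v w k v' w' k', 0 < d (Sum.inr (v, w, k)) g →
      0 < d (Sum.inr (v', w', k')) g → v = v' ∧ w = w' := by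
    intro g hg v w k v' w' k' h h'
    obtain ⟨a1, a2, a3, a4, a5, a6⟩ := hdr v w k g h
    obtain ⟨b1, b2, b3, b4, b5, b6⟩ := hdr v' w' k' g h'
    have hz := (SkelOne.add_eq hg a1.ne a6 a5).2
    have e1 : v' = v ∨ v' = w := by
      by_contra hcon
      push Not at hcon
      exact b6.ne' (hz v' hcon.1 hcon.2)
    have e2 : w' = v ∨ w' = w := by
      by_contra hcon
      push Not at hcon
      exact b5.ne' (hz w' hcon.1 hcon.2)
    rcases e1 with e1 | e1 <;> rcases e2 with e2 | e2
    · subst e1; subst e2; exact absurd b1 (lt_irrefl _)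
    · exact ⟨e1.symm, e2.symm⟩
    · subst e1; subst e2; exact absurd b1 (not_lt.2 a1.le)
    · subst e1; subst e2; exact absurd b1 (lt_irrefl _)
  have hlrr : ∀ g ∈ SkelOne n, ∀ u v w k v' w' k', 0 < d (Sum.inl u) g →
      0 < d (Sum.inr (v, w, k)) g → 0 < d (Sum.inr (v', w', k')) g → k = k' := by
    intro g hg u v w k v' w' k' hu h h'
    obtain ⟨rfl, rfl⟩ := hrr g hg v w k v' w' k' h h'
    obtain ⟨a1, a2, a3, a4, a5, a6⟩ := hdr v w k g h
    obtain ⟨b1, b2, b3, b4, b5, b6⟩ := hdr v w k' g h'
    have hgu := hdl u g hu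
    obtain ⟨hsum, hz⟩ := SkelOne.add_eq hg a1.ne a6 a5
    have hu' : u = v ∨ u = w := by
      by_contra hcon
      push Not at hcon
      have := hz u hcon.1 hcon.2
      linarith
    rw [abs_lt] at a4 b4
    have hN1 : N * (1 / N) = 1 := mul_one_div_cancel hNpos.ne'
    rcases hu' with rfl | rfl
    · have h1 : N - 1 < N * g u := by nlinarith
      have h2 : ((m + 2 : ℕ) : ℝ) - 2 < k := by push_cast; rw [hN] at h1; linarith [a4.2]
      have h3 : ((m + 2 : ℕ) : ℝ) - 2 < k' := by push_cast; rw [hN] at h1; linarith [b4.2]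
      have h4 : m + 2 < k + 2 := by exact_mod_cast (by linarith : ((m + 2 : ℕ) : ℝ) < k + 2)
      have h5 : m + 2 < k' + 2 := by exact_mod_cast (by linarith : ((m + 2 : ℕ) : ℝ) < k' + 2)
      omega
    · have h1 : N * g v < 1 := by
        have : g v < 1 / N := by linarith
        have := mul_lt_mul_of_pos_left this hNpos
        linarith
      have h2 : (k : ℝ) < 2 := by linarith [a4.1]
      have h3 : (k' : ℝ) < 2 := by linarith [b4.1]
      have h4 : k < 2 := by exact_mod_cast h2
      have h5 : k' < 2 := by exact_mod_cast h3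
      omega
  have hrrr : ∀ g ∈ SkelOne n, ∀ v w k v' w' k' v'' w'' k'', 0 < d (Sum.inr (v, w, k)) g →
      0 < d (Sum.inr (v', w', k')) g → 0 < d (Sum.inr (v'', w'', k'')) g →
      k = k' ∨ k = k'' ∨ k' = k'' := by
    intro g hg v w k v' w' k' v'' w'' k'' h h' h''
    obtain ⟨rfl, rfl⟩ := hrr g hg v w k v' w' k' h h'
    obtain ⟨rfl, rfl⟩ := hrr g hg v w k v'' w'' k'' h h''
    have a := (hdr v w k g h).2.2.2.1
    have b := (hdr v w k' g h').2.2.2.1
    have c := (hdr v w k'' g h'').2.2.2.1
    rw [abs_lt] at a b c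
    have key : ∀ p q : ℕ, N * g v - p < 1 → -1 < N * g v - q → q < p + 2 := by
      intro p q hp hq
      have : (q : ℝ) < p + 2 := by linarith
      exact_mod_cast this
    have k1 := key k k' a.2 b.1
    have k2 := key k' k b.2 a.1
    have k3 := key k k'' a.2 c.1
    have k4 := key k'' k c.2 a.1
    have k5 := key k' k'' b.2 c.1
    have k6 := key k'' k' c.2 b.1
    omega
  refine ⟨Fin n ⊕ (Fin n × Fin n × ℕ), d, ?_, ?_, ?_, ?_, ?_⟩
  · rintro (v | ⟨v, w, k⟩)
    · show Continuous fun g : Fin n → ℝ => max 0 (1 - N * (1 - g v))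
      fun_prop
    · by_cases hc : v < w ∧ 1 ≤ k ∧ k < m + 2
      · have : d (Sum.inr (v, w, k)) = fun g => min (max 0 (1 - |N * g v - k|)) (max 0 (g w)) :=
          funext fun g => if_pos hc
        rw [this]
        fun_prop
      · have : d (Sum.inr (v, w, k)) = fun g => 0 := funext fun g => if_neg hc
        rw [this]
        exact continuous_const
  · rintro (v | ⟨v, w, k⟩) g
    · exact le_max_left _ _
    · by_cases hc : v < w ∧ 1 ≤ k ∧ k < m + 2
      · have : d (Sum.inr (v, w, k)) g = min (max 0 (1 - |N * g v - k|)) (max 0 (g w)) := if_pos hc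
        rw [this]
        exact le_min (le_max_left _ _) (le_max_left _ _)
      · have : d (Sum.inr (v, w, k)) g = 0 := if_neg hc
        rw [this]
  · intro g hg
    by_cases hc : ∃ v, 1 - 1 / N < g v
    · obtain ⟨v, hv⟩ := hc
      refine ⟨Sum.inl v, ?_⟩
      show 0 < max 0 (1 - N * (1 - g v))
      apply lt_max_of_lt_right
      have h1 : 1 - g v < 1 / N := by linarith
      have h2 := mul_lt_mul_of_pos_left h1 hNpos
      rw [mul_one_div_cancel hNpos.ne'] at h2
      linarith
    · push Not at hc
      obtain ⟨h0, h1, a, b, hab⟩ := hg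
      have hsupp : ∀ u, 0 < g u → u = a ∨ u = b := by
        intro u hu
        by_contra hcon
        push Not at hcon
        exact hu.ne' (hab u hcon.1 hcon.2)
      have hne : a ≠ b := by
        rintro rfl
        have : ∑ v, g v = g a := Fintype.sum_eq_single a fun u hu => hab u hu hu
        have h2 := hc a
        have h3 : 0 < 1 / N := by positivity
        linarith
      have hsum : g a + g b = 1 := by
        rw [← h1]
        exact (Fintype.sum_eq_add a b hne fun u hu => hab u hu.1 hu.2).symm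
      have key : ∀ v w : Fin n, v < w → g v + g w = 1 → ∃ k, 0 < d k g := by
        intro v w hvw hs
        have hv := hc v
        have hw := hc w
        have h3 : 0 < 1 / N := by positivity
        have hNv : 1 ≤ N * g v := by
          have : 1 / N ≤ g v := by linarith
          have := mul_le_mul_of_nonneg_left this hNpos.le
          rwa [mul_one_div_cancel hNpos.ne'] at this
        have hNv' : N * g v ≤ N - 1 := by
          have := mul_le_mul_of_nonneg_left hv hNpos.le
          rw [mul_sub, mul_one_div_cancel hNpos.ne'] at this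
          linarith
        have hfl := Nat.floor_le (show 0 ≤ N * g v by linarith)
        have hfl' := Nat.lt_floor_add_one (N * g v)
        have hk1 : 1 ≤ ⌊N * g v⌋₊ := Nat.le_floor (by exact_mod_cast hNv)
        have hk2 : ⌊N * g v⌋₊ < m + 2 := by
          have : (⌊N * g v⌋₊ : ℝ) < (m + 2 : ℕ) := by push_cast; linarith
          exact_mod_cast this
        refine ⟨Sum.inr (v, w, ⌊N * g v⌋₊), ?_⟩
        have hd' : d (Sum.inr (v, w, ⌊N * g v⌋₊)) g =
            min (max 0 (1 - |N * g v - ⌊N * g v⌋₊|)) (max 0 (g w)) := if_pos ⟨hvw, hk1, hk2⟩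
        rw [hd']
        apply lt_min
        · apply lt_max_of_lt_right
          have : |N * g v - ⌊N * g v⌋₊| < 1 := by
            rw [abs_lt]; constructor <;> linarith
          linarith
        · apply lt_max_of_lt_right
          linarith
      rcases lt_or_gt_of_ne hne with h | h
      · exact key a b h hsum
      · exact key b a h (by linarith)
  · rintro g hg (u | ⟨v, w, k⟩) (u' | ⟨v', w', k'⟩) (u'' | ⟨v'', w'', k''⟩) h h' h''
    · left; rw [hll g hg u u' h h']
    · left; rw [hll g hg u u' h h']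
    · right; left; rw [hll g hg u u'' h h'']
    · right; right
      obtain ⟨e1, e2⟩ := hrr g hg _ _ _ _ _ _ h' h''
      have e3 := hlrr g hg _ _ _ _ _ _ _ h h' h''
      rw [e1, e2, e3]
    · right; right; rw [hll g hg u' u'' h' h'']
    · right; left
      obtain ⟨e1, e2⟩ := hrr g hg _ _ _ _ _ _ h h''
      have e3 := hlrr g hg _ _ _ _ _ _ _ h' h h''
      rw [e1, e2, e3]
    · left
      obtain ⟨e1, e2⟩ := hrr g hg _ _ _ _ _ _ h h'
      have e3 := hlrr g hg _ _ _ _ _ _ _ h'' h h'
      rw [e1, e2, e3]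
    · obtain ⟨e1, e2⟩ := hrr g hg _ _ _ _ _ _ h h'
      obtain ⟨f1, f2⟩ := hrr g hg _ _ _ _ _ _ h h''
      rcases hrrr g hg _ _ _ _ _ _ _ _ _ h h' h'' with e | e | e
      · left; rw [e1, e2, e]
      · right; left; rw [f1, f2, e]
      · right; right; rw [← e1, ← e2, ← f1, ← f2, e]
  · rintro (v | ⟨v, w, k⟩) a ha b hb h h'
    · have h1 := hdl v a h
      have h2 := hdl v b h'
      have hle : ∀ (g : Fin n → ℝ), g ∈ SkelOne n → 1 - 1 / N < g v →
          ∀ u, u ≠ v → 0 ≤ g u ∧ g u ≤ 1 / N := by
        intro g hg hv u hu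
        refine ⟨hg.1 u, ?_⟩
        have h3 : g u + g v ≤ ∑ l, g l := by
          rw [← Finset.sum_pair hu]
          exact Finset.sum_le_sum_of_subset_of_nonneg (Finset.subset_univ _) fun l _ _ => hg.1 l
        rw [hg.2.1] at h3
        linarith
      have hv1 : ∀ (g : Fin n → ℝ), g ∈ SkelOne n → g v ≤ 1 := by
        intro g hg
        rw [← hg.2.1]
        exact Finset.single_le_sum (fun k _ => hg.1 k) (Finset.mem_univ v)
      rw [dist_pi_le_iff hε.le]
      intro u
      rw [Real.dist_eq]
      have h12 : 1 / N ≤ 2 / N := div_le_div_of_nonneg_right (by norm_num) hNpos.le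
      by_cases hu : u = v
      · subst hu
        have := hv1 a ha
        have := hv1 b hb
        rw [abs_le]; constructor <;> linarith
      · have := hle a ha h1 u hu
        have := hle b hb h2 u hu
        rw [abs_le]; constructor <;> linarith
    · obtain ⟨a1, a2, a3, a4, a5, a6⟩ := hdr v w k a h
      obtain ⟨b1, b2, b3, b4, b5, b6⟩ := hdr v w k b h'
      obtain ⟨ea, ea'⟩ := SkelOne.add_eq ha a1.ne a6 a5
      obtain ⟨eb, eb'⟩ := SkelOne.add_eq hb a1.ne b6 b5
      have hv : |a v - b v| ≤ 2 / N := by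
        rw [abs_lt] at a4 b4
        rw [le_div_iff₀ hNpos]
        have : |a v - b v| * N = |N * a v - N * b v| := by
          rw [← mul_sub, abs_mul, abs_of_pos hNpos, mul_comm]
        rw [this, abs_le]
        constructor <;> linarith
      rw [dist_pi_le_iff hε.le]
      intro u
      rw [Real.dist_eq]
      by_cases hu : u = v
      · subst hu; linarith
      · by_cases hu' : u = w
        · subst hu'
          have : a u - b u = -(a v - b v) := by linarith
          rw [this, abs_neg]; linarith
        · rw [ea' u hu hu', eb' u hu hu']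
          simpa using hε.le

end Pool.Agent.Work.MP_71c2fc_gt
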