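import Mathlib

set_option autoImplicit false

open Set Filter Topology

namespace Pool.Agent.Work.MP_71c2fc_gt

variable {ι : Type*} [Fintype ι]

/-- The union of the nonnegative axes. -/
def Axes (ι : Type*) : Set (ι → ℝ) := {u | (∀ i, 0 ≤ u i) ∧ ∀ i k, i ≠ k → u i = 0 ∨ u k = 0}

/-- The retraction of the orthant onto the union of the axes. -/
noncomputable def starRetr (u : ι → ℝ) : ι → ℝ := fun i => max 0 (2 * u i - ∑ k, u k)

theorem continuous_starRetr : Continuous (starRetr : (ι → ℝ) → ι → ℝ) := by
  unfold starRetr
  fun_prop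

theorem starRetr_mem {S : Set (ι → ℝ)} (hS : S ⊆ Axes ι) (hc : IsPreconnected S) {u : ι → ℝ}
    (hu : u ∈ convexHull ℝ S) : starRetr u ∈ S := by
  classical
  have hcont : ∀ i, Continuous (fun s : ι → ℝ => s i) := fun i => by fun_prop
  have hord : ∀ i, ((fun s : ι → ℝ => s i) '' S).OrdConnected := fun i =>
    (hc.image _ (hcont i).continuousOn).ordConnected
  have hSne : S.Nonempty := by
    by_contra h
    rw [not_nonempty_iff_eq_empty] at h
    rw [h, convexHull_empty] at hu
    exact hu
  have hu0 : ∀ i, 0 ≤ u i := by
    intro i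
    have h1 : convexHull ℝ S ⊆ {s : ι → ℝ | 0 ≤ s i} := by
      apply convexHull_min
      · intro s hs; exact (hS hs).1 i
      · exact convex_halfSpace_ge (f := fun s : ι → ℝ => s i)
          ⟨fun _ _ => rfl, fun _ _ => rfl⟩ 0
    exact h1 hu
  by_cases hcase : ∃ i, ∀ s ∈ S, 0 < s i
  · obtain ⟨i, hi⟩ := hcase
    have h0 : ∀ s ∈ S, ∀ k, k ≠ i → s k = 0 := by
      intro s hs k hk
      rcases (hS hs).2 k i hk with h | h
      · exact h
      · exact absurd h (hi s hs).ne'
    have hk0 : ∀ k, k ≠ i → u k = 0 := by
      intro k hk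
      have h1 : convexHull ℝ S ⊆ {s : ι → ℝ | s k ≤ 0} := by
        apply convexHull_min
        · intro s hs; exact (h0 s hs k hk).le
        · exact convex_halfSpace_le (f := fun s : ι → ℝ => s k)
            ⟨fun _ _ => rfl, fun _ _ => rfl⟩ 0
      exact le_antisymm (h1 hu) (hu0 k)
    have hui : u i ∈ (fun s : ι → ℝ => s i) '' S := by
      have h1 : convexHull ℝ S ⊆ (fun s : ι → ℝ => s i) ⁻¹' ((fun s : ι → ℝ => s i) '' S) := by
        apply convexHull_min
        · exact subset_preimage_image _ _
        · exact ((hord i).convex).is_linear_preimage ⟨fun _ _ => rfl, fun _ _ => rfl⟩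
      exact h1 hu
    obtain ⟨s, hs, hsi⟩ := hui
    have hsu : s = u := by
      funext k
      by_cases hk : k = i
      · subst hk; exact hsi
      · rw [h0 s hs k hk, hk0 k hk]
    have hsum : ∑ k, u k = u i := Finset.sum_eq_single i (fun k _ hk => hk0 k hk)
      (fun h => absurd (Finset.mem_univ i) h)
    have : starRetr u = u := by
      funext k
      show max 0 (2 * u k - ∑ k, u k) = u k
      rw [hsum]
      by_cases hk : k = i
      · subst hk
        rw [max_eq_right] <;> linarith [hu0 k]
      · rw [hk0 k hk, max_eq_left]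
        linarith [hu0 i]
    rw [this, ← hsu]
    exact hs
  · push Not at hcase
    have h0S : (0 : ι → ℝ) ∈ S := by
      by_contra hnot
      have hex : ∀ s ∈ S, ∃ i, 0 < s i := by
        intro s hs
        by_contra h
        push Not at h
        apply hnot
        have : s = 0 := funext fun i => le_antisymm (h i) ((hS hs).1 i)
        rwa [← this]
      obtain ⟨s0, hs0⟩ := hSne
      obtain ⟨i0, hi0⟩ := hex s0 hs0
      obtain ⟨s1, hs1, hs1i⟩ := hcase i0
      obtain ⟨i1, hi1⟩ := hex s1 hs1
      have hne : i1 ≠ i0 := by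
        rintro rfl
        linarith
      obtain ⟨s, hs, h1, h2⟩ := hc {s | 0 < s i0} (⋃ k ∈ {k | k ≠ i0}, {s | 0 < s k})
        (isOpen_lt continuous_const (hcont i0))
        (isOpen_biUnion fun k _ => isOpen_lt continuous_const (hcont k)) (by
          intro s hs
          obtain ⟨k, hk⟩ := hex s hs
          by_cases hki : k = i0
          · left; rw [← hki]; exact hk
          · right; exact mem_biUnion (show k ∈ {k | k ≠ i0} from hki) hk)
        ⟨s0, hs0, hi0⟩ ⟨s1, hs1, mem_biUnion (show i1 ∈ {k | k ≠ i0} from hne) hi1⟩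
      obtain ⟨k, hk, hks⟩ := mem_iUnion₂.1 h2
      rcases (hS hs).2 k i0 hk with h | h
      · exact absurd h (show 0 < s k from hks).ne'
      · exact absurd h (show 0 < s i0 from h1).ne'
    by_cases hz : ∀ i, 2 * u i - ∑ k, u k ≤ 0
    · have : starRetr u = 0 := funext fun i => max_eq_left (hz i)
      rw [this]; exact h0S
    · push Not at hz
      obtain ⟨i, hi⟩ := hz
      have hsum1 : u i ≤ ∑ k, u k := Finset.single_le_sum (fun k _ => hu0 k) (Finset.mem_univ i)
      have hvi : starRetr u i = 2 * u i - ∑ k, u k := max_eq_right hi.le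
      have hvk : ∀ k, k ≠ i → starRetr u k = 0 := by
        intro k hk
        apply max_eq_left
        have h2 : u k + u i ≤ ∑ l, u l := by
          rw [← Finset.sum_pair hk]
          exact Finset.sum_le_sum_of_subset_of_nonneg (Finset.subset_univ _) fun l _ _ => hu0 l
        linarith
      have hex : ∃ s ∈ S, u i ≤ s i := by
        by_contra h
        push Not at h
        have h1 : convexHull ℝ S ⊆ {s : ι → ℝ | s i < u i} := by
          apply convexHull_min
          · intro s hs; exact h s hs
          · exact convex_halfSpace_lt (f := fun s : ι → ℝ => s i)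
              ⟨fun _ _ => rfl, fun _ _ => rfl⟩ (u i)
        exact lt_irrefl (u i) (show u i < u i from h1 hu)
      obtain ⟨s', hs', hle⟩ := hex
      have hmem : starRetr u i ∈ (fun s : ι → ℝ => s i) '' S := by
        refine (hord i).out ⟨0, h0S, rfl⟩ ⟨s', hs', rfl⟩ ⟨?_, ?_⟩
        · exact le_max_left _ _
        · rw [hvi]
          show _ ≤ s' i
          linarith
      obtain ⟨s, hs, hsi⟩ := hmem
      have hpos : 0 < s i := by
        have : s i = starRetr u i := hsi
        rw [this, hvi]; exact hi
      have : s = starRetr u := by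
        funext k
        by_cases hk : k = i
        · subst hk; exact hsi
        · rw [hvk k hk]
          rcases (hS hs).2 k i hk with h | h
          · exact h
          · exact absurd h hpos.ne'
      rw [← this]
      exact hs

end Pool.Agent.Work.MP_71c2fc_gt
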