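import Pool.Agent.Work.MP_71c2fc_gt.Mixing
import Pool.Agent.Work.MP_71c2fc_gt.Star
import Pool.Agent.Work.MP_71c2fc_gt.Graph

set_option autoImplicit false

open Set Filter Topology
open scoped unitInterval

universe u v w

namespace Pool.Agent.Work.MP_71c2fc_gt

/-- The inverse of a continuous injection on a compact set is continuous on the image. -/
theorem continuousOn_invFunOn {T Y : Type*} [TopologicalSpace T] [TopologicalSpace Y] [T2Space Y]
    [Nonempty T] {K : Set T} (hK : IsCompact K) {φ : T → Y} (hφ : ContinuousOn φ K)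
    (hinj : InjOn φ K) : ContinuousOn (Function.invFunOn φ K) (φ '' K) := by
  have : CompactSpace K := isCompact_iff_compactSpace.1 hK
  let ψ : K → Y := K.domRestrict φ
  have hψ : Continuous ψ := continuousOn_iff_continuous_domRestrict.1 hφ
  have hψi : Function.Injective ψ := injOn_iff_injective.1 hinj
  have hemb := (hψ.isClosedEmbedding hψi).isInducing
  have hr : range ψ = φ '' K := range_domRestrict φ K
  rintro _ ⟨a, ha, rfl⟩
  have h1 : 𝓝[φ '' K] (φ a) = map ψ (𝓝 ⟨a, ha⟩) := by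
    rw [hemb.map_nhds_eq, hr]
    rfl
  have hl := hinj.leftInvOn_invFunOn
  rw [ContinuousWithinAt, h1, hl ha, tendsto_map'_iff]
  have h2 : (Function.invFunOn φ K) ∘ ψ = fun x : K => (x : T) := by
    funext x
    exact hl x.2
  rw [h2]
  exact continuous_subtype_val.tendsto (⟨a, ha⟩ : K)

/-- The two-dimensional skeleton of a simplex. -/
def SkelTwo (n : ℕ) : Set (Fin n → ℝ) :=
  {g | (∀ v, 0 ≤ g v) ∧ ∑ v, g v = 1 ∧ (Finset.univ.filter fun v => g v ≠ 0).card ≤ 3}

/-- A set which can be embedded in a finite two-dimensional simplicial complex such that it misses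
a point of the interior of every triangle. -/
def PuncturedAux {T : Type w} [TopologicalSpace T] (K : Set T) : Prop :=
  ∃ (n : ℕ) (φ : T → Fin n → ℝ), ContinuousOn φ K ∧ InjOn φ K ∧ (∀ a ∈ K, φ a ∈ SkelTwo n) ∧
    ∀ τ : Finset (Fin n), τ.card = 3 → ∃ p : Fin n → ℝ, (∀ v, 0 ≤ p v) ∧ ∑ v, p v = 1 ∧
      (∀ v, p v ≠ 0 ↔ v ∈ τ) ∧ p ∉ φ '' K

section

variable {n : ℕ}

/-- Triangles. -/
abbrev Tri (n : ℕ) : Type := {τ : Finset (Fin n) // τ.card = 3}

theorem Tri.nonempty (τ : Tri n) : τ.1.Nonempty := Finset.card_pos.1 (by rw [τ.2]; norm_num)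

/-- The height over the boundary of a triangle. -/
noncomputable def hgt (p : Tri n → Fin n → ℝ) (a : Fin n → ℝ) (τ : Tri n) : ℝ :=
  τ.1.inf' τ.nonempty (fun v => a v / p τ v)

/-- The sum of the heights. -/
noncomputable def hgtSum (p : Tri n → Fin n → ℝ) (a : Fin n → ℝ) : ℝ := ∑ τ, hgt p a τ

/-- The radial retraction. -/
noncomputable def rad (p : Tri n → Fin n → ℝ) (a : Fin n → ℝ) : Fin n → ℝ :=
  (1 - hgtSum p a)⁻¹ • (a - ∑ τ, hgt p a τ • p τ)

theorem continuous_hgt (p : Tri n → Fin n → ℝ) (τ : Tri n) :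
    Continuous (fun a => hgt p a τ) := by
  unfold hgt
  refine Continuous.finset_inf'_apply _ ?_
  intro v _
  fun_prop

variable {p : Tri n → Fin n → ℝ} (hp0 : ∀ τ v, 0 ≤ p τ v) (hp1 : ∀ τ, ∑ v, p τ v = 1)
  (hpτ : ∀ τ v, p τ v ≠ 0 ↔ v ∈ τ.1)

include hp0 hpτ

omit hpτ in
theorem hgt_nonneg {a : Fin n → ℝ} (ha : a ∈ SkelTwo n) (τ : Tri n) : 0 ≤ hgt p a τ := by
  unfold hgt
  rw [Finset.le_inf'_iff]
  intro v _
  exact div_nonneg (ha.1 v) (hp0 τ v)

theorem hgt_mul_le {a : Fin n → ℝ} (ha : a ∈ SkelTwo n) (τ : Tri n) (v : Fin n) :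
    hgt p a τ * p τ v ≤ a v := by
  by_cases hv : v ∈ τ.1
  · have h1 : hgt p a τ ≤ a v / p τ v := Finset.inf'_le _ hv
    have h2 : 0 < p τ v := lt_of_le_of_ne (hp0 τ v) ((hpτ τ v).2 hv).symm
    rwa [le_div_iff₀ h2] at h1
  · have : p τ v = 0 := by
      by_contra h
      exact hv ((hpτ τ v).1 h)
    rw [this, mul_zero]
    exact ha.1 v

theorem pos_of_hgt_pos {a : Fin n → ℝ} (ha : a ∈ SkelTwo n) {τ : Tri n} (h : 0 < hgt p a τ) :
    (Finset.univ.filter fun v => a v ≠ 0) = τ.1 := by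
  symm
  apply Finset.eq_of_subset_of_card_le
  · intro v hv
    rw [Finset.mem_filter]
    refine ⟨Finset.mem_univ v, ?_⟩
    have h2 : 0 < p τ v := lt_of_le_of_ne (hp0 τ v) ((hpτ τ v).2 hv).symm
    have := hgt_mul_le hp0 hpτ ha τ v
    have h3 : 0 < hgt p a τ * p τ v := mul_pos h h2
    linarith
  · rw [τ.2]; exact ha.2.2

theorem hgt_unique {a : Fin n → ℝ} (ha : a ∈ SkelTwo n) {τ τ' : Tri n} (h : 0 < hgt p a τ)
    (h' : 0 < hgt p a τ') : τ = τ' :=
  Subtype.ext ((pos_of_hgt_pos hp0 hpτ ha h).symm.trans (pos_of_hgt_pos hp0 hpτ ha h'))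

theorem hgt_mem_axes {a : Fin n → ℝ} (ha : a ∈ SkelTwo n) : hgt p a ∈ Axes (Tri n) := by
  refine ⟨hgt_nonneg hp0 ha, ?_⟩
  intro τ τ' hne
  by_contra hcon
  push Not at hcon
  apply hne
  exact hgt_unique hp0 hpτ ha (lt_of_le_of_ne (hgt_nonneg hp0 ha τ) hcon.1.symm)
    (lt_of_le_of_ne (hgt_nonneg hp0 ha τ') hcon.2.symm)

theorem sum_hgt_eq {a : Fin n → ℝ} (ha : a ∈ SkelTwo n) {τ : Tri n} (h : 0 < hgt p a τ)
    {F : Type*} [AddCommGroup F] [Module ℝ F] (f : Tri n → F) :
    ∑ τ', hgt p a τ' • f τ' = hgt p a τ • f τ := by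
  refine Finset.sum_eq_single τ ?_ (fun h => absurd (Finset.mem_univ τ) h)
  intro τ' _ hne
  rcases (hgt_mem_axes hp0 hpτ ha).2 τ' τ hne with h' | h'
  · rw [h', zero_smul]
  · exact absurd h' h.ne'

theorem sum_hgt_eq_zero {a : Fin n → ℝ} (ha : a ∈ SkelTwo n) (h : ¬ ∃ τ, 0 < hgt p a τ)
    {F : Type*} [AddCommGroup F] [Module ℝ F] (f : Tri n → F) :
    ∑ τ', hgt p a τ' • f τ' = 0 := by
  apply Finset.sum_eq_zero
  intro τ _
  have : hgt p a τ = 0 := le_antisymm (not_lt.1 fun h' => h ⟨τ, h'⟩) (hgt_nonneg hp0 ha τ)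
  rw [this, zero_smul]

include hp1

theorem hgtSum_lt {a : Fin n → ℝ} (ha : a ∈ SkelTwo n) (hne : ∀ τ, a ≠ p τ) :
    hgtSum p a < 1 := by
  by_cases h : ∃ τ, 0 < hgt p a τ
  · obtain ⟨τ, hτ⟩ := h
    have h1 := sum_hgt_eq hp0 hpτ ha hτ (fun _ => (1 : ℝ))
    simp only [smul_eq_mul, mul_one] at h1
    unfold hgtSum
    rw [h1]
    by_contra hcon
    push Not at hcon
    apply hne τ
    have hle : ∀ v, p τ v ≤ a v := by
      intro v
      have h2 := hgt_mul_le hp0 hpτ ha τ v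
      nlinarith [hp0 τ v]
    have hsum : ∑ v, (a v - p τ v) = 0 := by
      rw [Finset.sum_sub_distrib, ha.2.1, hp1, sub_self]
    rw [Finset.sum_eq_zero_iff_of_nonneg (fun v _ => sub_nonneg.2 (hle v))] at hsum
    funext v
    linarith [hsum v (Finset.mem_univ v)]
  · have h1 := sum_hgt_eq_zero hp0 hpτ ha h (fun _ => (1 : ℝ))
    simp only [smul_eq_mul, mul_one] at h1
    unfold hgtSum
    rw [h1]
    exact zero_lt_one

theorem rad_mem {a : Fin n → ℝ} (ha : a ∈ SkelTwo n) (hne : ∀ τ, a ≠ p τ) :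
    rad p a ∈ SkelOne n := by
  have hlt := hgtSum_lt hp0 hp1 hpτ ha hne
  have hpos : 0 < 1 - hgtSum p a := by linarith
  have hval : ∀ v, rad p a v = (1 - hgtSum p a)⁻¹ * (a v - ∑ τ, hgt p a τ * p τ v) := by
    intro v
    unfold rad
    simp only [Pi.smul_apply, Pi.sub_apply, Finset.sum_apply, smul_eq_mul]
  have hle : ∀ v, ∑ τ, hgt p a τ * p τ v ≤ a v := by
    intro v
    by_cases h : ∃ τ, 0 < hgt p a τ
    · obtain ⟨τ, hτ⟩ := h
      have h1 := sum_hgt_eq hp0 hpτ ha hτ (fun τ => p τ v)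
      simp only [smul_eq_mul] at h1
      rw [h1]
      exact hgt_mul_le hp0 hpτ ha τ v
    · have h1 := sum_hgt_eq_zero hp0 hpτ ha h (fun τ => p τ v)
      simp only [smul_eq_mul] at h1
      rw [h1]
      exact ha.1 v
  have hnn : ∀ v, 0 ≤ rad p a v := by
    intro v
    rw [hval]
    exact mul_nonneg (inv_nonneg.2 hpos.le) (sub_nonneg.2 (hle v))
  have hsum : ∑ v, rad p a v = 1 := by
    simp only [hval]
    rw [← Finset.mul_sum, Finset.sum_sub_distrib, ha.2.1, Finset.sum_comm]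
    have : ∑ τ, ∑ v, hgt p a τ * p τ v = hgtSum p a := by
      unfold hgtSum
      refine Finset.sum_congr rfl ?_
      intro τ _
      rw [← Finset.mul_sum, hp1, mul_one]
    rw [this]
    exact inv_mul_cancel₀ hpos.ne'
  refine ⟨hnn, hsum, ?_⟩
  -- at most two vertices
  have hcard : ∃ s : Finset (Fin n), s.card ≤ 2 ∧ ∀ u, u ∉ s → rad p a u = 0 := by
    by_cases h : ∃ τ, 0 < hgt p a τ
    · obtain ⟨τ, hτ⟩ := h
      have hsupp := pos_of_hgt_pos hp0 hpτ ha hτ
      obtain ⟨v₀, hv₀, hmin⟩ := Finset.exists_mem_eq_inf' τ.nonempty (fun v => a v / p τ v)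
      have hzero : ∀ v, a v - hgt p a τ * p τ v = 0 → rad p a v = 0 := by
        intro v hv
        have h1 := sum_hgt_eq hp0 hpτ ha hτ (fun τ => p τ v)
        simp only [smul_eq_mul] at h1
        rw [hval, h1, hv, mul_zero]
      refine ⟨τ.1.erase v₀, ?_, ?_⟩
      · rw [Finset.card_erase_of_mem hv₀, τ.2]
      · intro u hu
        apply hzero
        by_cases huv : u = v₀
        · subst huv
          have h2 : hgt p a τ = a u / p τ u := hmin
          rw [h2, div_mul_cancel₀ _ ((hpτ τ u).2 hv₀), sub_self]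
        · have hu' : u ∉ τ.1 := fun h => hu (Finset.mem_erase.2 ⟨huv, h⟩)
          have h3 : a u = 0 := by
            by_contra h
            apply hu'
            rw [← hsupp, Finset.mem_filter]
            exact ⟨Finset.mem_univ u, h⟩
          have h4 : p τ u = 0 := by
            by_contra h
            exact hu' ((hpτ τ u).1 h)
          rw [h3, h4, mul_zero, sub_self]
    · have hzero : ∀ v, a v = 0 → rad p a v = 0 := by
        intro v hv
        have h1 := sum_hgt_eq_zero hp0 hpτ ha h (fun τ => p τ v)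
        simp only [smul_eq_mul] at h1
        rw [hval, h1, hv, sub_self, mul_zero]
      refine ⟨Finset.univ.filter fun v => a v ≠ 0, ?_, ?_⟩
      · by_contra hcon
        push Not at hcon
        have hc3 : (Finset.univ.filter fun v => a v ≠ 0).card = 3 :=
          le_antisymm ha.2.2 hcon
        apply h
        refine ⟨⟨_, hc3⟩, ?_⟩
        unfold hgt
        rw [Finset.lt_inf'_iff]
        intro v hv
        have hv' : v ∈ (Finset.univ.filter fun v => a v ≠ 0) := hv
        have hav := (Finset.mem_filter.1 hv').2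
        exact div_pos (lt_of_le_of_ne (ha.1 v) hav.symm)
          (lt_of_le_of_ne (hp0 _ v) ((hpτ _ v).2 hv').symm)
      · intro u hu
        apply hzero
        by_contra h
        exact hu (Finset.mem_filter.2 ⟨Finset.mem_univ u, h⟩)
  obtain ⟨s, hs, hs0⟩ := hcard
  have hne' : ∃ v₁, rad p a v₁ ≠ 0 := by
    by_contra h
    push Not at h
    rw [Finset.sum_eq_zero (fun v _ => h v)] at hsum
    exact zero_ne_one hsum
  obtain ⟨v₁, hv₁⟩ := hne'
  have hv₁s : v₁ ∈ s := by
    by_contra h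
    exact hv₁ (hs0 v₁ h)
  have hc1 : (s.erase v₁).card ≤ 1 := by
    rw [Finset.card_erase_of_mem hv₁s]
    omega
  have : Nonempty (Fin n) := ⟨v₁⟩
  rcases Finset.card_le_one_iff_subset_singleton.1 hc1 with ⟨v₂, hv₂⟩
  refine ⟨v₁, v₂, ?_⟩
  intro u hu1 hu2
  apply hs0
  intro hus
  have := hv₂ (Finset.mem_erase.2 ⟨hu1, hus⟩)
  exact hu2 (Finset.mem_singleton.1 this)

theorem rad_recon {a : Fin n → ℝ} (ha : a ∈ SkelTwo n) (hne : ∀ τ, a ≠ p τ) :
    rad p a + ∑ τ, hgt p a τ • (p τ - rad p a) = a := by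
  have hlt := hgtSum_lt hp0 hp1 hpτ ha hne
  have hpos : 0 < 1 - hgtSum p a := by linarith
  have h1 : ∑ τ, hgt p a τ • (p τ - rad p a) =
      ∑ τ, hgt p a τ • p τ - hgtSum p a • rad p a := by
    simp only [smul_sub]
    rw [Finset.sum_sub_distrib, ← Finset.sum_smul]
    rfl
  rw [h1]
  have h2 : (1 - hgtSum p a) • rad p a = a - ∑ τ, hgt p a τ • p τ := by
    unfold rad
    rw [smul_smul, mul_inv_cancel₀ hpos.ne', one_smul]
  rw [sub_smul, one_smul] at h2
  calc rad p a + (∑ τ, hgt p a τ • p τ - hgtSum p a • rad p a)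
      = (rad p a - hgtSum p a • rad p a) + ∑ τ, hgt p a τ • p τ := by abel
    _ = a := by rw [h2]; abel

theorem continuousOn_rad {T : Type*} [TopologicalSpace T] {K : Set T} {φ : T → Fin n → ℝ}
    (hφ : ContinuousOn φ K) (hK : ∀ a ∈ K, φ a ∈ SkelTwo n) (hne : ∀ a ∈ K, ∀ τ, φ a ≠ p τ) :
    ContinuousOn (fun a => rad p (φ a)) K := by
  have hh : ∀ τ, ContinuousOn (fun a => hgt p (φ a) τ) K := fun τ =>
    (continuous_hgt p τ).comp_continuousOn hφ
  have hsumc : ContinuousOn (fun a => ∑ τ, hgt p (φ a) τ) K :=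
    continuousOn_finsetSum _ fun τ _ => hh τ
  have h1 : ContinuousOn (fun a => 1 - ∑ τ, hgt p (φ a) τ) K := continuousOn_const.sub hsumc
  have h2 : ContinuousOn (fun a => (1 - ∑ τ, hgt p (φ a) τ)⁻¹) K := by
    refine h1.inv₀ ?_
    intro a ha
    have := hgtSum_lt hp0 hp1 hpτ (hK a ha) (hne a ha)
    unfold hgtSum at this
    linarith
  have h3 : ContinuousOn (fun a => ∑ τ, hgt p (φ a) τ • p τ) K :=
    continuousOn_finsetSum _ fun τ _ => (hh τ).smul continuousOn_const
  exact h2.smul (hφ.sub h3)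

end

/-- A compact set which embeds in a finite two-dimensional complex missing a point of the interior
of each triangle is fibred. -/
theorem fibred_of_punctured {T : Type w} [TopologicalSpace T] [Nonempty T] {K : Set T}
    (hK : IsCompact K) (h : PuncturedAux K) : FibredAux.{0, 0, w} K := by
  classical
  obtain ⟨n, φ, hφ, hinj, hsk, hpt⟩ := h
  choose p hp0 hp1 hpτ hpK using fun τ : Tri n => hpt τ.1 τ.2
  have hne : ∀ a ∈ K, ∀ τ, φ a ≠ p τ := fun a ha τ h => hpK τ ⟨a, ha, h⟩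
  let β : (Fin n → ℝ) × (Tri n → ℝ) → Fin n → ℝ := fun e =>
    e.1 + ∑ τ, starRetr e.2 τ • (p τ - e.1)
  have hβ : Continuous β := by
    have h1 : ∀ τ, Continuous fun e : (Fin n → ℝ) × (Tri n → ℝ) => starRetr e.2 τ := fun τ =>
      (continuous_apply τ).comp (continuous_starRetr.comp continuous_snd)
    exact continuous_fst.add (continuous_finsetSum _ fun τ _ =>
      (h1 τ).smul (continuous_const.sub continuous_fst))
  let j : T → (Fin n → ℝ) × (Tri n → ℝ) := fun a => (rad p (φ a), hgt p (φ a))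
  have hrad : ContinuousOn (fun a => rad p (φ a)) K :=
    continuousOn_rad hp0 hp1 hpτ hφ hsk hne
  have hhgt : ContinuousOn (fun a => hgt p (φ a)) K := by
    rw [continuousOn_pi]
    intro τ
    exact (continuous_hgt p τ).comp_continuousOn hφ
  have hj : ContinuousOn j K := hrad.prodMk hhgt
  have hkey : ∀ e ∈ Hulls j (fun a => rad p (φ a)) K, β e ∈ φ '' K := by
    rintro e ⟨C, hCK, hCc, hCh, he⟩
    have hCne : C.Nonempty := by
      by_contra h
      rw [not_nonempty_iff_eq_empty] at h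
      rw [h, image_empty, convexHull_empty] at he
      exact he
    obtain ⟨b, hb⟩ := hCne
    have hsub : j '' C ⊆ {rad p (φ b)} ×ˢ ((fun a => hgt p (φ a)) '' C) := by
      rintro _ ⟨a, ha, rfl⟩
      exact ⟨hCh a ha b hb, ⟨a, ha, rfl⟩⟩
    have he2 := convexHull_mono hsub he
    rw [convexHull_prod, convexHull_singleton] at he2
    obtain ⟨h1, h2⟩ := he2
    have hS : (fun a => hgt p (φ a)) '' C ⊆ Axes (Tri n) := by
      rintro _ ⟨a, ha, rfl⟩
      exact hgt_mem_axes hp0 hpτ (hsk a (hCK ha))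
    obtain ⟨a, ha, hau⟩ := starRetr_mem hS (hCc.image _ (hhgt.mono hCK)) h2
    refine ⟨a, hCK ha, ?_⟩
    have h3 : e.1 = rad p (φ a) := by
      rw [mem_singleton_iff.1 h1]
      exact hCh b hb a ha
    have hau' : hgt p (φ a) = starRetr e.2 := hau
    show φ a = e.1 + ∑ τ, starRetr e.2 τ • (p τ - e.1)
    rw [h3, ← hau']
    exact (rad_recon hp0 hp1 hpτ (hsk a (hCK ha)) (hne a (hCK ha))).symm
  refine ⟨(Fin n → ℝ) × (Tri n → ℝ), inferInstance, inferInstance, j,
    fun e => Function.invFunOn φ K (β e), Fin n → ℝ, inferInstance, fun a => rad p (φ a), hj, hrad,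
    ?_, ?_, ?_⟩
  · refine (thinCover_skelOne n).mono ?_
    rintro _ ⟨a, ha, rfl⟩
    exact rad_mem hp0 hp1 hpτ (hsk a ha) (hne a ha)
  · intro a ha
    show Function.invFunOn φ K (β (j a)) = a
    have h1 : β (j a) = φ a := by
      show rad p (φ a) + ∑ τ, starRetr (hgt p (φ a)) τ • (p τ - rad p (φ a)) = φ a
      have h2 : starRetr (hgt p (φ a)) = hgt p (φ a) := by
        have h3 := starRetr_mem (S := {hgt p (φ a)})
          (singleton_subset_iff.2 (hgt_mem_axes hp0 hpτ (hsk a ha))) isPreconnected_singleton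
          (subset_convexHull ℝ _ (mem_singleton (hgt p (φ a))))
        exact mem_singleton_iff.1 h3
      rw [h2]
      exact rad_recon hp0 hp1 hpτ (hsk a ha) (hne a ha)
    rw [h1]
    exact hinj.leftInvOn_invFunOn ha
  · exact (continuousOn_invFunOn hK hφ hinj).comp hβ.continuousOn hkey

end Pool.Agent.Work.MP_71c2fc_gt
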