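import Pool.Agent.Work.MP_71c2fc_gt.Moments

set_option autoImplicit false

open Set

namespace Pool.Agent.Work.MP_71c2fc_gt

/-- A closed walk in a graph all of whose edges are bridges has an ear. -/
theorem exists_ear {N : Type*} (R : N → N → Prop) (hrefl : ∀ A, R A A)
    (hbr : ∀ A B, R A B → A ≠ B → ∃ w : N → ℝ, w B = w A + 1 ∧
      ∀ C D, R C D → ¬ (C = A ∧ D = B) → ¬ (C = B ∧ D = A) → w C = w D) :
    ∀ (n : ℕ) (y : ℕ → N), (∀ i < n, R (y i) (y (i + 1))) → y 0 = y n → 2 ≤ n →
      ∃ i, i + 2 ≤ n ∧ R (y i) (y (i + 2)) := by
  intro n
  induction n using Nat.strong_induction_on with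
  | _ n ih =>
    intro y hy h0 hn
    by_cases h01 : y 0 = y 1
    · refine ⟨0, by omega, ?_⟩
      rw [h01]
      exact hy 1 (by omega)
    · obtain ⟨w, hw1, hw2⟩ := hbr (y 0) (y 1) (hy 0 (by omega)) h01
      -- the edge is crossed back
      have hback : ∃ j, 1 ≤ j ∧ j < n ∧ y j = y 1 ∧ y (j + 1) = y 0 := by
        by_contra hcon
        push Not at hcon
        have hmono : ∀ j, 1 ≤ j → j ≤ n → w (y 0) + 1 ≤ w (y j) := by
          intro j hj
          induction j, hj using Nat.le_induction with
          | base => intro _; exact hw1.ge
          | succ j hj ihj =>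
            intro hjn
            have h1 := ihj (by omega)
            by_cases hAB : y j = y 0 ∧ y (j + 1) = y 1
            · rw [hAB.2]; exact hw1.ge
            · have h2 : ¬ (y j = y 1 ∧ y (j + 1) = y 0) := fun h => hcon j hj (by omega) h.1 h.2
              rw [← hw2 (y j) (y (j + 1)) (hy j (by omega)) hAB h2]
              exact h1
        have := hmono n (by omega) le_rfl
        rw [← h0] at this
        linarith
      obtain ⟨j, hj1, hjn, hj2, hj3⟩ := hback
      rcases Nat.lt_or_ge j 2 with hj | hj
      · have hj' : j = 1 := by omega
        subst hj'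
        refine ⟨0, by omega, ?_⟩
        have : y (0 + 2) = y 0 := hj3
        rw [this]
        exact hrefl _
      · rcases Nat.lt_or_ge j 3 with hj' | hj'
        · have hj'' : j = 2 := by omega
          subst hj''
          refine ⟨0, by omega, ?_⟩
          have : y (0 + 2) = y 1 := hj2
          rw [this]
          exact hy 0 (by omega)
        · obtain ⟨i, hi1, hi2⟩ := ih (j - 1) (by omega) (fun k => y (k + 1))
            (fun i hi => hy (i + 1) (by omega))
            (by
              show y 1 = y (j - 1 + 1)
              rw [Nat.sub_add_cancel hj1, hj2]) (by omega)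
          exact ⟨i + 1, by omega, hi2⟩

/-- The order embedding of the naturals skipping `i`. -/
def skip (i j : ℕ) : ℕ := if j < i then j else j + 1

theorem skip_ne (i j : ℕ) : skip i j ≠ i := by
  unfold skip; split_ifs <;> omega

theorem skip_le (i j n : ℕ) (h : j ≤ n) : skip i j ≤ n + 1 := by
  unfold skip; split_ifs <;> omega

/-- Ear cutting: a closed walk in a graph with the ear property gives a triangulation of the
polygon with vertices `(s i, s i ^ 2)`. -/
theorem exists_triangulation {N : Type*} (R : N → N → Prop) (hrefl : ∀ A, R A A)
    (hsymm : ∀ A B, R A B → R B A)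
    (hear : ∀ (n : ℕ) (y : ℕ → N), (∀ i < n, R (y i) (y (i + 1))) → y 0 = y n → 2 ≤ n →
      ∃ i, i + 2 ≤ n ∧ R (y i) (y (i + 2))) :
    ∀ (n : ℕ) (s : ℕ → ℝ) (y : ℕ → N), 1 ≤ n → (∀ i < n, s i < s (i + 1)) →
      (∀ i < n, R (y i) (y (i + 1))) → y 0 = y n →
      ∃ T : Set (Fin 3 → ℝ),
        (∀ τ ∈ T, ∃ idx : Fin 3 → ℕ, (∀ i, idx i ≤ n ∧ τ i = s (idx i)) ∧
          ∀ i j, R (y (idx i)) (y (idx j))) ∧
        (∀ x v : ℝ, x ^ 2 ≤ v → (∀ j < n, 0 ≤ v - (s j + s (j + 1)) * x + s j * s (j + 1)) →
          v - (s 0 + s n) * x + s 0 * s n ≤ 0 →
          ∃ τ ∈ T, ∃ w : Fin 3 → ℝ, (∀ i, 0 ≤ w i) ∧ ∑ i, w i = 1 ∧ ∑ i, w i * τ i = x ∧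
            ∑ i, w i * τ i ^ 2 = v) ∧
        (∀ τ ∈ T, ∀ τ' ∈ T, NonCross τ τ') := by
  intro n
  induction n with
  | zero => intro s y h; omega
  | succ n ih =>
    intro s y hn hs hy h0
    rcases Nat.eq_zero_or_pos n with hn0 | hnpos
    · -- two points only
      subst hn0
      have hs01 : s 0 < s 1 := hs 0 (by omega)
      refine ⟨{![s 0, s 1, s 1]}, ?_, ?_, ?_⟩
      · rintro τ rfl
        refine ⟨![0, 1, 1], ?_, ?_⟩
        · intro i
          fin_cases i <;> simp
        · have h01 : R (y 0) (y 1) := hy 0 (by omega)
          intro i j
          fin_cases i <;> fin_cases j <;> simp <;>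
            first
              | exact hrefl _
              | exact h01
              | exact hsymm _ _ h01
      · intro x v hxv h1 h2
        have h1' := h1 0 (by omega)
        simp only [Nat.zero_add] at h1' h2
        have hv : v = (s 0 + s 1) * x - s 0 * s 1 := by linarith
        have hx : (x - s 0) * (x - s 1) ≤ 0 := by nlinarith
        have hx0 : s 0 ≤ x := by
          by_contra hlt
          push Not at hlt
          have := mul_pos_of_neg_of_neg (sub_neg.2 hlt) (sub_neg.2 (hlt.trans hs01))
          linarith
        have hx1 : x ≤ s 1 := by
          by_contra hlt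
          push Not at hlt
          have := mul_pos (sub_pos.2 (hs01.trans hlt)) (sub_pos.2 hlt)
          linarith
        have hd : 0 < s 1 - s 0 := sub_pos.2 hs01
        have hd' : s 1 - s 0 ≠ 0 := hd.ne'
        refine ⟨_, rfl, ![(s 1 - x) / (s 1 - s 0), (x - s 0) / (s 1 - s 0), 0], ?_, ?_, ?_, ?_⟩
        · intro i
          fin_cases i
          · exact div_nonneg (by linarith) hd.le
          · exact div_nonneg (by linarith) hd.le
          · exact le_rfl
        · simp [Fin.sum_univ_three]
          field_simp
          ring
        · simp [Fin.sum_univ_three]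
          field_simp
          ring
        · simp [Fin.sum_univ_three]
          rw [hv]
          field_simp
          ring
      · rintro τ rfl τ' rfl
        exact NonCross.self _
    · -- cut an ear
      obtain ⟨i, hi1, hi2⟩ := hear (n + 1) y hy h0 (by omega)
      -- strict monotonicity
      have hmono : ∀ a b, a < b → b ≤ n + 1 → s a < s b := by
        intro a b hab
        induction b, hab using Nat.le_induction with
        | base => intro hb; exact hs a (by omega)
        | succ b hb ihb => intro hb'; exact (ihb (by omega)).trans (hs b (by omega))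
      have hmono' : ∀ a b, a ≤ b → b ≤ n + 1 → s a ≤ s b := by
        intro a b hab hb
        rcases Nat.eq_or_lt_of_le hab with h | h
        · rw [h]
        · exact (hmono a b h hb).le
      set p := s i with hp
      set q := s (i + 1) with hq
      set r := s (i + 2) with hr
      have hpq : p < q := hs i (by omega)
      have hqr : q < r := hs (i + 1) (by omega)
      let s' : ℕ → ℝ := fun j => s (skip (i + 1) j)
      let y' : ℕ → N := fun j => y (skip (i + 1) j)
      have hs' : ∀ j < n, s' j < s' (j + 1) := by
        intro j hj
        apply hmono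
        · unfold skip; split_ifs <;> omega
        · unfold skip; split_ifs <;> omega
      have hskip0 : skip (i + 1) 0 = 0 := by unfold skip; split_ifs <;> omega
      have hskipn : skip (i + 1) n = n + 1 := by unfold skip; split_ifs <;> omega
      have hy' : ∀ j < n, R (y' j) (y' (j + 1)) := by
        intro j hj
        rcases lt_trichotomy j i with h | h | h
        · have e1 : skip (i + 1) j = j := by unfold skip; split_ifs <;> omega
          have e2 : skip (i + 1) (j + 1) = j + 1 := by unfold skip; split_ifs <;> omega
          show R (y (skip (i + 1) j)) (y (skip (i + 1) (j + 1)))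
          rw [e1, e2]
          exact hy j (by omega)
        · subst h
          have e1 : skip (j + 1) j = j := by unfold skip; split_ifs <;> omega
          have e2 : skip (j + 1) (j + 1) = j + 2 := by unfold skip; split_ifs <;> omega
          show R (y (skip (j + 1) j)) (y (skip (j + 1) (j + 1)))
          rw [e1, e2]
          exact hi2
        · have e1 : skip (i + 1) j = j + 1 := by unfold skip; split_ifs <;> omega
          have e2 : skip (i + 1) (j + 1) = j + 1 + 1 := by unfold skip; split_ifs <;> omega
          show R (y (skip (i + 1) j)) (y (skip (i + 1) (j + 1)))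
          rw [e1, e2]
          exact hy (j + 1) (by omega)
      have h0' : y' 0 = y' n := by
        show y (skip (i + 1) 0) = y (skip (i + 1) n)
        rw [hskip0, hskipn]
        exact h0
      obtain ⟨T, hT1, hT2, hT3⟩ := ih s' y' hnpos hs' hy' h0'
      -- values of the triples in `T` are off the open interval `(p, r)`
      have hTout : ∀ τ ∈ T, ∀ k, τ k ≤ p ∨ r ≤ τ k := by
        intro τ hτ k
        obtain ⟨idx, hidx, _⟩ := hT1 τ hτ
        rw [(hidx k).2]
        have hne := skip_ne (i + 1) (idx k)
        have hle := skip_le (i + 1) (idx k) n (hidx k).1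
        rcases Nat.lt_or_ge (skip (i + 1) (idx k)) (i + 1) with h | h
        · left; exact hmono' _ _ (by omega) (by omega)
        · right; exact hmono' _ _ (by omega) (by omega)
      refine ⟨insert ![p, q, r] T, ?_, ?_, ?_⟩
      · intro τ hτ
        rcases hτ with rfl | hτ
        · refine ⟨![i, i + 1, i + 2], ?_, ?_⟩
          · intro k
            fin_cases k
            · exact ⟨show i ≤ n + 1 by omega, rfl⟩
            · exact ⟨show i + 1 ≤ n + 1 by omega, rfl⟩
            · exact ⟨show i + 2 ≤ n + 1 by omega, rfl⟩
          · have a1 : R (y i) (y (i + 1)) := hy i (by omega)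
            have a2 : R (y (i + 1)) (y (i + 2)) := hy (i + 1) (by omega)
            intro k l
            fin_cases k <;> fin_cases l
            · exact hrefl _
            · exact a1
            · exact hi2
            · exact hsymm _ _ a1
            · exact hrefl _
            · exact a2
            · exact hsymm _ _ hi2
            · exact hsymm _ _ a2
            · exact hrefl _
        · obtain ⟨idx, hidx, hR⟩ := hT1 τ hτ
          exact ⟨fun k => skip (i + 1) (idx k),
            fun k => ⟨skip_le _ _ _ (hidx k).1, (hidx k).2⟩, hR⟩
      · intro x v hxv h1 h2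
        by_cases hc : 0 ≤ v - (p + r) * x + p * r
        · obtain ⟨τ, hτ, w, hw⟩ := hT2 x v hxv (by
            intro j hj
            rcases lt_trichotomy j i with h | h | h
            · have e1 : skip (i + 1) j = j := by unfold skip; split_ifs <;> omega
              have e2 : skip (i + 1) (j + 1) = j + 1 := by unfold skip; split_ifs <;> omega
              show 0 ≤ v - (s (skip (i + 1) j) + s (skip (i + 1) (j + 1))) * x
                + s (skip (i + 1) j) * s (skip (i + 1) (j + 1))
              rw [e1, e2]
              exact h1 j (by omega)
            · subst h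
              have e1 : skip (j + 1) j = j := by unfold skip; split_ifs <;> omega
              have e2 : skip (j + 1) (j + 1) = j + 2 := by unfold skip; split_ifs <;> omega
              show 0 ≤ v - (s (skip (j + 1) j) + s (skip (j + 1) (j + 1))) * x
                + s (skip (j + 1) j) * s (skip (j + 1) (j + 1))
              rw [e1, e2]
              exact hc
            · have e1 : skip (i + 1) j = j + 1 := by unfold skip; split_ifs <;> omega
              have e2 : skip (i + 1) (j + 1) = j + 1 + 1 := by unfold skip; split_ifs <;> omega
              show 0 ≤ v - (s (skip (i + 1) j) + s (skip (i + 1) (j + 1))) * x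
                + s (skip (i + 1) j) * s (skip (i + 1) (j + 1))
              rw [e1, e2]
              exact h1 (j + 1) (by omega)) (by
            show v - (s (skip (i + 1) 0) + s (skip (i + 1) n)) * x
              + s (skip (i + 1) 0) * s (skip (i + 1) n) ≤ 0
            rw [hskip0, hskipn]
            exact h2)
          exact ⟨τ, Or.inr hτ, w, hw⟩
        · push Not at hc
          have c1 : 0 ≤ v - (p + q) * x + p * q := h1 i (by omega)
          have c2 : 0 ≤ v - (q + r) * x + q * r := h1 (i + 1) (by omega)
          have d1 : 0 < q - p := sub_pos.2 hpq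
          have d2 : 0 < r - q := sub_pos.2 hqr
          have d3 : 0 < r - p := by linarith
          have d1' := d1.ne'
          have d2' := d2.ne'
          have d3' := d3.ne'
          refine ⟨![p, q, r], Or.inl rfl, ![(v - (q + r) * x + q * r) / ((q - p) * (r - p)),
            -(v - (p + r) * x + p * r) / ((q - p) * (r - q)),
            (v - (p + q) * x + p * q) / ((r - p) * (r - q))], ?_, ?_, ?_, ?_⟩
          · intro k
            fin_cases k
            · exact div_nonneg c2 (mul_pos d1 d3).le
            · exact div_nonneg (by linarith) (mul_pos d1 d2).le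
            · exact div_nonneg c1 (mul_pos d3 d2).le
          · simp [Fin.sum_univ_three]
            field_simp
            ring
          · simp [Fin.sum_univ_three]
            field_simp
            ring
          · simp [Fin.sum_univ_three]
            field_simp
            ring
      · have hcross : ∀ τ ∈ T, NonCross ![p, q, r] τ := by
          intro τ hτ k k' l l'
          have hE : ∀ m, p ≤ (![p, q, r] : Fin 3 → ℝ) m ∧ (![p, q, r] : Fin 3 → ℝ) m ≤ r := by
            intro m
            fin_cases m
            · exact ⟨le_rfl, (hpq.trans hqr).le⟩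
            · exact ⟨hpq.le, hqr.le⟩
            · exact ⟨(hpq.trans hqr).le, le_rfl⟩
          constructor
          · rintro ⟨e1, e2, e3⟩
            rcases hTout τ hτ l with h | h
            · linarith [(hE k).1]
            · linarith [(hE k').2]
          · rintro ⟨e1, e2, e3⟩
            rcases hTout τ hτ l' with h | h
            · linarith [(hE k).1]
            · linarith [(hE k').2]
        intro τ hτ τ' hτ'
        rcases hτ with rfl | hτ
        · rcases hτ' with rfl | hτ'
          · exact NonCross.self _
          · exact hcross _ hτ'
        · rcases hτ' with rfl | hτ'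
          · exact (hcross _ hτ).symm
          · exact hT3 _ hτ _ hτ'

end Pool.Agent.Work.MP_71c2fc_gt
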