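import Mathlib

set_option autoImplicit false

open Set Filter Topology
open scoped unitInterval

namespace Pool.Agent.Work.MP_71c2fc_gt

/-- Freely homotopic loops: `γ * β` and `β * γ'` are homotopic. -/
theorem trans_of_free {T : Type*} [TopologicalSpace T] {x x' : T} (γ : Path x x)
    (γ' : Path x' x') (F : C(I × I, T)) (h0 : ∀ s, F (0, s) = γ s) (h1 : ∀ s, F (1, s) = γ' s)
    (hs : ∀ t, F (t, 0) = F (t, 1)) (β : Path x x') (hβ : ∀ t, β t = F (t, 0)) :
    (γ.trans β).Homotopic (β.trans γ') := by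
  let H : ContinuousMap.Homotopy (γ : C(I, T)) (γ' : C(I, T)) :=
    ⟨F, fun s => h0 s, fun s => h1 s⟩
  have h := Path.Homotopic.map_trans_evalAt H Path.id
  have h' := (h.pathCast (x₂ := x) (x₃ := x') (γ.source).symm (γ'.target).symm)
  obtain ⟨G⟩ := h'
  refine ⟨G.cast ?_ ?_⟩
  · ext t
    rw [Path.cast_coe, Path.trans_apply, Path.trans_apply]
    split_ifs with ht
    · rfl
    · show F (_, 1) = β _
      rw [hβ, hs]
  · ext t
    rw [Path.cast_coe, Path.trans_apply, Path.trans_apply]
    split_ifs with ht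
    · show F (_, 0) = β _
      rw [hβ]
    · rfl

/-- A loop which is freely homotopic to a nullhomotopic loop is nullhomotopic. -/
theorem null_of_free {T : Type*} [TopologicalSpace T] {x x' : T} (γ : Path x x)
    (γ' : Path x' x') (F : C(I × I, T)) (h0 : ∀ s, F (0, s) = γ s) (h1 : ∀ s, F (1, s) = γ' s)
    (hs : ∀ t, F (t, 0) = F (t, 1)) (hγ' : γ'.Homotopic (Path.refl x')) :
    γ.Homotopic (Path.refl x) := by
  let β : Path x x' :=
    { toFun := fun t => F (t, 0)
      continuous_toFun := by fun_prop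
      source' := by rw [h0]; simp
      target' := by rw [h1]; simp }
  have h := trans_of_free γ γ' F h0 h1 hs β (fun t => rfl)
  have h2 : (γ.trans β).Homotopic β :=
    h.trans (((Path.Homotopic.refl β).hcomp hγ').trans ⟨Path.Homotopy.transRefl β⟩)
  have h3 : ((γ.trans β).trans β.symm).Homotopic (β.trans β.symm) :=
    h2.hcomp (Path.Homotopic.refl _)
  have h4 : (β.trans β.symm).Homotopic (Path.refl x) := ⟨(Path.Homotopy.reflTransSymm β).symm⟩
  have h5 : ((γ.trans β).trans β.symm).Homotopic (γ.trans (β.trans β.symm)) :=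
    ⟨Path.Homotopy.transAssoc γ β β.symm⟩
  have h6 : (γ.trans (β.trans β.symm)).Homotopic (γ.trans (Path.refl x)) :=
    (Path.Homotopic.refl γ).hcomp h4
  have h7 : (γ.trans (Path.refl x)).Homotopic γ := ⟨Path.Homotopy.transRefl γ⟩
  exact h7.symm.trans (h6.symm.trans (h5.symm.trans (h3.trans h4)))

end Pool.Agent.Work.MP_71c2fc_gt
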