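import Pool.Agent.Work.MP_71c2fc_gt.Stage

set_option autoImplicit false

open Set Filter Topology

namespace Pool.Agent.Work.MP_71c2fc_gt

theorem exists_ultra_lim {α Y : Type*} [TopologicalSpace Y] (V : Ultrafilter α) {S : Set Y}
    (hS : IsCompact S) (f : α → Y) (hf : ∀ᶠ a in (V : Filter α), f a ∈ S) :
    ∃ q ∈ S, Tendsto f V (𝓝 q) := by
  obtain ⟨q, hq, hle⟩ := hS.ultrafilter_le_nhds (V.map f) (by
    rw [le_principal_iff]; exact hf)
  exact ⟨q, hq, hle⟩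

/-- The limit set of a sequence of sets along an ultrafilter. -/
def limSet {Y : Type*} [TopologicalSpace Y] (V : Ultrafilter ℕ) (S : ℕ → Set Y) : Set Y :=
  {q | ∀ O : Set Y, IsOpen O → q ∈ O → ∀ᶠ n in (V : Filter ℕ), (O ∩ S n).Nonempty}

section

variable {Y : Type*} [TopologicalSpace Y] {V : Ultrafilter ℕ} {S : ℕ → Set Y}

theorem mem_limSet_of_tendsto {f : ℕ → Y} (hf : ∀ n, f n ∈ S n) {q : Y}
    (hq : Tendsto f V (𝓝 q)) : q ∈ limSet V S := by
  intro O hO hqO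
  filter_upwards [hq (hO.mem_nhds hqO)] with n hn
  exact ⟨f n, hn, hf n⟩

theorem isClosed_limSet : IsClosed (limSet V S) := by
  rw [← isOpen_compl_iff, isOpen_iff_mem_nhds]
  intro q hq
  have hq' : ∃ O : Set Y, IsOpen O ∧ q ∈ O ∧ ¬ ∀ᶠ n in (V : Filter ℕ), (O ∩ S n).Nonempty := by
    by_contra hcon
    apply hq
    intro O hO hqO
    by_contra h
    exact hcon ⟨O, hO, hqO, h⟩
  obtain ⟨O, hO, hqO, hev⟩ := hq'
  filter_upwards [hO.mem_nhds hqO] with a ha ha'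
  exact hev (ha' O hO ha)

theorem limSet_subset [T2Space Y] {K : Set Y} (hK : IsCompact K) (hS : ∀ n, S n ⊆ K) :
    limSet V S ⊆ K := by
  intro q hq
  by_contra hqK
  obtain ⟨n, a, ha1, ha2⟩ := (hq Kᶜ hK.isClosed.isOpen_compl hqK).exists
  exact ha1 (hS n ha2)

theorem isPreconnected_limSet [T2Space Y] {K : Set Y} (hK : IsCompact K) (hS : ∀ n, S n ⊆ K)
    (hSc : ∀ n, IsPreconnected (S n)) : IsPreconnected (limSet V S) := by
  have hZK := limSet_subset (V := V) hK hS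
  have hZ : IsCompact (limSet V S) := hK.of_isClosed_subset isClosed_limSet hZK
  rw [isPreconnected_closed_iff]
  intro t t' ht ht' hcov hne hne'
  by_contra hcon
  rw [not_nonempty_iff_eq_empty] at hcon
  obtain ⟨U, U', hU, hU', hsub, hsub', hdisj⟩ := SeparatedNhds.of_isCompact_isCompact
    (hZ.inter_right ht) (hZ.inter_right ht') (by
      rw [Set.disjoint_left]
      rintro a ⟨ha1, ha2⟩ ⟨ha3, ha4⟩
      have : a ∈ limSet V S ∩ (t ∩ t') := ⟨ha1, ha2, ha4⟩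
      rw [hcon] at this
      exact this)
  have hev : ∀ᶠ n in (V : Filter ℕ), S n ⊆ U ∪ U' := by
    by_contra hnev
    rw [← Ultrafilter.eventually_not] at hnev
    have hex : ∀ n, ∃ a : Y, ¬ (S n ⊆ U ∪ U') → a ∈ S n ∧ a ∉ U ∪ U' := by
      intro n
      by_cases hn : S n ⊆ U ∪ U'
      · obtain ⟨a, _⟩ := hne
        exact ⟨a, fun h => absurd hn h⟩
      · obtain ⟨a, ha1, ha2⟩ := Set.not_subset.1 hn
        exact ⟨a, fun _ => ⟨ha1, ha2⟩⟩
    choose k hk using hex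
    have hK' : IsCompact (K \ (U ∪ U')) := hK.diff (hU.union hU')
    obtain ⟨q, hq, hlim⟩ := exists_ultra_lim V hK' k (by
      filter_upwards [hnev] with n hn
      exact ⟨hS n (hk n hn).1, (hk n hn).2⟩)
    have hqZ : q ∈ limSet V S := by
      intro O hO hqO
      filter_upwards [hlim (hO.mem_nhds hqO), hnev] with n hn1 hn2
      exact ⟨k n, hn1, (hk n hn2).1⟩
    apply hq.2
    rcases hcov hqZ with h | h
    · exact Or.inl (hsub ⟨hqZ, h⟩)
    · exact Or.inr (hsub' ⟨hqZ, h⟩)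
  obtain ⟨a, ha, hat⟩ := hne
  obtain ⟨a', ha', hat'⟩ := hne'
  obtain ⟨n, hn1, hn2, hn3⟩ := (hev.and ((ha U hU (hsub ⟨ha, hat⟩)).and
    (ha' U' hU' (hsub' ⟨ha', hat'⟩)))).exists
  obtain ⟨b, _, hb1, hb2⟩ := hSc n U U' hU hU' hn1 (by rwa [inter_comm]) (by rwa [inter_comm])
  exact Set.disjoint_left.1 hdisj hb1 hb2

theorem limSet_const [T2Space Y] {M : Type*} [MetricSpace M] {K : Set Y} (hK : IsCompact K)
    (hS : ∀ n, S n ⊆ K) {h : Y → M} (hh : ContinuousOn h K) {e : ℕ → ℝ}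
    (he : Tendsto e V (𝓝 0)) (hd : ∀ n, ∀ a ∈ S n, ∀ b ∈ S n, dist (h a) (h b) ≤ e n)
    {q q' : Y} (hq : q ∈ limSet V S) (hq' : q' ∈ limSet V S) : h q = h q' := by
  have hZK := limSet_subset (V := V) hK hS
  have hnb : ∀ (p : Y) (hp : p ∈ limSet V S) (η : ℝ), 0 < η →
      ∀ᶠ n in (V : Filter ℕ), ∃ a ∈ S n, dist (h a) (h p) < η := by
    intro p hp η hη
    have h1 : ContinuousWithinAt h K p := hh p (hZK hp)
    have h2 : h ⁻¹' Metric.ball (h p) η ∈ 𝓝[K] p := h1 (Metric.ball_mem_nhds _ hη)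
    obtain ⟨O, hO, hpO, hOs⟩ := mem_nhdsWithin.1 h2
    filter_upwards [hp O hO hpO] with n hn
    obtain ⟨a, ha1, ha2⟩ := hn
    exact ⟨a, ha2, hOs ⟨ha1, hS n ha2⟩⟩
  rw [← dist_le_zero]
  apply le_of_forall_pos_le_add
  intro η hη
  have hη3 : 0 < η / 3 := by positivity
  have h3 : ∀ᶠ n in (V : Filter ℕ), e n < η / 3 := he.eventually (gt_mem_nhds hη3)
  obtain ⟨n, ⟨a, ha, ha'⟩, ⟨b, hb, hb'⟩, hn⟩ :=
    ((hnb q hq _ hη3).and ((hnb q' hq' _ hη3).and h3)).exists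
  have h4 := hd n a ha b hb
  have h5 := dist_triangle4 (h q) (h a) (h b) (h q')
  rw [dist_comm (h q) (h a)] at h5
  linarith

end

/-- A subset of a metric space has small open covers of order at most two (given by positivity
sets of nonnegative continuous functions). -/
def ThinCover {M : Type*} [PseudoMetricSpace M] (B : Set M) : Prop :=
  ∀ ε : ℝ, 0 < ε → ∃ (ι : Type) (d : ι → M → ℝ), (∀ k, Continuous (d k)) ∧ (∀ k z, 0 ≤ d k z) ∧
    (∀ z ∈ B, ∃ k, 0 < d k z) ∧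
    (∀ z ∈ B, ∀ k l m, 0 < d k z → 0 < d l z → 0 < d m z → k = l ∨ k = m ∨ l = m) ∧
    (∀ k, ∀ a ∈ B, ∀ b ∈ B, 0 < d k a → 0 < d k b → dist a b ≤ ε)

theorem exists_filling {P : Type*} [TopologicalSpace P] [LocallyConnectedSpace P]
    (hP : LiftsCircle P) {E : Type*} [NormedAddCommGroup E] [NormedSpace ℝ E]
    {M : Type*} [MetricSpace M] (H : P → E) (hH : Continuous H) (hK : IsCompact (range H))
    (h : E → M) (hh : ContinuousOn h (range H)) (hthin : ThinCover (h '' range H))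
    (X : Set E) (hX : ∀ C ⊆ range H, IsPreconnected C → (∀ a ∈ C, ∀ b ∈ C, h a = h b) →
      convexHull ℝ C ⊆ X)
    (c : ℝ → P) (hc : Continuous c) (hc01 : c 0 = c 1) :
    ∃ G : ℝ × ℝ → E, ContinuousOn G Dom ∧ (∀ z ∈ Dom, G z ∈ X) ∧
      (∀ s ∈ Icc (0 : ℝ) 1, G (s, s ^ 2) = H (c s)) ∧
      (∀ s ∈ Icc (0 : ℝ) 1, G (s, s) = H (c 0)) := by
  classical
  -- the stages
  have hstage : ∀ n : ℕ, ∃ T : ℝ × ℝ → (Fin 3 → ℝ) × (Fin 3 → ℝ),
      (∀ z ∈ Dom, (∀ i, (T z).1 i ∈ Icc (0 : ℝ) 1) ∧ (∀ i, 0 ≤ (T z).2 i) ∧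
        ∑ i, (T z).2 i = 1 ∧ ∑ i, (T z).2 i * (T z).1 i = z.1 ∧
        |∑ i, (T z).2 i * (T z).1 i ^ 2 - z.2| ≤ 1 / ((n : ℝ) + 1) ∧
        ∃ L : Set P, IsPreconnected L ∧ (∀ i, c ((T z).1 i) ∈ L) ∧
          ∀ a ∈ L, ∀ b ∈ L, dist (h (H a)) (h (H b)) ≤ 2 * (1 / ((n : ℝ) + 1))) ∧
      (∀ z ∈ Dom, ∀ z' ∈ Dom, NonCross (T z).1 (T z').1) := by
    intro n
    have hε : (0 : ℝ) < 1 / ((n : ℝ) + 1) := by positivity
    obtain ⟨ι, d, hd, hd0, hcov, hord, hmesh⟩ := hthin _ hε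
    have hhH : Continuous (fun z => h (H z)) := by
      rw [continuous_iff_continuousAt]
      intro z
      have h1 : ContinuousWithinAt h (range H) (H z) := hh _ ⟨z, rfl⟩
      exact h1.tendsto.comp (tendsto_nhdsWithin_iff.2
        ⟨hH.continuousAt, Eventually.of_forall fun y => ⟨y, rfl⟩⟩)
    have hB : ∀ z, h (H z) ∈ h '' range H := fun z => ⟨H z, ⟨z, rfl⟩, rfl⟩
    exact exists_stage hP (fun z => h (H z)) (d := fun k z => d k (h (H z)))
      (fun k => (hd k).comp hhH) (fun k z => hd0 k _) (fun z => hcov _ (hB z))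
      (fun z => hord _ (hB z)) hε (fun k a b => hmesh k _ (hB a) _ (hB b)) c hc hc01
  choose T hT hNC using hstage
  choose! L hLc hLm hLd using fun n z hz => (hT n z hz).2.2.2.2.2
  set V : Ultrafilter ℕ := hyperfilter ℕ with hV
  have hVtop : (V : Filter ℕ) ≤ atTop := by
    rw [hV]; exact Nat.hyperfilter_le_atTop
  have he : Tendsto (fun n : ℕ => 1 / ((n : ℝ) + 1)) V (𝓝 0) :=
    tendsto_one_div_add_atTop_nhds_zero_nat.mono_left hVtop
  -- the compact set of data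
  set CC : Set ((Fin 3 → ℝ) × (Fin 3 → ℝ)) :=
    (Set.univ.pi fun _ => Icc (0 : ℝ) 1) ×ˢ stdSimplex ℝ (Fin 3) with hCC
  have hCCc : IsCompact CC :=
    (isCompact_univ_pi fun _ => isCompact_Icc).prod (isCompact_stdSimplex ℝ (Fin 3))
  have hTC : ∀ n, ∀ z ∈ Dom, T n z ∈ CC := by
    intro n z hz
    obtain ⟨h1, h2, h3, _⟩ := hT n z hz
    exact ⟨fun i _ => h1 i, h2, h3⟩
  have hlim : ∀ z ∈ Dom, ∃ q ∈ CC, Tendsto (fun n => T n z) V (𝓝 q) := fun z hz =>
    exists_ultra_lim V hCCc _ (Eventually.of_forall fun n => hTC n z hz)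
  choose! Q hQC hQlim using hlim
  -- continuous functionals
  have hm1 : Continuous (fun q : (Fin 3 → ℝ) × (Fin 3 → ℝ) => ∑ i, q.2 i * q.1 i) := by
    fun_prop
  have hm2 : Continuous (fun q : (Fin 3 → ℝ) × (Fin 3 → ℝ) => ∑ i, q.2 i * q.1 i ^ 2) := by
    fun_prop
  have hΦ : Continuous (fun q : (Fin 3 → ℝ) × (Fin 3 → ℝ) => ∑ i, q.2 i • H (c (q.1 i))) := by
    fun_prop
  have hcoord : ∀ i, Continuous (fun q : (Fin 3 → ℝ) × (Fin 3 → ℝ) => q.1 i) := by
    intro i; fun_prop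
  have hQ1 : ∀ z ∈ Dom, ∑ i, (Q z).2 i * (Q z).1 i = z.1 := by
    intro z hz
    have h1 := (hm1.tendsto (Q z)).comp (hQlim z hz)
    have h2 : ∀ n, ((fun q : (Fin 3 → ℝ) × (Fin 3 → ℝ) => ∑ i, q.2 i * q.1 i) ∘
        fun n => T n z) n = z.1 := fun n => (hT n z hz).2.2.2.1
    exact (tendsto_nhds_unique h1 ((tendsto_congr h2).2 tendsto_const_nhds))
  have hQ2 : ∀ z ∈ Dom, ∑ i, (Q z).2 i * (Q z).1 i ^ 2 = z.2 := by
    intro z hz
    have h1 := (hm2.tendsto (Q z)).comp (hQlim z hz)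
    have h3 : Tendsto ((fun q : (Fin 3 → ℝ) × (Fin 3 → ℝ) => ∑ i, q.2 i * q.1 i ^ 2) ∘
        fun n => T n z) V (𝓝 z.2) := by
      rw [tendsto_iff_dist_tendsto_zero]
      refine squeeze_zero (fun n => dist_nonneg) (fun n => ?_) he
      rw [Real.dist_eq]
      exact (hT n z hz).2.2.2.2.1
    exact tendsto_nhds_unique h1 h3
  have hNClim : ∀ {α : Type} (F : Ultrafilter α) (f f' : α → (Fin 3 → ℝ) × (Fin 3 → ℝ))
      (q q' : (Fin 3 → ℝ) × (Fin 3 → ℝ)), Tendsto f F (𝓝 q) → Tendsto f' F (𝓝 q') →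
      (∀ᶠ a in (F : Filter α), NonCross (f a).1 (f' a).1) → NonCross q.1 q'.1 := by
    intro α F f f' q q' hf hf' hev
    have hl : ∀ i, Tendsto (fun a => (f a).1 i) F (𝓝 (q.1 i)) := fun i =>
      ((hcoord i).tendsto q).comp hf
    have hl' : ∀ i, Tendsto (fun a => (f' a).1 i) F (𝓝 (q'.1 i)) := fun i =>
      ((hcoord i).tendsto q').comp hf'
    intro i i' j j'
    constructor
    · rintro ⟨h1, h2, h3⟩
      obtain ⟨a, ha, ha1, ha2, ha3⟩ := (hev.and (((hl i).eventually_lt (hl' j) h1).and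
        (((hl' j).eventually_lt (hl i') h2).and ((hl i').eventually_lt (hl' j') h3)))).exists
      exact (ha i i' j j').1 ⟨ha1, ha2, ha3⟩
    · rintro ⟨h1, h2, h3⟩
      obtain ⟨a, ha, ha1, ha2, ha3⟩ := (hev.and (((hl' j).eventually_lt (hl i) h1).and
        (((hl i).eventually_lt (hl' j') h2).and ((hl' j').eventually_lt (hl i') h3)))).exists
      exact (ha i i' j j').2 ⟨ha1, ha2, ha3⟩
  have hQNC : ∀ z ∈ Dom, ∀ z' ∈ Dom, NonCross (Q z).1 (Q z').1 := fun z hz z' hz' =>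
    hNClim V _ _ _ _ (hQlim z hz) (hQlim z' hz') (Eventually.of_forall fun n => hNC n z hz z' hz')
  have hcomb : ∀ z ∈ Dom, ∀ q ∈ CC, ∑ i, q.2 i * q.1 i = z.1 → ∑ i, q.2 i * q.1 i ^ 2 = z.2 →
      NonCross q.1 (Q z).1 →
      ∑ i, q.2 i • H (c (q.1 i)) = ∑ i, (Q z).2 i • H (c ((Q z).1 i)) := by
    intro z hz q hq h1 h2 h3
    have hQz := hQC z hz
    refine comb_eq _ _ _ _ hq.2.1 hQz.2.1 ?_ ?_ ?_ h3 (fun t => H (c t))
    · rw [hq.2.2, hQz.2.2]
    · rw [h1, hQ1 z hz]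
    · rw [h2, hQ2 z hz]
  refine ⟨fun z => ∑ i, (Q z).2 i • H (c ((Q z).1 i)), ?_, ?_, ?_, ?_⟩
  · -- continuity
    intro z hz
    rw [ContinuousWithinAt, tendsto_iff_ultrafilter]
    intro F hF
    have hDF : ∀ᶠ a in (F : Filter (ℝ × ℝ)), a ∈ Dom := by
      have := hF.trans (show 𝓝[Dom] z ≤ 𝓟 Dom from inf_le_right)
      exact le_principal_iff.1 this
    have hFz : Tendsto id (F : Filter (ℝ × ℝ)) (𝓝 z) :=
      hF.trans (show 𝓝[Dom] z ≤ 𝓝 z from nhdsWithin_le_nhds)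
    obtain ⟨q, hq, hql⟩ := exists_ultra_lim F hCCc Q (by
      filter_upwards [hDF] with a ha
      exact hQC a ha)
    have h1 : ∑ i, q.2 i * q.1 i = z.1 := by
      have e1 := (hm1.tendsto q).comp hql
      have e2 : Tendsto (fun a : ℝ × ℝ => a.1) F (𝓝 z.1) := (continuous_fst.tendsto z).comp hFz
      refine tendsto_nhds_unique e1 (e2.congr' ?_)
      filter_upwards [hDF] with a ha
      exact (hQ1 a ha).symm
    have h2 : ∑ i, q.2 i * q.1 i ^ 2 = z.2 := by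
      have e1 := (hm2.tendsto q).comp hql
      have e2 : Tendsto (fun a : ℝ × ℝ => a.2) F (𝓝 z.2) := (continuous_snd.tendsto z).comp hFz
      refine tendsto_nhds_unique e1 (e2.congr' ?_)
      filter_upwards [hDF] with a ha
      exact (hQ2 a ha).symm
    have h3 : NonCross q.1 (Q z).1 := hNClim F Q (fun _ => Q z) q (Q z) hql tendsto_const_nhds (by
      filter_upwards [hDF] with a ha
      exact hQNC a ha z hz)
    have h4 := (hΦ.tendsto q).comp hql
    rw [hcomb z hz q hq h1 h2 h3] at h4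
    exact h4
  · -- the values lie in `X`
    intro z hz
    let S : ℕ → Set E := fun n => H '' (L n z)
    have hSK : ∀ n, S n ⊆ range H := fun n => image_subset_range _ _
    have hSc : ∀ n, IsPreconnected (S n) := fun n => (hLc n z hz).image _ hH.continuousOn
    have hZc := isPreconnected_limSet (V := V) hK hSK hSc
    have hZK := limSet_subset (V := V) hK hSK
    have hconst : ∀ a ∈ limSet V S, ∀ b ∈ limSet V S, h a = h b := by
      intro a ha b hb
      refine limSet_const hK hSK hh (e := fun n : ℕ => 2 * (1 / ((n : ℝ) + 1))) ?_ ?_ ha hb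
      · simpa using he.const_mul 2
      · rintro n _ ⟨a, ha, rfl⟩ _ ⟨b, hb, rfl⟩
        exact hLd n z hz a ha b hb
    have hmem : ∀ i, H (c ((Q z).1 i)) ∈ limSet V S := by
      intro i
      refine mem_limSet_of_tendsto (f := fun n => H (c ((T n z).1 i))) ?_ ?_
      · intro n
        exact ⟨_, hLm n z hz i, rfl⟩
      · exact ((hH.comp (hc.comp (hcoord i))).tendsto (Q z)).comp (hQlim z hz)
    refine hX _ hZK hZc hconst ?_
    refine (convex_convexHull ℝ _).sum_mem (fun i _ => (hQC z hz).2.1 i) (hQC z hz).2.2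
      (fun i _ => subset_convexHull ℝ _ (hmem i))
  · -- the parabola
    intro s hs
    have hz : (s, s ^ 2) ∈ Dom := ⟨le_rfl, by
      show s ^ 2 ≤ s
      nlinarith [hs.1, hs.2]⟩
    have h1 := hcomb (s, s ^ 2) hz (fun _ => s, ![1, 0, 0]) ⟨fun i _ => hs, by
        intro i; fin_cases i <;> simp, by simp [Fin.sum_univ_three]⟩
      (by simp [Fin.sum_univ_three]) (by simp [Fin.sum_univ_three]) (NonCross.const s _)
    show ∑ i, (Q (s, s ^ 2)).2 i • H (c ((Q (s, s ^ 2)).1 i)) = _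
    rw [← h1]
    simp [Fin.sum_univ_three]
  · -- the chord
    intro s hs
    have hz : (s, s) ∈ Dom := ⟨by
      show s ^ 2 ≤ s
      nlinarith [hs.1, hs.2], le_rfl⟩
    have hsim : (![1 - s, s, 0] : Fin 3 → ℝ) ∈ stdSimplex ℝ (Fin 3) := by
      constructor
      · intro i
        fin_cases i
        · show 0 ≤ 1 - s
          linarith [hs.2]
        · exact hs.1
        · exact le_rfl
      · simp [Fin.sum_univ_three]
    have hIcc : ∀ i, (![0, 1, 1] : Fin 3 → ℝ) i ∈ Icc (0 : ℝ) 1 := by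
      intro i; fin_cases i <;> simp
    have hval : ∀ i, (![0, 1, 1] : Fin 3 → ℝ) i = 0 ∨ (![0, 1, 1] : Fin 3 → ℝ) i = 1 := by
      intro i; fin_cases i <;> simp
    have hnc : NonCross ![0, 1, 1] (Q (s, s)).1 := by
      intro i i' j j'
      have hQI : ∀ k, (Q (s, s)).1 k ∈ Icc (0 : ℝ) 1 := fun k => (hQC _ hz).1 k trivial
      constructor
      · rintro ⟨e1, e2, e3⟩
        have a1 := (hQI j).1
        have a2 := (hQI j').2
        rcases hval i' with h | h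
        · rw [h] at e2; linarith
        · rw [h] at e3; linarith
      · rintro ⟨e1, e2, e3⟩
        have a1 := (hQI j).1
        have a2 := (hQI j').2
        rcases hval i with h | h
        · rw [h] at e1; linarith
        · rw [h] at e2; linarith
    have h1 := hcomb (s, s) hz (![0, 1, 1], ![1 - s, s, 0]) ⟨fun i _ => hIcc i, hsim⟩
      (by simp [Fin.sum_univ_three]) (by simp [Fin.sum_univ_three]) hnc
    show ∑ i, (Q (s, s)).2 i • H (c ((Q (s, s)).1 i)) = _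
    rw [← h1]
    simp only [Fin.sum_univ_three, Matrix.cons_val_zero, Matrix.cons_val_one, Matrix.cons_val]
    rw [← hc01]
    module

end Pool.Agent.Work.MP_71c2fc_gt
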