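import Pool.Agent.Work.MP_71c2fc_gt.Localize

set_option autoImplicit false

open Set Filter Topology
open scoped unitInterval

namespace Pool.Agent.Work.MP_71c2fc_gt

theorem Hol.zsmul {n : ℕ} {S : Set (PP n)} {u : ℝ} {k : ℤ} (h : Hol n S u u k) (s : ℤ) :
    Hol n S u u (s * k) := by
  have h0 : Hol n S u u 0 := by
    have := h.trans h.symm
    rwa [add_neg_cancel] at this
  induction s using Int.induction_on with
  | zero => rw [zero_mul]; exact h0
  | succ i ih =>
    rw [add_mul, one_mul]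
    exact ih.trans h
  | pred i ih =>
    rw [sub_mul, one_mul, sub_eq_add_neg]
    exact ih.trans h.symm

/-- From a holonomy prime to `n` one gets a positive holonomy which is `1` modulo `n`. -/
theorem Hol.exists_one {n : ℕ} {S : Set (PP n)} {u : ℝ} {k : ℤ} (h : Hol n S u u k)
    (hco : IsCoprime k (n : ℤ)) (hk : k ≠ 0) :
    ∃ j : ℕ, Hol n S u u (j : ℤ) ∧ j ≡ 1 [MOD n] := by
  obtain ⟨a, b, hab⟩ := hco
  have hn0 : (0 : ℤ) ≤ n := Int.natCast_nonneg n
  -- `s = a + n k |a|`
  set s : ℤ := a + n * k * |a| with hs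
  have hnn : n = 0 ∨ 1 ≤ (n : ℤ) := by
    rcases Nat.eq_zero_or_pos n with h | h
    · exact Or.inl h
    · right; exact_mod_cast h
  have hmod : s * k = 1 + n * (k * |a| * k - b) := by
    rw [hs]
    have : a * k = 1 - b * n := by linarith
    linear_combination this
  rcases hnn with hn | hn
  · -- `n = 0`: the holonomy is a unit
    subst hn
    have h1 : a * k = 1 := by simpa using hab
    have h2 := h.zsmul a
    rw [h1] at h2
    exact ⟨1, by exact_mod_cast h2, Nat.ModEq.refl _⟩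
  · have hpos : 0 ≤ s * k := by
      have e1 : s * k = a * k + n * |a| * (k * k) := by rw [hs]; ring
      have e2 : |k| ≤ k * k := by
        have h3 : 1 ≤ |k| := Int.one_le_abs hk
        have h4 : k * k = |k| * |k| := (abs_mul_abs_self k).symm
        rw [h4]; nlinarith
      have e3 : -(|a| * |k|) ≤ a * k := by
        rw [← abs_mul]; exact neg_abs_le _
      have e4 : |a| * |k| ≤ n * |a| * (k * k) := by
        have h5 : 0 ≤ |a| := abs_nonneg a
        have h6 : |a| * |k| ≤ |a| * (k * k) := mul_le_mul_of_nonneg_left e2 h5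
        have h7 : 0 ≤ |a| * (k * k) := mul_nonneg h5 (mul_self_nonneg k)
        have h8 : |a| * (k * k) ≤ n * (|a| * (k * k)) := by nlinarith
        calc |a| * |k| ≤ |a| * (k * k) := h6
          _ ≤ n * (|a| * (k * k)) := h8
          _ = n * |a| * (k * k) := by ring
      rw [e1]; linarith
    obtain ⟨j, hj⟩ := Int.eq_ofNat_of_zero_le hpos
    refine ⟨j, ?_, ?_⟩
    · rw [← hj]; exact h.zsmul s
    · rw [← Int.natCast_modEq_iff]
      rw [← hj, hmod]
      push_cast
      exact (Int.modEq_iff_dvd.2 ⟨-(k * |a| * k - b), by ring⟩)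

/-- Torsion of prime power order is localised near connected subsets of fibres of maps to
one-dimensional spaces. -/
theorem localization {X : Type*} [TopologicalSpace X] [T2Space X] {M : Type*} [MetricSpace M]
    (h : X → M) (hh : Continuous h)
    (hthin : ∀ K : Set X, IsCompact K → ThinCover (h '' K)) (x : X) (g : FundamentalGroup X x)
    {p m : ℕ} (hp : p.Prime) (hg : orderOf g = p ^ m) :
    ∃ Λ : Set X, IsCompact Λ ∧ IsConnected Λ ∧ (∀ a ∈ Λ, ∀ b ∈ Λ, h a = h b) ∧
      ∀ O : Set X, IsOpen O → Λ ⊆ O → ∃ (y : X) (δ : Path y y) (β : Path x y), (∀ t, δ t ∈ O) ∧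
        FundamentalGroup.fromPath (Path.Homotopic.Quotient.mk ((β.trans δ).trans β.symm)) = g := by
  classical
  obtain ⟨γ, rfl⟩ := Path.Homotopic.Quotient.mk_surjective g
  set n : ℕ := p ^ m with hn
  have hn0 : n ≠ 0 := pow_ne_zero _ hp.ne_zero
  have hpow : (FundamentalGroup.fromPath (Path.Homotopic.Quotient.mk γ)) ^ n = 1 := by
    rw [← hg]; exact pow_orderOf_eq_one _
  obtain ⟨H, hH, hHK, hγ⟩ := exists_PP_map' γ hn0 hpow
  have hN : ¬ (p : ℤ) ∣ 1 := by
    intro hd
    have := Int.natCast_dvd_natCast.1 (by simpa using hd : (p : ℤ) ∣ ((1 : ℕ) : ℤ))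
    exact hp.one_lt.ne' (Nat.dvd_one.1 this)
  have hstage : ∀ k : ℕ, ∃ (S : Set (PP n)) (u : ℝ) (κ : ℤ), IsPreconnected S ∧
      psPi n (cs n u) ∈ S ∧
      (∀ a ∈ S, ∀ b ∈ S, dist (h (H a)) (h (H b)) ≤ 2 * (1 / ((k : ℝ) + 1))) ∧
      Hol n S u u κ ∧ ¬ (p : ℤ) ∣ κ := by
    intro k
    have hε : (0 : ℝ) < 1 / ((k : ℝ) + 1) := by positivity
    obtain ⟨ι, d, hd, hd0, hcov, hord, hmesh⟩ := hthin (range H) hHK _ hε
    have hB : ∀ z, h (H z) ∈ h '' range H := fun z => ⟨H z, ⟨z, rfl⟩, rfl⟩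
    exact carry_stage hn0 hN (fun z => h (H z)) (d := fun k z => d k (h (H z)))
      (fun k => (hd k).comp (hh.comp hH)) (fun k z => hd0 k _) (fun z => hcov _ (hB z))
      (fun z => hord _ (hB z)) (fun k a b => hmesh k _ (hB a) _ (hB b))
  choose S u κ hSc hSu hSd hSH hSκ using hstage
  set V : Ultrafilter ℕ := hyperfilter ℕ with hV
  have hVtop : (V : Filter ℕ) ≤ atTop := by
    rw [hV]; exact Nat.hyperfilter_le_atTop
  have he : Tendsto (fun n : ℕ => 1 / ((n : ℝ) + 1)) V (𝓝 0) :=
    tendsto_one_div_add_atTop_nhds_zero_nat.mono_left hVtop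
  have hTK : ∀ k, H '' S k ⊆ range H := fun k => image_subset_range _ _
  have hTc : ∀ k, IsPreconnected (H '' S k) := fun k => (hSc k).image _ hH.continuousOn
  have hΛK := limSet_subset (V := V) hHK hTK
  refine ⟨limSet V fun k => H '' S k, hHK.of_isClosed_subset isClosed_limSet hΛK,
    ⟨?_, isPreconnected_limSet hHK hTK hTc⟩, ?_, ?_⟩
  · obtain ⟨q, _, hq⟩ := exists_ultra_lim V hHK (fun k => H (psPi n (cs n (u k))))
      (Eventually.of_forall fun k => mem_range_self _)
    exact ⟨q, mem_limSet_of_tendsto (S := fun k => H '' S k)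
      (f := fun k => H (psPi n (cs n (u k)))) (fun k => mem_image_of_mem H (hSu k)) hq⟩
  · intro a ha b hb
    refine limSet_const hHK hTK hh.continuousOn
      (e := fun n : ℕ => 2 * (1 / ((n : ℝ) + 1))) ?_ ?_ ha hb
    · simpa using he.const_mul 2
    · rintro k _ ⟨a, ha, rfl⟩ _ ⟨b, hb, rfl⟩
      exact hSd k a ha b hb
  · intro O hO hΛO
    have hex : ∃ k, H '' S k ⊆ O := by
      by_contra hcon
      push Not at hcon
      have hb : ∀ k, ∃ b ∈ H '' S k, b ∉ O := fun k => Set.not_subset.1 (hcon k)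
      choose b hbS hbO using hb
      obtain ⟨q, _, hq⟩ := exists_ultra_lim V hHK b (Eventually.of_forall fun k => hTK k (hbS k))
      have h1 : q ∈ O := hΛO (mem_limSet_of_tendsto hbS hq)
      have h2 : ∀ᶠ k in (V : Filter ℕ), b k ∈ O := hq (hO.mem_nhds h1)
      obtain ⟨k, hk⟩ := h2.exists
      exact hbO k hk
    obtain ⟨k, hk⟩ := hex
    have hco : IsCoprime (κ k) (n : ℤ) := by
      rw [hn]
      push_cast
      apply IsCoprime.pow_right
      rw [isCoprime_comm]
      exact (Nat.prime_iff_prime_int.1 hp).coprime_iff_not_dvd.2 (hSκ k)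
    have hk0 : κ k ≠ 0 := by
      intro h0
      apply hSκ k
      rw [h0]; exact dvd_zero _
    obtain ⟨j, hj, hj1⟩ := (hSH k).exists_one hco hk0
    obtain ⟨y, δ, β, hδ, hcl⟩ := conj_of_hol γ hn0 H hH hγ hj
    refine ⟨y, δ, β, fun t => hk (hδ t), ?_⟩
    rw [hcl]
    have h1 : (FundamentalGroup.fromPath (Path.Homotopic.Quotient.mk γ)) ^ j =
        (FundamentalGroup.fromPath (Path.Homotopic.Quotient.mk γ)) ^ 1 := by
      rw [pow_eq_pow_iff_modEq]
      have : orderOf (FundamentalGroup.fromPath (Path.Homotopic.Quotient.mk γ)) = n := hg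
      rw [this]
      exact hj1
    rw [h1, pow_one]

end Pool.Agent.Work.MP_71c2fc_gt
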