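import Pool.Agent.Work.MP_71c2fc_gt.Carry
import Pool.Agent.Work.MP_71c2fc_gt.Limit

set_option autoImplicit false

open Set Filter Topology
open scoped unitInterval

namespace Pool.Agent.Work.MP_71c2fc_gt

/-- A loop whose `p`-th power is nullhomotopic extends over the pseudo-projective plane. -/
theorem exists_PP_map' {Y : Type*} [TopologicalSpace Y] {x : Y} (γ : Path x x) {p : ℕ} (hp : p ≠ 0)
    (hpow : (FundamentalGroup.fromPath (Path.Homotopic.Quotient.mk γ)) ^ p = 1) :
    ∃ H : PP p → Y, Continuous H ∧ IsCompact (range H) ∧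
      ∀ t : I, H (psPi p (cs p t)) = γ t := by
  have hp' : (p : ℝ) ≠ 0 := Nat.cast_ne_zero.2 hp
  have hΓc : Continuous (fun t : ℝ => γ.extend (Int.fract t)) :=
    ContinuousOn.comp_fract'' (f := γ.extend) γ.continuous_extend.continuousOn (by simp)
  let Γ : C(ℝ, Y) := ⟨fun t : ℝ => γ.extend (Int.fract t), hΓc⟩
  have hΓfr : ∀ s t : ℝ, Int.fract s = Int.fract t → Γ s = Γ t := by
    intro s t h
    show γ.extend (Int.fract s) = γ.extend (Int.fract t)
    rw [h]
  have hper : ∀ t : ℝ, Γ (t + 1) = Γ t := fun t => hΓfr _ _ (Int.fract_add_one t)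
  have h0 : Γ 0 = x := by
    show γ.extend (Int.fract 0) = x
    simp
  have hΓ : ∀ t : I, Γ (t : ℝ) = γ t := by
    intro t
    show γ.extend (Int.fract (t : ℝ)) = γ t
    rcases eq_or_lt_of_le t.2.2 with h | h
    · have ht : t = 1 := Subtype.ext h
      subst ht
      simp
    · rw [Int.fract_eq_self.2 ⟨t.2.1, h⟩]
      exact γ.extend_apply t.2
  rw [pow_eq_powLoop γ Γ hΓ hper h0 p, FundamentalGroup.one_def] at hpow
  have hhom : (powLoop Γ hper h0 p).Homotopic (Path.refl x) := by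
    rw [← Path.Homotopic.Quotient.eq]
    exact hpow
  obtain ⟨A⟩ := hhom
  have hA0 : ∀ t : I, A (0, t) = Γ (p * (t : ℝ)) := by
    intro t
    rw [A.apply_zero]
    rfl
  have hA1 : ∀ t : I, A (1, t) = x := by
    intro t
    rw [A.apply_one]
    rfl
  have hAl : ∀ s : I, A (s, 0) = x := fun s => A.source s
  have hAr : ∀ s : I, A (s, 1) = x := fun s => A.target s
  -- the map on the plane
  let f : ℝ × ℝ → ℝ → Y := fun z t => A (projIcc 0 1 zero_le_one z.2, projIcc 0 1 zero_le_one t)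
  have hfc : Continuous (Function.uncurry f) := by
    show Continuous (fun w : (ℝ × ℝ) × ℝ =>
      A (projIcc 0 1 zero_le_one w.1.2, projIcc 0 1 zero_le_one w.2))
    fun_prop
  let H₀ : ℝ × ℝ → Y := fun z => f z (Int.fract z.1)
  have hH₀ : Continuous H₀ := by
    refine ContinuousOn.comp_fract (f := f) (s := fun z : ℝ × ℝ => z.1) hfc.continuousOn
      continuous_fst ?_
    intro z
    show A (_, projIcc 0 1 zero_le_one 0) = A (_, projIcc 0 1 zero_le_one 1)
    rw [projIcc_left, projIcc_right]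
    exact (hAl _).trans (hAr _).symm
  have hlow : ∀ (s t : ℝ), s ≤ 0 → H₀ (t, s) = Γ (p * t) := by
    intro s t hs
    show A (projIcc 0 1 zero_le_one s, projIcc 0 1 zero_le_one (Int.fract t)) = _
    rw [projIcc_of_le_left zero_le_one hs]
    show A (0, _) = _
    rw [hA0, projIcc_of_mem zero_le_one ⟨Int.fract_nonneg t, (Int.fract_lt_one t).le⟩]
    apply hΓfr
    rw [Int.fract_eq_fract]
    refine ⟨-(p * ⌊t⌋), ?_⟩
    push_cast
    rw [← Int.self_sub_floor t]
    ring
  have hinv : ∀ a b : ℝ × ℝ, (ppSetoid p).r a b → H₀ a = H₀ b := by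
    rintro ⟨a, s⟩ ⟨b, s'⟩ ⟨h, h'⟩
    simp only at h h'
    subst h
    rcases h' with ⟨m, hm⟩ | ⟨hs, m, hm⟩ | h1
    · have : Int.fract a = Int.fract b := Int.fract_eq_fract.2 ⟨m, hm⟩
      show f (a, s) (Int.fract a) = f (b, s) (Int.fract b)
      rw [this]
    · rw [hlow s a hs, hlow s b hs]
      apply hΓfr
      rw [Int.fract_eq_fract]
      exact ⟨m, by rw [← hm]; ring⟩
    · show A (projIcc 0 1 zero_le_one s, _) = A (projIcc 0 1 zero_le_one s, _)
      rw [projIcc_of_right_le zero_le_one h1]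
      exact (hA1 _).trans (hA1 _).symm
  refine ⟨Quotient.lift H₀ hinv, hH₀.quotient_lift hinv, ?_, ?_⟩
  · have hr : range (Quotient.lift H₀ hinv) = range A := by
      apply Subset.antisymm
      · rintro _ ⟨z, rfl⟩
        induction z using Quotient.inductionOn with
        | h a => exact ⟨_, rfl⟩
      · rintro _ ⟨⟨s, t⟩, rfl⟩
        rcases eq_or_lt_of_le t.2.2 with h | h
        · have ht : t = 1 := Subtype.ext h
          subst ht
          refine ⟨Quotient.mk (ppSetoid p) (0, (s : ℝ)), ?_⟩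
          show A (projIcc 0 1 zero_le_one (s : ℝ), projIcc 0 1 zero_le_one (Int.fract 0)) = _
          rw [projIcc_val, Int.fract_zero, projIcc_left]
          exact (hAl _).trans (hAr _).symm
        · refine ⟨Quotient.mk (ppSetoid p) ((t : ℝ), (s : ℝ)), ?_⟩
          show A (projIcc 0 1 zero_le_one (s : ℝ),
            projIcc 0 1 zero_le_one (Int.fract (t : ℝ))) = _
          rw [projIcc_val, Int.fract_eq_self.2 ⟨t.2.1, h⟩, projIcc_val]
    rw [hr]
    exact isCompact_range A.continuous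
  · intro t
    show H₀ ((t : ℝ) / p, 0) = γ t
    rw [hlow 0 _ le_rfl, ← hΓ]
    congr 1
    field_simp

theorem cs_eq_of_coe {n : ℕ} (hn : n ≠ 0) {s t : ℝ}
    (h : ((s : ℝ) : AddCircle (1 : ℝ)) = ((t : ℝ) : AddCircle (1 : ℝ))) : cs n s = cs n t := by
  have hn' : (n : ℝ) ≠ 0 := Nat.cast_ne_zero.2 hn
  rw [← sub_eq_zero, ← AddCircle.coe_sub, AddCircle.coe_eq_zero_iff] at h
  obtain ⟨m, hm⟩ := h
  rw [zsmul_eq_mul, mul_one] at hm
  apply Quotient.sound (s := psSetoid n)
  refine ⟨rfl, Or.inr ⟨le_rfl, m, ?_⟩⟩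
  show (n : ℝ) * (s / n - t / n) = m
  rw [hm]
  field_simp

/-- A lifted curve is pushed down to the singular circle. -/
theorem hol_homotopic {X : Type*} [TopologicalSpace X] {n : ℕ} (hn : n ≠ 0) (H : PP n → X)
    (hH : Continuous H) {u u' : ℝ} {k : ℤ} (w : Path (cs n u) (cs n u')) (θ : Path u (u' + k))
    (hθ : ∀ r, ((θ r : ℝ) : AddCircle (1 : ℝ)) = ang n (w r))
    (hΓ : Continuous fun t : ℝ => H (psPi n (cs n t)))
    (hk : H (psPi n (cs n u')) = H (psPi n (cs n (u' + k)))) :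
    (w.map (f := fun z => H (psPi n z)) (hH.comp (continuous_psPi n))).Homotopic
      ((θ.map (f := fun t : ℝ => H (psPi n (cs n t))) hΓ).cast rfl hk) := by
  have hwd : ∀ τ : I, ∀ a b : ℝ × ℝ, (psSetoid n).r a b →
      H (ppMk n (a.1, (1 - (τ : ℝ)) * a.2)) = H (ppMk n (b.1, (1 - (τ : ℝ)) * b.2)) := by
    rintro τ a b ⟨h, h'⟩
    congr 1
    apply Quotient.sound (s := ppSetoid n)
    refine ⟨by show (1 - (τ : ℝ)) * a.2 = (1 - (τ : ℝ)) * b.2; rw [h], ?_⟩
    rcases h' with h' | ⟨h0, h'⟩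
    · exact Or.inl h'
    · exact Or.inr (Or.inl ⟨mul_nonpos_of_nonneg_of_nonpos (sub_nonneg.2 τ.2.2) h0, h'⟩)
  let G : PS n × I → X := fun z => Quotient.lift
    (fun a : ℝ × ℝ => H (ppMk n (a.1, (1 - (z.2 : ℝ)) * a.2))) (hwd z.2) z.1
  have hG : Continuous G := by
    refine (isQuotientMap_psMk n).continuous_lift_prod_left ?_
    show Continuous fun z : (ℝ × ℝ) × I => H (ppMk n (z.1.1, (1 - (z.2 : ℝ)) * z.1.2))
    exact hH.comp ((continuous_ppMk n).comp (by fun_prop))
  have hGmk : ∀ (a : ℝ × ℝ) (τ : I), G (psMk n a, τ) = H (ppMk n (a.1, (1 - (τ : ℝ)) * a.2)) :=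
    fun a τ => rfl
  have hGcs : ∀ (t : ℝ) (τ : I), G (cs n t, τ) = H (psPi n (cs n t)) := by
    intro t τ
    show G (psMk n (t / n, 0), τ) = H (ppMk n (t / n, 0))
    rw [hGmk, mul_zero]
  refine ⟨⟨⟨⟨fun z : I × I => G (w z.2, z.1), by fun_prop⟩, ?_, ?_⟩, ?_⟩⟩
  · intro r
    show G (w r, 0) = H (psPi n (w r))
    generalize w r = z
    induction z using Quotient.inductionOn with
    | h a =>
      show H (ppMk n (a.1, (1 - ((0 : I) : ℝ)) * a.2)) = H (ppMk n a)
      simp
  · intro r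
    show G (w r, 1) = H (psPi n (cs n (θ r)))
    have h1 := hθ r
    generalize w r = z at h1
    induction z using Quotient.inductionOn with
    | h a =>
      have h2 : cs n (θ r) = cs n (n * a.1) := cs_eq_of_coe hn h1
      rw [h2]
      have hn' : (n : ℝ) ≠ 0 := Nat.cast_ne_zero.2 hn
      show H (ppMk n (a.1, (1 - ((1 : I) : ℝ)) * a.2)) = H (ppMk n (n * a.1 / n, 0))
      rw [mul_div_cancel_left₀ _ hn']
      simp
  · intro τ r hr
    rcases hr with rfl | hr
    · show G (w 0, τ) = H (psPi n (w 0))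
      rw [w.source]
      exact hGcs u τ
    · rw [mem_singleton_iff] at hr
      subst hr
      show G (w 1, τ) = H (psPi n (w 1))
      rw [w.target]
      exact hGcs u' τ

/-- The class of a loop of holonomy `j` is the conjugate of the `j`-th power. -/
theorem conj_of_hol {X : Type*} [TopologicalSpace X] {x : X} (γ : Path x x) {n : ℕ} (hn : n ≠ 0)
    (H : PP n → X) (hH : Continuous H) (hγ : ∀ t : I, H (psPi n (cs n t)) = γ t)
    {S : Set (PP n)} {u : ℝ} {j : ℕ} (h : Hol n S u u (j : ℤ)) :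
    ∃ (y : X) (δ : Path y y) (β : Path x y), (∀ t, δ t ∈ H '' S) ∧
      FundamentalGroup.fromPath (Path.Homotopic.Quotient.mk ((β.trans δ).trans β.symm)) =
        (FundamentalGroup.fromPath (Path.Homotopic.Quotient.mk γ)) ^ j := by
  obtain ⟨w, θ, hw, hθ⟩ := h
  have hΓc : Continuous fun t : ℝ => H (psPi n (cs n t)) :=
    hH.comp ((continuous_psPi n).comp (continuous_cs n))
  let Γ : C(ℝ, X) := ⟨fun t : ℝ => H (psPi n (cs n t)), hΓc⟩
  have hper : ∀ t : ℝ, Γ (t + 1) = Γ t := by
    intro t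
    show H (psPi n (cs n (t + 1))) = H (psPi n (cs n t))
    rw [cs_add_one hn]
  have hperj : ∀ t : ℝ, Γ (t + j) = Γ t := by
    intro t
    have := Function.Periodic.nat_mul (f := Γ) hper j t
    simpa using this
  have h0 : Γ 0 = x := by
    have := hγ 0
    show H (psPi n (cs n ((0 : I) : ℝ))) = x
    rw [this]; simp
  have hk : H (psPi n (cs n u)) = H (psPi n (cs n (u + ((j : ℤ) : ℝ)))) := by
    have := hperj u
    show Γ u = Γ (u + ((j : ℤ) : ℝ))
    rw [← this]
    push_cast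
    rfl
  have hhom := hol_homotopic hn H hH w θ hθ hΓc hk
  let e₁ : Path (0 : ℝ) u :=
    { toFun := fun r => (r : ℝ) * u
      continuous_toFun := by fun_prop
      source' := by simp
      target' := by simp }
  let e₃ : Path (u + ((j : ℤ) : ℝ)) (j : ℝ) :=
    { toFun := fun r => (1 - (r : ℝ)) * u + j
      continuous_toFun := by fun_prop
      source' := by simp
      target' := by simp }
  let β : Path x (Γ u) := (e₁.map Γ.continuous).cast h0.symm rfl
  let δ : Path (Γ u) (Γ u) := w.map (f := fun z => H (psPi n z)) (hH.comp (continuous_psPi n))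
  let δ' : Path (Γ u) (Γ u) := (θ.map Γ.continuous).cast rfl hk
  have hδ : δ.Homotopic δ' := hhom
  refine ⟨Γ u, δ, β, fun t => ⟨_, hw t, rfl⟩, ?_⟩
  have hΓγ : ∀ t : I, Γ (t : ℝ) = γ t := hγ
  rw [pow_eq_powLoop γ Γ hΓγ hper h0 j]
  congr 1
  rw [Path.Homotopic.Quotient.eq]
  have h1 : ((β.trans δ).trans β.symm).Homotopic ((β.trans δ').trans β.symm) :=
    ((Path.Homotopic.refl β).hcomp hδ).hcomp (Path.Homotopic.refl _)
  refine h1.trans ?_
  have h2 : ((e₁.trans θ).trans e₃).Homotopic (segPath j) :=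
    SimplyConnectedSpace.paths_homotopic _ _
  have h3 := (h2.map Γ).pathCast h0.symm (periodic_nat hper h0 j).symm
  have h4 : (β.trans δ').trans β.symm = (((e₁.trans θ).trans e₃).map Γ.continuous).cast h0.symm
      (periodic_nat hper h0 j).symm := by
    ext t
    rw [Path.cast_coe, Path.map_coe, Function.comp_apply, Path.trans_apply, Path.trans_apply]
    split_ifs with ht
    · rw [Path.trans_apply, Path.trans_apply]
      split_ifs with ht'
      · rfl
      · rfl
    · show Γ ((unitInterval.symm _ : I) * u) = Γ ((1 - _) * u + j)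
      rw [hperj]
      rfl
  rw [h4]
  exact h3

end Pool.Agent.Work.MP_71c2fc_gt
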