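import Pool.Agent.Work.MP_71c2fc_gt.Assemble
import Pool.Agent.Work.MP_71c2fc_gt.Free

set_option autoImplicit false

open Set Filter Topology
open scoped unitInterval

universe u v w

namespace Pool.Agent.Work.MP_71c2fc_gt

/-- The union of the convex hulls of the images of the connected subsets of `K` on which `h` is
constant. -/
def Hulls {T : Type w} [TopologicalSpace T] {E : Type u} [NormedAddCommGroup E] [NormedSpace ℝ E]
    {M : Type v} (j : T → E) (h : T → M) (K : Set T) : Set E :=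
  {e | ∃ C ⊆ K, IsPreconnected C ∧ (∀ a ∈ C, ∀ b ∈ C, h a = h b) ∧ e ∈ convexHull ℝ (j '' C)}

/-- The data of a fibred set. -/
def FibredAux {T : Type w} [TopologicalSpace T] (K : Set T) : Prop :=
  ∃ (E : Type u) (_ : NormedAddCommGroup E) (_ : NormedSpace ℝ E) (j : T → E) (ρ : E → T)
    (M : Type v) (_ : MetricSpace M) (h : T → M),
    ContinuousOn j K ∧ ContinuousOn h K ∧ ThinCover (h '' K) ∧ (∀ a ∈ K, ρ (j a) = a) ∧
      ContinuousOn ρ (Hulls j h K)

theorem image_subset_hulls {T : Type w} [TopologicalSpace T] {E : Type u} [NormedAddCommGroup E]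
    [NormedSpace ℝ E] {M : Type v} (j : T → E) (h : T → M) (K : Set T) : j '' K ⊆ Hulls j h K := by
  rintro _ ⟨a, ha, rfl⟩
  refine ⟨{a}, singleton_subset_iff.2 ha, isPreconnected_singleton, ?_, ?_⟩
  · rintro b rfl c rfl
    rfl
  · exact subset_convexHull ℝ _ ⟨a, rfl, rfl⟩

/-- A closed curve in a space over which circle-valued maps lift becomes nullhomotopic under every
map onto a fibred compact set. -/
theorem null_of_fibred {T : Type w} [TopologicalSpace T] {P : Type*} [TopologicalSpace P]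
    [LocallyConnectedSpace P] (hP : LiftsCircle P) (H : P → T) (hH : Continuous H)
    (hHK : IsCompact (range H)) (hK : FibredAux.{u, v, w} (range H)) (c : ℝ → P)
    (hc : Continuous c) (hc01 : c 0 = c 1) {x : T} (γ : Path x x)
    (hγ : ∀ t : I, H (c t) = γ t) : γ.Homotopic (Path.refl x) := by
  classical
  obtain ⟨E, _, _, j, ρ, M, _, h, hj, hh, hthin, hρj, hρ⟩ := hK
  have hHm : ∀ z, H z ∈ range H := fun z => ⟨z, rfl⟩
  have hjH : Continuous (fun z => j (H z)) := hj.comp_continuous hH hHm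
  have hrange : range (fun z => j (H z)) = j '' range H := by
    rw [← range_comp]; rfl
  have hKc : IsCompact (range fun z => j (H z)) := by
    rw [hrange]
    exact hHK.image_of_continuousOn hj
  have hsub : range (fun z => j (H z)) ⊆ Hulls j h (range H) := by
    rw [hrange]; exact image_subset_hulls j h _
  have hmaps : ∀ e ∈ range (fun z => j (H z)), ρ e ∈ range H ∧ j (ρ e) = e := by
    rintro _ ⟨z, rfl⟩
    show ρ (j (H z)) ∈ _ ∧ j (ρ (j (H z))) = j (H z)
    rw [hρj _ (hHm z)]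
    exact ⟨hHm z, rfl⟩
  have hρr : ContinuousOn ρ (range fun z => j (H z)) := hρ.mono hsub
  have hh'c : ContinuousOn (fun e => h (ρ e)) (range fun z => j (H z)) :=
    hh.comp hρr (fun e he => (hmaps e he).1)
  have himg : (fun e => h (ρ e)) '' (range fun z => j (H z)) = h '' range H := by
    rw [hrange, image_image]
    refine image_congr ?_
    intro a ha
    show h (ρ (j a)) = h a
    rw [hρj a ha]
  obtain ⟨G, hG, hGX, hGp, hGc⟩ := exists_filling hP (fun z => j (H z)) hjH hKc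
    (fun e => h (ρ e)) hh'c (by rw [himg]; exact hthin) (Hulls j h (range H)) (by
      intro C' hC' hpre hconst
      have h1 : ρ '' C' ⊆ range H := by
        rintro _ ⟨e, he, rfl⟩
        exact (hmaps e (hC' he)).1
      have h2 : C' = j '' (ρ '' C') := by
        rw [image_image]
        ext e
        constructor
        · intro he
          exact ⟨e, he, (hmaps e (hC' he)).2⟩
        · rintro ⟨e', he', rfl⟩
          show j (ρ e') ∈ C'
          rw [(hmaps e' (hC' he')).2]
          exact he'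
      intro e he
      refine ⟨ρ '' C', h1, hpre.image _ (hρr.mono hC'), ?_, ?_⟩
      · rintro _ ⟨a, ha, rfl⟩ _ ⟨b, hb, rfl⟩
        exact hconst a ha b hb
      · rw [← h2]; exact he) c hc hc01
  have hDom : ∀ z : I × I, ((z.2 : ℝ), (1 - (z.1 : ℝ)) * (z.2 : ℝ) ^ 2 + (z.1 : ℝ) * (z.2 : ℝ))
      ∈ Dom := by
    rintro ⟨t, s⟩
    have h1 := s.2.1
    have h2 := s.2.2
    have h3 := t.2.1
    have h4 := t.2.2
    have h5 : (0 : ℝ) ≤ (s : ℝ) - (s : ℝ) ^ 2 := by nlinarith
    constructor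
    · show (s : ℝ) ^ 2 ≤ (1 - (t : ℝ)) * (s : ℝ) ^ 2 + (t : ℝ) * (s : ℝ)
      nlinarith [mul_nonneg h3 h5]
    · show (1 - (t : ℝ)) * (s : ℝ) ^ 2 + (t : ℝ) * (s : ℝ) ≤ (s : ℝ)
      nlinarith [mul_nonneg (sub_nonneg.2 h4) h5]
  have hc0x : H (c 0) = x := by
    have := hγ 0
    rw [show ((0 : I) : ℝ) = 0 from rfl] at this
    rw [this]; simp
  let F : I × I → T := fun z => ρ (G ((z.2 : ℝ),
    (1 - (z.1 : ℝ)) * (z.2 : ℝ) ^ 2 + (z.1 : ℝ) * (z.2 : ℝ)))
  have hFc : Continuous F := by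
    refine hρ.comp_continuous (hG.comp_continuous (by fun_prop) hDom) ?_
    intro z
    exact hGX _ (hDom z)
  have hρH : ∀ z, ρ (j (H z)) = H z := fun z => hρj _ (hHm z)
  refine ⟨⟨⟨⟨F, hFc⟩, ?_, ?_⟩, ?_⟩⟩
  · intro s
    show ρ (G ((s : ℝ), (1 - ((0 : I) : ℝ)) * (s : ℝ) ^ 2 + ((0 : I) : ℝ) * (s : ℝ))) = γ s
    rw [show (1 - ((0 : I) : ℝ)) * (s : ℝ) ^ 2 + ((0 : I) : ℝ) * (s : ℝ) = (s : ℝ) ^ 2 by
      simp, hGp s s.2, hρH, hγ]
  · intro s
    show ρ (G ((s : ℝ), (1 - ((1 : I) : ℝ)) * (s : ℝ) ^ 2 + ((1 : I) : ℝ) * (s : ℝ))) = x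
    rw [show (1 - ((1 : I) : ℝ)) * (s : ℝ) ^ 2 + ((1 : I) : ℝ) * (s : ℝ) = (s : ℝ) by
      simp, hGc s s.2, hρH, hc0x]
  · intro t s hs
    rcases hs with rfl | hs
    · show ρ (G (((0 : I) : ℝ), (1 - (t : ℝ)) * ((0 : I) : ℝ) ^ 2 + (t : ℝ) * ((0 : I) : ℝ))) =
        γ 0
      have h1 := hGc 0 ⟨le_rfl, zero_le_one⟩
      simp only [Icc.coe_zero, ne_eq, OfNat.ofNat_ne_zero, not_false_eq_true, zero_pow,
        mul_zero, add_zero, Path.source]
      rw [h1, hρH, hc0x]
    · rw [mem_singleton_iff] at hs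
      subst hs
      show ρ (G (((1 : I) : ℝ), (1 - (t : ℝ)) * ((1 : I) : ℝ) ^ 2 + (t : ℝ) * ((1 : I) : ℝ))) =
        γ 1
      have h1 := hGc 1 ⟨zero_le_one, le_rfl⟩
      simp only [Icc.coe_one, one_pow, mul_one, sub_add_cancel, Path.target]
      rw [h1, hρH, hc0x]

/-- If every compact subset of `T` can be deformed in `T` onto a fibred compact set, then the
fundamental groups of `T` are torsion-free. -/
theorem torsionFree_of_fibred {T : Type w} [TopologicalSpace T]
    (hX : ∀ K : Set T, IsCompact K → ∃ D : T × I → T, ContinuousOn D (K ×ˢ univ) ∧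
      (∀ a ∈ K, D (a, 0) = a) ∧ FibredAux.{u, v, w} ((fun a => D (a, 1)) '' K))
    (x : T) (g : FundamentalGroup T x) (hg : IsOfFinOrder g) : g = 1 := by
  classical
  obtain ⟨p, hp, hgp⟩ := isOfFinOrder_iff_pow_eq_one.1 hg
  obtain ⟨γ, rfl⟩ := Path.Homotopic.Quotient.mk_surjective g
  obtain ⟨H, hH, hHK, c, hc, hc01, hcγ⟩ := exists_PP_map γ hp.ne' hgp
  obtain ⟨D, hD, hD0, hfib⟩ := hX (range H) hHK
  have hD1 : ContinuousOn (fun a => D (a, 1)) (range H) :=
    hD.comp (by fun_prop) (fun a ha => ⟨ha, mem_univ _⟩)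
  have hr : (fun a => D (a, 1)) '' range H = range (fun z => D (H z, 1)) := by
    rw [← range_comp]; rfl
  have hH' : Continuous (fun z => D (H z, 1)) := hD1.comp_continuous hH (fun z => ⟨z, rfl⟩)
  have hγr : ∀ s, γ s ∈ range H := fun s => ⟨c s, hcγ s⟩
  have hFc : Continuous (fun z : I × I => D (γ z.2, z.1)) :=
    hD.comp_continuous (by fun_prop) (fun z => ⟨hγr _, mem_univ _⟩)
  let γ' : Path (D (x, 1)) (D (x, 1)) :=
    { toFun := fun s => D (γ s, 1)
      continuous_toFun := hFc.comp (f := fun s : I => ((1 : I), s)) (by fun_prop)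
      source' := by simp
      target' := by simp }
  have hnull : γ'.Homotopic (Path.refl _) := by
    refine null_of_fibred (liftsCircle_PP hp.ne') (fun z => D (H z, 1)) hH' ?_ ?_ c hc hc01 γ' ?_
    · rw [← hr]
      exact hHK.image_of_continuousOn hD1
    · rw [← hr]; exact hfib
    · intro t
      show D (H (c t), 1) = D (γ t, 1)
      rw [hcγ]
  have hhom : γ.Homotopic (Path.refl x) := by
    refine null_of_free γ γ' ⟨fun z : I × I => D (γ z.2, z.1), hFc⟩ ?_ ?_ ?_ hnull
    · intro s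
      exact hD0 _ (hγr s)
    · intro s
      rfl
    · intro t
      show D (γ 0, t) = D (γ 1, t)
      simp
  show Path.Homotopic.Quotient.mk γ = Path.Homotopic.Quotient.refl x
  rw [← Path.Homotopic.Quotient.mk_refl, Path.Homotopic.Quotient.eq]
  exact hhom

end Pool.Agent.Work.MP_71c2fc_gt
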