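import Mathlib

set_option autoImplicit false

open Set

namespace Pool.Agent.Work.MP_71c2fc_gt

/-- Two finitely supported nonnegative weights on the line with the same total mass, mean and
second moment, whose supports do not cross, are equal. -/
theorem eq_of_noncrossing (μ ν : ℝ →₀ ℝ) (hμ : ∀ p, 0 ≤ μ p) (hν : ∀ p, 0 ≤ ν p)
    (hQ : ∀ a b c : ℝ, Finsupp.linearCombination ℝ (fun p : ℝ => a + b * p + c * p ^ 2) μ
      = Finsupp.linearCombination ℝ (fun p : ℝ => a + b * p + c * p ^ 2) ν)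
    (hnc : ∀ a ∈ μ.support, ∀ a' ∈ μ.support, ∀ b ∈ ν.support, ∀ b' ∈ ν.support,
      ¬ (a < b ∧ b < a' ∧ a' < b') ∧ ¬ (b < a ∧ a < b' ∧ b' < a')) : μ = ν := by
  classical
  by_contra hne
  set ρ : ℝ →₀ ℝ := μ - ν with hρ
  have hρ0 : ρ ≠ 0 := sub_ne_zero.2 hne
  have hQ' : ∀ a b c : ℝ, ∑ p ∈ ρ.support, ρ p * (a + b * p + c * p ^ 2) = 0 := by
    intro a b c
    have h1 : Finsupp.linearCombination ℝ (fun p : ℝ => a + b * p + c * p ^ 2) ρ = 0 := by
      rw [hρ, map_sub, hQ, sub_self]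
    rw [Finsupp.linearCombination_apply, Finsupp.sum] at h1
    simpa [smul_eq_mul] using h1
  set A := ρ.support.filter (fun p => 0 < ρ p) with hA
  set B := ρ.support.filter (fun p => ρ p < 0) with hB
  have hAμ : ∀ p ∈ A, p ∈ μ.support := by
    intro p hp
    rw [hA, Finset.mem_filter] at hp
    have h1 : ρ p = μ p - ν p := by rw [hρ]; rfl
    have h2 := hν p
    rw [Finsupp.mem_support_iff]
    intro h3
    have := hp.2
    rw [h1, h3] at this
    linarith
  have hBν : ∀ p ∈ B, p ∈ ν.support := by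
    intro p hp
    rw [hB, Finset.mem_filter] at hp
    have h1 : ρ p = μ p - ν p := by rw [hρ]; rfl
    have h2 := hμ p
    rw [Finsupp.mem_support_iff]
    intro h3
    have := hp.2
    rw [h1, h3] at this
    linarith
  -- a quadratic which is of the right sign on `A` and `B`
  have key : ∀ a b c : ℝ, (∀ p ∈ A, 0 ≤ a + b * p + c * p ^ 2) →
      (∀ p ∈ B, a + b * p + c * p ^ 2 ≤ 0) →
      ((∃ p ∈ A, 0 < a + b * p + c * p ^ 2) ∨ (∃ p ∈ B, a + b * p + c * p ^ 2 < 0)) → False := by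
    intro a b c h1 h2 h3
    have hnn : ∀ p ∈ ρ.support, 0 ≤ ρ p * (a + b * p + c * p ^ 2) := by
      intro p hp
      rcases lt_trichotomy (ρ p) 0 with h | h | h
      · exact mul_nonneg_of_nonpos_of_nonpos h.le (h2 p (Finset.mem_filter.2 ⟨hp, h⟩))
      · rw [h, zero_mul]
      · exact mul_nonneg h.le (h1 p (Finset.mem_filter.2 ⟨hp, h⟩))
    have hz := (Finset.sum_eq_zero_iff_of_nonneg hnn).1 (hQ' a b c)
    rcases h3 with ⟨p, hp, hpos⟩ | ⟨p, hp, hneg⟩
    · rw [hA, Finset.mem_filter] at hp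
      have := hz p hp.1
      have h4 := mul_pos hp.2 hpos
      linarith
    · rw [hB, Finset.mem_filter] at hp
      have := hz p hp.1
      have h4 := mul_pos_of_neg_of_neg hp.2 hneg
      linarith
  have hAne : A.Nonempty := by
    by_contra hA0
    rw [Finset.not_nonempty_iff_eq_empty] at hA0
    apply key (-1) 0 0
    · intro p hp; rw [hA0] at hp; simp at hp
    · intro p hp; norm_num
    · right
      obtain ⟨p, hp⟩ := Finsupp.support_nonempty_iff.2 hρ0
      refine ⟨p, ?_, by norm_num⟩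
      rw [hB, Finset.mem_filter]
      refine ⟨hp, ?_⟩
      rcases lt_trichotomy (ρ p) 0 with h | h | h
      · exact h
      · exact absurd h (Finsupp.mem_support_iff.1 hp)
      · have hpA : p ∈ A := Finset.mem_filter.2 ⟨hp, h⟩
        rw [hA0] at hpA
        simp at hpA
  have hBne : B.Nonempty := by
    by_contra hB0
    rw [Finset.not_nonempty_iff_eq_empty] at hB0
    apply key 1 0 0
    · intro p hp; norm_num
    · intro p hp; rw [hB0] at hp; simp at hp
    · left
      obtain ⟨p, hp⟩ := hAne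
      exact ⟨p, hp, by norm_num⟩
  have hdisj : ∀ p ∈ A, ∀ q ∈ B, p ≠ q := by
    intro p hp q hq h
    subst h
    rw [hA, Finset.mem_filter] at hp
    rw [hB, Finset.mem_filter] at hq
    linarith [hp.2, hq.2]
  set a₀ := A.min' hAne
  set a₁ := A.max' hAne
  have ha₀ : a₀ ∈ A := A.min'_mem hAne
  have ha₁ : a₁ ∈ A := A.max'_mem hAne
  have hAle : ∀ p ∈ A, a₀ ≤ p ∧ p ≤ a₁ := fun p hp => ⟨A.min'_le p hp, A.le_max' p hp⟩
  by_cases hcase : ∃ b ∈ B, a₀ < b ∧ b < a₁
  · obtain ⟨b, hb, hb0, hb1⟩ := hcase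
    have hBin : ∀ q ∈ B, a₀ < q ∧ q < a₁ := by
      intro q hq
      constructor
      · by_contra hlt
        push Not at hlt
        have hlt' : q < a₀ := lt_of_le_of_ne hlt (fun h => hdisj a₀ ha₀ q hq h.symm)
        exact (hnc a₀ (hAμ _ ha₀) a₁ (hAμ _ ha₁) q (hBν _ hq) b (hBν _ hb)).2 ⟨hlt', hb0, hb1⟩
      · by_contra hlt
        push Not at hlt
        have hlt' : a₁ < q := lt_of_le_of_ne hlt (hdisj a₁ ha₁ q hq)
        exact (hnc a₀ (hAμ _ ha₀) a₁ (hAμ _ ha₁) b (hBν _ hb) q (hBν _ hq)).1 ⟨hb0, hb1, hlt'⟩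
    set b₀ := B.min' hBne
    set b₁ := B.max' hBne
    have hb₀ : b₀ ∈ B := B.min'_mem hBne
    have hb₁ : b₁ ∈ B := B.max'_mem hBne
    have hBle : ∀ p ∈ B, b₀ ≤ p ∧ p ≤ b₁ := fun p hp => ⟨B.min'_le p hp, B.le_max' p hp⟩
    have hAout : ∀ p ∈ A, p < b₀ ∨ b₁ < p := by
      intro p hp
      by_contra hcon
      push Not at hcon
      have h1 : b₀ < p := lt_of_le_of_ne hcon.1 (fun h => hdisj p hp b₀ hb₀ h.symm)
      have h2 : p < b₁ := lt_of_le_of_ne hcon.2 (hdisj p hp b₁ hb₁)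
      exact (hnc a₀ (hAμ _ ha₀) p (hAμ _ hp) b₀ (hBν _ hb₀) b₁ (hBν _ hb₁)).1
        ⟨(hBin b₀ hb₀).1, h1, h2⟩
    have hb01 : b₀ ≤ b₁ := (hBle b₀ hb₀).2
    apply key (b₀ * b₁) (-(b₀ + b₁)) 1
    · intro p hp
      have : b₀ * b₁ + -(b₀ + b₁) * p + 1 * p ^ 2 = (p - b₀) * (p - b₁) := by ring
      rw [this]
      rcases hAout p hp with h | h
      · exact mul_nonneg_of_nonpos_of_nonpos (by linarith) (by linarith)
      · exact mul_nonneg (by linarith) (by linarith)
    · intro p hp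
      have : b₀ * b₁ + -(b₀ + b₁) * p + 1 * p ^ 2 = (p - b₀) * (p - b₁) := by ring
      rw [this]
      exact mul_nonpos_of_nonneg_of_nonpos (by linarith [(hBle p hp).1])
        (by linarith [(hBle p hp).2])
    · left
      refine ⟨a₀, ha₀, ?_⟩
      have : b₀ * b₁ + -(b₀ + b₁) * a₀ + 1 * a₀ ^ 2 = (a₀ - b₀) * (a₀ - b₁) := by ring
      rw [this]
      rcases hAout a₀ ha₀ with h | h
      · exact mul_pos_of_neg_of_neg (by linarith) (by linarith)
      · exact mul_pos (by linarith) (by linarith)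
  · push Not at hcase
    have ha01 : a₀ ≤ a₁ := (hAle a₀ ha₀).2
    have hBout : ∀ q ∈ B, q < a₀ ∨ a₁ < q := by
      intro q hq
      by_contra hcon
      push Not at hcon
      have h1 : a₀ < q := lt_of_le_of_ne hcon.1 (hdisj a₀ ha₀ q hq)
      have h2 : q < a₁ := lt_of_le_of_ne hcon.2 (fun h => hdisj a₁ ha₁ q hq h.symm)
      exact absurd h2 (not_lt.2 (hcase q hq h1))
    apply key (-(a₀ * a₁)) (a₀ + a₁) (-1)
    · intro p hp
      have : -(a₀ * a₁) + (a₀ + a₁) * p + -1 * p ^ 2 = (p - a₀) * (a₁ - p) := by ring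
      rw [this]
      exact mul_nonneg (by linarith [(hAle p hp).1]) (by linarith [(hAle p hp).2])
    · intro p hp
      have : -(a₀ * a₁) + (a₀ + a₁) * p + -1 * p ^ 2 = (p - a₀) * (a₁ - p) := by ring
      rw [this]
      rcases hBout p hp with h | h
      · exact mul_nonpos_of_nonpos_of_nonneg (by linarith) (by linarith)
      · exact mul_nonpos_of_nonneg_of_nonpos (by linarith) (by linarith)
    · right
      obtain ⟨q, hq⟩ := hBne
      refine ⟨q, hq, ?_⟩
      have : -(a₀ * a₁) + (a₀ + a₁) * q + -1 * q ^ 2 = (q - a₀) * (a₁ - q) := by ring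
      rw [this]
      rcases hBout q hq with h | h
      · exact mul_neg_of_neg_of_pos (by linarith) (by linarith)
      · exact mul_neg_of_pos_of_neg (by linarith) (by linarith)

/-- Two triples of reals do not cross. -/
def NonCross (τ τ' : Fin 3 → ℝ) : Prop :=
  ∀ i i' j j', ¬ (τ i < τ' j ∧ τ' j < τ i' ∧ τ i' < τ' j') ∧
    ¬ (τ' j < τ i ∧ τ i < τ' j' ∧ τ' j' < τ i')

theorem NonCross.symm {τ τ' : Fin 3 → ℝ} (h : NonCross τ τ') : NonCross τ' τ :=
  fun i i' j j' => ⟨(h j j' i i').2, (h j j' i i').1⟩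

theorem NonCross.self (τ : Fin 3 → ℝ) : NonCross τ τ := by
  intro i i' j j'
  constructor
  · rintro ⟨h1, h2, h3⟩
    have e1 : i ≠ j := fun h => by subst h; exact lt_irrefl _ h1
    have e2 : j ≠ i' := fun h => by subst h; exact lt_irrefl _ h2
    have e3 : i' ≠ j' := fun h => by subst h; exact lt_irrefl _ h3
    have e4 : i ≠ i' := fun h => by subst h; exact lt_irrefl _ (h1.trans h2)
    have e5 : j ≠ j' := fun h => by subst h; exact lt_irrefl _ (h2.trans h3)
    have e6 : i ≠ j' := fun h => by subst h; exact lt_irrefl _ ((h1.trans h2).trans h3)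
    omega
  · rintro ⟨h1, h2, h3⟩
    have e1 : j ≠ i := fun h => by subst h; exact lt_irrefl _ h1
    have e2 : i ≠ j' := fun h => by subst h; exact lt_irrefl _ h2
    have e3 : j' ≠ i' := fun h => by subst h; exact lt_irrefl _ h3
    have e4 : j ≠ j' := fun h => by subst h; exact lt_irrefl _ (h1.trans h2)
    have e5 : i ≠ i' := fun h => by subst h; exact lt_irrefl _ (h2.trans h3)
    have e6 : j ≠ i' := fun h => by subst h; exact lt_irrefl _ ((h1.trans h2).trans h3)
    omega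

/-- A constant triple crosses nothing. -/
theorem NonCross.const (x : ℝ) (τ : Fin 3 → ℝ) : NonCross (fun _ => x) τ := by
  intro i i' j j'
  constructor
  · rintro ⟨h1, h2, h3⟩; exact lt_irrefl _ (h1.trans h2)
  · rintro ⟨h1, h2, h3⟩; exact lt_irrefl _ (h2.trans h3)

theorem lincomb_sum_single {V : Type*} [AddCommGroup V] [Module ℝ V] (f : ℝ → V)
    (t u : Fin 3 → ℝ) :
    Finsupp.linearCombination ℝ f (∑ i, Finsupp.single (t i) (u i)) = ∑ i, u i • f (t i) := by
  rw [map_sum]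
  refine Finset.sum_congr rfl (fun i _ => ?_)
  rw [Finsupp.linearCombination_single]

/-- The barycentric combination only depends on the moments. -/
theorem comb_eq {V : Type*} [AddCommGroup V] [Module ℝ V] (τ τ' w w' : Fin 3 → ℝ)
    (hw : ∀ i, 0 ≤ w i) (hw' : ∀ i, 0 ≤ w' i)
    (h0 : ∑ i, w i = ∑ i, w' i) (h1 : ∑ i, w i * τ i = ∑ i, w' i * τ' i)
    (h2 : ∑ i, w i * τ i ^ 2 = ∑ i, w' i * τ' i ^ 2) (hnc : NonCross τ τ') (b : ℝ → V) :
    ∑ i, w i • b (τ i) = ∑ i, w' i • b (τ' i) := by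
  classical
  let μ : ℝ →₀ ℝ := ∑ i, Finsupp.single (τ i) (w i)
  let ν : ℝ →₀ ℝ := ∑ i, Finsupp.single (τ' i) (w' i)
  have hnn : ∀ (t u : Fin 3 → ℝ), (∀ i, 0 ≤ u i) → ∀ p,
      0 ≤ (∑ i, Finsupp.single (t i) (u i) : ℝ →₀ ℝ) p := by
    intro t u hu p
    rw [Finsupp.finsetSum_apply]
    refine Finset.sum_nonneg (fun i _ => ?_)
    rw [Finsupp.single_apply]
    split_ifs
    · exact hu i
    · exact le_rfl
  have hsupp : ∀ (t u : Fin 3 → ℝ), ∀ p ∈ (∑ i, Finsupp.single (t i) (u i) : ℝ →₀ ℝ).support,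
      ∃ i, t i = p := by
    intro t u p hp
    rw [Finsupp.mem_support_iff, Finsupp.finsetSum_apply] at hp
    obtain ⟨i, _, hi⟩ := Finset.exists_ne_zero_of_sum_ne_zero hp
    rw [Finsupp.single_apply] at hi
    by_contra hcon
    push Not at hcon
    rw [if_neg (hcon i)] at hi
    exact hi rfl
  have heq : μ = ν := by
    refine eq_of_noncrossing μ ν (hnn τ w hw) (hnn τ' w' hw') ?_ ?_
    · intro a b c
      rw [lincomb_sum_single, lincomb_sum_single]
      simp only [smul_eq_mul]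
      have e : ∀ (t u : Fin 3 → ℝ), ∑ i, u i * (a + b * t i + c * t i ^ 2)
          = a * ∑ i, u i + b * ∑ i, u i * t i + c * ∑ i, u i * t i ^ 2 := by
        intro t u
        simp only [Finset.mul_sum, ← Finset.sum_add_distrib]
        refine Finset.sum_congr rfl (fun i _ => ?_)
        ring
      rw [e, e, h0, h1, h2]
    · intro a ha a' ha' b hb b' hb'
      obtain ⟨i, rfl⟩ := hsupp τ w a ha
      obtain ⟨i', rfl⟩ := hsupp τ w a' ha'
      obtain ⟨j, rfl⟩ := hsupp τ' w' b hb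
      obtain ⟨j', rfl⟩ := hsupp τ' w' b' hb'
      exact hnc i i' j j'
  rw [← lincomb_sum_single b τ w, ← lincomb_sum_single b τ' w']
  exact congrArg _ heq

end Pool.Agent.Work.MP_71c2fc_gt
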