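import Pool.Agent.Work.MP_71c2fc_gt.Ear

set_option autoImplicit false

open Set Filter Topology

namespace Pool.Agent.Work.MP_71c2fc_gt

/-- Every circle-valued map has a real-valued lift. -/
def LiftsCircle (P : Type*) [TopologicalSpace P] : Prop :=
  ∀ φ : P → AddCircle (1 : ℝ), Continuous φ →
    ∃ f : P → ℝ, Continuous f ∧ ∀ z, ((f z : ℝ) : AddCircle (1 : ℝ)) = φ z

section

variable {P : Type*} [TopologicalSpace P] {ι : Type*}

/-- The nodes: components of the members of the cover. -/
@[ext]
structure Node (W : ι → Set P) where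
  /-- the index of the member of the cover -/
  idx : ι
  /-- the component -/
  carrier : Set P
  spec : ∃ z ∈ W idx, carrier = connectedComponentIn (W idx) z

variable {W : ι → Set P}

/-- Two nodes meet. -/
def Node.meets (A B : Node W) : Prop := (A.carrier ∩ B.carrier).Nonempty

/-- The node of a point. -/
def Node.mk' (k : ι) (z : P) (hz : z ∈ W k) : Node W :=
  ⟨k, connectedComponentIn (W k) z, z, hz, rfl⟩

theorem Node.mem_mk' (k : ι) (z : P) (hz : z ∈ W k) : z ∈ (Node.mk' (W := W) k z hz).carrier :=
  mem_connectedComponentIn hz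

theorem Node.subset (A : Node W) : A.carrier ⊆ W A.idx := by
  obtain ⟨k, S, z, hz, rfl⟩ := A
  exact connectedComponentIn_subset _ _

theorem Node.isPreconnected (A : Node W) : IsPreconnected A.carrier := by
  obtain ⟨k, S, z, hz, rfl⟩ := A
  exact isPreconnected_connectedComponentIn

theorem Node.nonempty (A : Node W) : A.carrier.Nonempty := by
  obtain ⟨k, S, z, hz, rfl⟩ := A
  exact ⟨z, mem_connectedComponentIn hz⟩

theorem Node.eq_comp (A : Node W) {z : P} (hz : z ∈ A.carrier) :
    A.carrier = connectedComponentIn (W A.idx) z := by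
  obtain ⟨k, S, z', hz', rfl⟩ := A
  exact connectedComponentIn_eq hz

theorem Node.ext' (A B : Node W) (hk : A.idx = B.idx) (h : A.meets B) : A = B := by
  obtain ⟨z, hzA, hzB⟩ := h
  apply Node.ext
  · exact hk
  · have h1 := A.eq_comp hzA
    have h2 := B.eq_comp hzB
    show A.carrier = B.carrier
    rw [h1, h2, hk]

theorem Node.isOpen [LocallyConnectedSpace P] (hW : ∀ k, IsOpen (W k)) (A : Node W) :
    IsOpen A.carrier := by
  obtain ⟨k, S, z, hz, rfl⟩ := A
  exact (hW k).connectedComponentIn

/-- The cut function across the intersection of two nodes is continuous on the first member. -/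
theorem cut_continuousAt [LocallyConnectedSpace P] {d : ι → P → ℝ} (hd : ∀ k, Continuous (d k))
    (hd0 : ∀ k z, 0 ≤ d k z) (A B : Node (fun k => {z | 0 < d k z}))
    [DecidablePred (· ∈ A.carrier ∩ B.carrier)]
    {z : P} (hz : 0 < d A.idx z) :
    ContinuousAt (fun z => if z ∈ A.carrier ∩ B.carrier
      then d B.idx z / (d A.idx z + d B.idx z) else 0) z := by
  have hWo : ∀ k, IsOpen {z : P | 0 < d k z} := fun k => isOpen_lt continuous_const (hd k)
  by_cases hzO : z ∈ A.carrier ∩ B.carrier
  · have hO : A.carrier ∩ B.carrier ∈ 𝓝 z := ((A.isOpen hWo).inter (B.isOpen hWo)).mem_nhds hzO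
    have h1 : ContinuousAt (fun z => d B.idx z / (d A.idx z + d B.idx z)) z := by
      refine ContinuousAt.div (hd _).continuousAt ((hd _).add (hd _)).continuousAt ?_
      have := hd0 B.idx z
      positivity
    refine h1.congr ?_
    filter_upwards [hO] with y hy
    rw [if_pos hy]
  · by_cases hzl : 0 < d B.idx z
    · -- `z` lies in both members, in another component of one of them
      have hev : ∀ᶠ y in 𝓝 z, y ∉ A.carrier ∩ B.carrier := by
        by_cases hzA : z ∈ A.carrier
        · have hzB : z ∉ B.carrier := fun h => hzO ⟨hzA, h⟩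
          let B' : Node (fun k => {z | 0 < d k z}) := Node.mk' B.idx z hzl
          have hB' : B'.carrier ∈ 𝓝 z := (B'.isOpen hWo).mem_nhds (Node.mem_mk' _ _ _)
          filter_upwards [hB'] with y hy hyO
          have : B' = B := Node.ext' B' B rfl ⟨y, hy, hyO.2⟩
          rw [← this] at hzB
          exact hzB (Node.mem_mk' _ _ _)
        · let A' : Node (fun k => {z | 0 < d k z}) := Node.mk' A.idx z hz
          have hA' : A'.carrier ∈ 𝓝 z := (A'.isOpen hWo).mem_nhds (Node.mem_mk' _ _ _)
          filter_upwards [hA'] with y hy hyO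
          have : A' = A := Node.ext' A' A rfl ⟨y, hy, hyO.1⟩
          rw [← this] at hzA
          exact hzA (Node.mem_mk' _ _ _)
      refine (continuousAt_const (y := (0 : ℝ))).congr ?_
      filter_upwards [hev] with y hy
      rw [if_neg hy]
    · -- the cut function tends to zero
      have hzl0 : d B.idx z = 0 := le_antisymm (not_lt.1 hzl) (hd0 _ _)
      have hval : (if z ∈ A.carrier ∩ B.carrier
          then d B.idx z / (d A.idx z + d B.idx z) else 0) = 0 := by rw [if_neg hzO]
      unfold ContinuousAt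
      dsimp only
      rw [hval]
      have h1 : Tendsto (fun z => d B.idx z / (d A.idx z + d B.idx z)) (𝓝 z) (𝓝 0) := by
        have h2 : ContinuousAt (fun z => d B.idx z / (d A.idx z + d B.idx z)) z := by
          refine ContinuousAt.div (hd _).continuousAt ((hd _).add (hd _)).continuousAt ?_
          have := hd0 B.idx z
          positivity
        have h3 := h2.tendsto
        rwa [hzl0, zero_div] at h3
      refine squeeze_zero' (Eventually.of_forall fun y => ?_) (Eventually.of_forall fun y => ?_) h1
      · split_ifs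
        · exact div_nonneg (hd0 _ _) (add_nonneg (hd0 _ _) (hd0 _ _))
        · exact le_rfl
      · split_ifs
        · exact le_rfl
        · exact div_nonneg (hd0 _ _) (add_nonneg (hd0 _ _) (hd0 _ _))

/-- A real function which is continuous and integer-valued on a preconnected set is constant. -/
theorem eq_of_int_valued {S : Set P} (hS : IsPreconnected S) {f : P → ℝ}
    (hf : ∀ z ∈ S, ContinuousAt f z)
    (hint : ∀ z ∈ S, ((f z : ℝ) : AddCircle (1 : ℝ)) = 0) {a b : P} (ha : a ∈ S) (hb : b ∈ S) :
    f a = f b := by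
  have hT : DiscreteTopology (range ((↑) : ℤ → ℝ)) :=
    (Int.isClosedEmbedding_coe_real.isEmbedding.toHomeomorph).symm.isEmbedding.discreteTopology
  refine hS.constant_of_mapsTo (T := range ((↑) : ℤ → ℝ)) ⟨hT⟩
    (fun z hz => (hf z hz).continuousWithinAt) ?_ ha hb
  intro z hz
  have := hint z hz
  rw [AddCircle.coe_eq_zero_iff] at this
  obtain ⟨n, hn⟩ := this
  exact ⟨n, by rw [← hn]; simp⟩

/-- In a locally connected space over which circle-valued maps lift, every edge of the
intersection graph of the components of a cover of order at most two is a bridge. -/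
theorem node_bridge [LocallyConnectedSpace P] (hP : LiftsCircle P) {d : ι → P → ℝ}
    (hd : ∀ k, Continuous (d k)) (hd0 : ∀ k z, 0 ≤ d k z) (hcov : ∀ z, ∃ k, 0 < d k z)
    (hord : ∀ z k l m, 0 < d k z → 0 < d l z → 0 < d m z → k = l ∨ k = m ∨ l = m)
    (A B : Node (fun k => {z | 0 < d k z})) (hAB : A.meets B) (hne : A ≠ B) :
    ∃ w : Node (fun k => {z | 0 < d k z}) → ℝ, w B = w A + 1 ∧
      ∀ C D, C.meets D → ¬ (C = A ∧ D = B) → ¬ (C = B ∧ D = A) → w C = w D := by
  classical
  have hkl : A.idx ≠ B.idx := fun h => hne (Node.ext' A B h hAB)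
  set O := A.carrier ∩ B.carrier with hO
  set θ₀ : P → ℝ := fun z => if z ∈ A.carrier ∩ B.carrier
    then d B.idx z / (d A.idx z + d B.idx z) else 0 with hθ₀
  set θ₁ : P → ℝ := fun z => -(if z ∈ B.carrier ∩ A.carrier
    then d A.idx z / (d B.idx z + d A.idx z) else 0) with hθ₁
  have hc0 : ∀ z, 0 < d A.idx z → ContinuousAt θ₀ z := fun z hz => cut_continuousAt hd hd0 A B hz
  have hc1 : ∀ z, 0 < d B.idx z → ContinuousAt θ₁ z := fun z hz =>
    (cut_continuousAt hd hd0 B A hz).neg
  have hOA : ∀ z ∈ O, 0 < d A.idx z := fun z hz => A.subset hz.1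
  have hOB : ∀ z ∈ O, 0 < d B.idx z := fun z hz => B.subset hz.2
  have h0off : ∀ z, z ∉ O → θ₀ z = 0 := fun z hz => by
    rw [hθ₀]; exact if_neg hz
  have h1off : ∀ z, z ∉ O → θ₁ z = 0 := fun z hz => by
    rw [hθ₁]
    have : z ∉ B.carrier ∩ A.carrier := fun h => hz ⟨h.2, h.1⟩
    simp only [if_neg this, neg_zero]
  have hdiff : ∀ z ∈ O, θ₀ z - θ₁ z = 1 := by
    intro z hz
    have hz' : z ∈ B.carrier ∩ A.carrier := ⟨hz.2, hz.1⟩
    rw [hθ₀, hθ₁]
    simp only [if_pos hz', if_pos (show z ∈ A.carrier ∩ B.carrier from hz)]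
    have h1 := hOA z hz
    have h2 := hOB z hz
    rw [sub_neg_eq_add, add_comm (d B.idx z) (d A.idx z), ← add_div,
      add_comm (d B.idx z) (d A.idx z), div_self (by positivity)]
  -- the circle-valued map
  let φ : P → AddCircle (1 : ℝ) := fun z => ((θ₀ z : ℝ) : AddCircle (1 : ℝ))
  have hφ1 : ∀ z, φ z = ((θ₁ z : ℝ) : AddCircle (1 : ℝ)) := by
    intro z
    by_cases hz : z ∈ O
    · have h1 : θ₀ z = θ₁ z + 1 := by linarith [hdiff z hz]
      show ((θ₀ z : ℝ) : AddCircle (1 : ℝ)) = _
      rw [h1]
      simp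
    · show ((θ₀ z : ℝ) : AddCircle (1 : ℝ)) = _
      rw [h0off z hz, h1off z hz]
  have hφoff : ∀ z, z ∉ O → φ z = 0 := fun z hz => by
    show ((θ₀ z : ℝ) : AddCircle (1 : ℝ)) = 0
    rw [h0off z hz]; simp
  have hcoe : Continuous ((↑) : ℝ → AddCircle (1 : ℝ)) := AddCircle.continuous_mk' 1
  have hφ : Continuous φ := by
    rw [continuous_iff_continuousAt]
    intro z
    by_cases hzA : 0 < d A.idx z
    · exact ContinuousAt.comp hcoe.continuousAt (hc0 z hzA)
    · by_cases hzB : 0 < d B.idx z
      · have : φ = fun z => ((θ₁ z : ℝ) : AddCircle (1 : ℝ)) := funext hφ1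
        rw [this]
        exact ContinuousAt.comp hcoe.continuousAt (hc1 z hzB)
      · obtain ⟨m, hm⟩ := hcov z
        have hmA : m ≠ A.idx := fun h => hzA (h ▸ hm)
        have hmB : m ≠ B.idx := fun h => hzB (h ▸ hm)
        have hev : ∀ᶠ y in 𝓝 z, y ∉ O := by
          have : {y | 0 < d m y} ∈ 𝓝 z := (isOpen_lt continuous_const (hd m)).mem_nhds hm
          filter_upwards [this] with y hy hyO
          rcases hord y m A.idx B.idx hy (hOA y hyO) (hOB y hyO) with h | h | h
          · exact hmA h
          · exact hmB h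
          · exact hkl h
        refine (continuousAt_const (y := (0 : AddCircle (1 : ℝ)))).congr ?_
        filter_upwards [hev] with y hy
        exact (hφoff y hy).symm
  obtain ⟨f, hf, hfφ⟩ := hP φ hφ
  let ψ : Node (fun k => {z | 0 < d k z}) → P → ℝ := fun C =>
    if C = A then fun z => f z - θ₀ z else if C = B then fun z => f z - θ₁ z else f
  have hψA : ψ A = fun z => f z - θ₀ z := if_pos rfl
  have hψB : ψ B = fun z => f z - θ₁ z := by
    show (if B = A then _ else _) = _
    rw [if_neg hne.symm, if_pos rfl]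
  have hψC : ∀ C, C ≠ A → C ≠ B → ψ C = f := by
    intro C h1 h2
    show (if C = A then _ else _) = _
    rw [if_neg h1, if_neg h2]
  -- points of `O` belong to no other node
  have hOnode : ∀ (C : Node (fun k => {z | 0 < d k z})) (z : P), z ∈ C.carrier → z ∈ O →
      C = A ∨ C = B := by
    intro C z hzC hzO
    rcases hord z C.idx A.idx B.idx (C.subset hzC) (hOA z hzO) (hOB z hzO) with h | h | h
    · exact Or.inl (Node.ext' C A h ⟨z, hzC, hzO.1⟩)
    · exact Or.inr (Node.ext' C B h ⟨z, hzC, hzO.2⟩)
    · exact absurd h hkl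
  have hψcont : ∀ C, ∀ z ∈ C.carrier, ContinuousAt (ψ C) z := by
    intro C z hz
    by_cases hCA : C = A
    · subst hCA
      rw [hψA]
      exact hf.continuousAt.sub (hc0 z (C.subset hz))
    · by_cases hCB : C = B
      · subst hCB
        rw [hψB]
        exact hf.continuousAt.sub (hc1 z (C.subset hz))
      · rw [hψC C hCA hCB]
        exact hf.continuousAt
  have hψint : ∀ C, ∀ z ∈ C.carrier, ((ψ C z : ℝ) : AddCircle (1 : ℝ)) = 0 := by
    intro C z hz
    by_cases hCA : C = A
    · subst hCA
      rw [hψA]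
      show ((f z - θ₀ z : ℝ) : AddCircle (1 : ℝ)) = 0
      rw [AddCircle.coe_sub, hfφ]
      exact sub_self _
    · by_cases hCB : C = B
      · subst hCB
        rw [hψB]
        show ((f z - θ₁ z : ℝ) : AddCircle (1 : ℝ)) = 0
        rw [AddCircle.coe_sub, hfφ, hφ1]
        exact sub_self _
      · rw [hψC C hCA hCB, hfφ]
        apply hφoff
        intro hzO
        rcases hOnode C z hz hzO with h | h
        · exact hCA h
        · exact hCB h
  have hconst : ∀ C, ∀ z ∈ C.carrier, ψ C C.nonempty.some = ψ C z := fun C z hz =>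
    eq_of_int_valued C.isPreconnected (hψcont C) (hψint C) C.nonempty.some_mem hz
  refine ⟨fun C => ψ C C.nonempty.some, ?_, ?_⟩
  · obtain ⟨z, hz⟩ := hAB
    show ψ B _ = ψ A _ + 1
    rw [hconst A z hz.1, hconst B z hz.2, hψA, hψB]
    have := hdiff z hz
    show f z - θ₁ z = f z - θ₀ z + 1
    linarith
  · intro C D hCD h1 h2
    obtain ⟨z, hzC, hzD⟩ := hCD
    show ψ C _ = ψ D _
    by_cases hzO : z ∈ O
    · rcases hOnode C z hzC hzO with hC | hC
      · rcases hOnode D z hzD hzO with hD | hD
        · rw [hC, hD]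
        · exact absurd ⟨hC, hD⟩ h1
      · rcases hOnode D z hzD hzO with hD | hD
        · exact absurd ⟨hC, hD⟩ h2
        · rw [hC, hD]
    · have hval : ∀ E : Node (fun k => {z | 0 < d k z}), ψ E z = f z := by
        intro E
        by_cases hEA : E = A
        · subst hEA
          rw [hψA]
          show f z - θ₀ z = f z
          rw [h0off z hzO, sub_zero]
        · by_cases hEB : E = B
          · subst hEB
            rw [hψB]
            show f z - θ₁ z = f z
            rw [h1off z hzO, sub_zero]
          · rw [hψC E hEA hEB]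
      rw [hconst C z hzC, hconst D z hzD, hval C, hval D]

end

end Pool.Agent.Work.MP_71c2fc_gt
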