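import Pool.Agent.Work.MP_71c2fc_gt.PPlane

set_option autoImplicit false

open Set Filter Topology
open scoped unitInterval

namespace Pool.Agent.Work.MP_71c2fc_gt

/-- The gluing as for the pseudo-projective plane, but without collapsing the upper end. -/
def psSetoid (n : ℕ) : Setoid (ℝ × ℝ) where
  r a b := a.2 = b.2 ∧ ((∃ m : ℤ, a.1 - b.1 = m) ∨ (a.2 ≤ 0 ∧ ∃ m : ℤ, n * (a.1 - b.1) = m))
  iseqv := by
    refine ⟨?_, ?_, ?_⟩
    · intro a
      exact ⟨rfl, Or.inl ⟨0, by simp⟩⟩
    · rintro a b ⟨h, h'⟩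
      refine ⟨h.symm, ?_⟩
      rcases h' with ⟨m, hm⟩ | ⟨h0, m, hm⟩
      · exact Or.inl ⟨-m, by push_cast; linarith⟩
      · exact Or.inr ⟨h ▸ h0, -m, by push_cast; linarith⟩
    · rintro a b c ⟨h, h'⟩ ⟨k, k'⟩
      refine ⟨h.trans k, ?_⟩
      rcases h' with ⟨m, hm⟩ | ⟨h0, m, hm⟩
      · rcases k' with ⟨l, hl⟩ | ⟨k0, l, hl⟩
        · exact Or.inl ⟨m + l, by push_cast; linarith⟩
        · refine Or.inr ⟨h.symm ▸ k0, n * m + l, ?_⟩
          push_cast
          rw [← hm, ← hl]; ring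
      · rcases k' with ⟨l, hl⟩ | ⟨k0, l, hl⟩
        · refine Or.inr ⟨h0, m + n * l, ?_⟩
          push_cast
          rw [← hm, ← hl]; ring
        · refine Or.inr ⟨h0, m + l, ?_⟩
          push_cast
          rw [← hm, ← hl]; ring

/-- The space over the pseudo-projective plane in which the curves are lifted. -/
abbrev PS (n : ℕ) : Type := Quotient (psSetoid n)

instance (n : ℕ) : LocallyPathConnectedSpace (PS n) :=
  inferInstanceAs (LocallyPathConnectedSpace (Quot _))

/-- The class of a point of the plane in `PS n`. -/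
def psMk (n : ℕ) (z : ℝ × ℝ) : PS n := Quotient.mk (psSetoid n) z

/-- The class of a point of the plane in `PP n`. -/
def ppMk (n : ℕ) (z : ℝ × ℝ) : PP n := Quotient.mk (ppSetoid n) z

theorem continuous_psMk (n : ℕ) : Continuous (psMk n) := continuous_quotient_mk'

theorem continuous_ppMk (n : ℕ) : Continuous (ppMk n) := continuous_quotient_mk'

theorem isQuotientMap_psMk (n : ℕ) : IsQuotientMap (psMk n) := isQuotientMap_quotient_mk'

theorem isQuotientMap_ppMk (n : ℕ) : IsQuotientMap (ppMk n) := isQuotientMap_quotient_mk'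

/-- The projection. -/
def psPi (n : ℕ) : PS n → PP n :=
  Quotient.map' id (by
    rintro a b ⟨h, h'⟩
    refine ⟨h, ?_⟩
    rcases h' with h' | h'
    · exact Or.inl h'
    · exact Or.inr (Or.inl h'))

theorem psPi_mk (n : ℕ) (z : ℝ × ℝ) : psPi n (psMk n z) = ppMk n z := rfl

theorem continuous_psPi (n : ℕ) : Continuous (psPi n) := by
  rw [(isQuotientMap_psMk n).continuous_iff]
  exact continuous_ppMk n

theorem isQuotientMap_psPi (n : ℕ) : IsQuotientMap (psPi n) :=
  IsQuotientMap.of_comp (continuous_psMk n) (continuous_psPi n) (isQuotientMap_ppMk n)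

theorem isPreconnected_fibre (n : ℕ) (t : PP n) : IsPreconnected (psPi n ⁻¹' {t}) := by
  induction t using Quotient.inductionOn with
  | h b =>
    by_cases hb : 1 ≤ b.2
    · have : psPi n ⁻¹' {ppMk n b} = (fun a : ℝ => psMk n (a, b.2)) '' univ := by
        ext z
        induction z using Quotient.inductionOn with
        | h a =>
          constructor
          · intro h
            have h1 : ppMk n a = ppMk n b := h
            have h2 : (ppSetoid n).r a b := Quotient.exact h1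
            refine ⟨a.1, mem_univ _, ?_⟩
            show psMk n (a.1, b.2) = psMk n a
            rw [← h2.1]
          · rintro ⟨a', _, ha'⟩
            show psPi n (psMk n a) = ppMk n b
            have h2 : psMk n (a', b.2) = psMk n a := ha'
            rw [← h2, psPi_mk]
            apply Quotient.sound (s := ppSetoid n)
            exact ⟨rfl, Or.inr (Or.inr hb)⟩
      show IsPreconnected (psPi n ⁻¹' {ppMk n b})
      rw [this]
      exact isPreconnected_univ.image _
        ((continuous_psMk n).comp (by fun_prop)).continuousOn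
    · apply Set.Subsingleton.isPreconnected
      intro z hz z' hz'
      induction z using Quotient.inductionOn with
      | h a =>
        induction z' using Quotient.inductionOn with
        | h a' =>
          have h1 : ppMk n a = ppMk n b := hz
          have h1' : ppMk n a' = ppMk n b := hz'
          have h2 : (ppSetoid n).r a a' := Quotient.exact (h1.trans h1'.symm)
          have h3 : (ppSetoid n).r a b := Quotient.exact h1
          apply Quotient.sound (s := psSetoid n)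
          refine ⟨h2.1, ?_⟩
          rcases h2.2 with h | h | h
          · exact Or.inl h
          · exact Or.inr h
          · exact absurd (h3.1 ▸ h) hb

/-- Preimages of open connected sets under the projection are connected. -/
theorem isPreconnected_preimage {n : ℕ} {O : Set (PP n)} (hO : IsOpen O) (hc : IsPreconnected O) :
    IsPreconnected (psPi n ⁻¹' O) := by
  intro U V hU hV hsub hUne hVne
  by_contra hcon
  rw [not_nonempty_iff_eq_empty] at hcon
  have hdisj : ∀ z ∈ psPi n ⁻¹' O, z ∈ U → z ∉ V := by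
    intro z hz hzU hzV
    have : z ∈ psPi n ⁻¹' O ∩ (U ∩ V) := ⟨hz, hzU, hzV⟩
    rw [hcon] at this
    exact this
  have hSo : IsOpen (psPi n ⁻¹' O) := hO.preimage (continuous_psPi n)
  -- fibres lie on one side
  have hfib : ∀ t ∈ O, ∀ z z', psPi n z = t → psPi n z' = t → z ∈ U → z' ∈ U := by
    intro t ht z z' hz hz' hzU
    by_contra hz'U
    have hzS : z ∈ psPi n ⁻¹' O := by rw [mem_preimage, hz]; exact ht
    have hz'S : z' ∈ psPi n ⁻¹' O := by rw [mem_preimage, hz']; exact ht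
    have hz'V : z' ∈ V := (hsub hz'S).resolve_left hz'U
    obtain ⟨a, ha, haU, haV⟩ := isPreconnected_fibre n t U V hU hV (by
      intro a ha
      apply hsub
      rw [mem_preimage, show psPi n a = t from ha]
      exact ht) ⟨z, hz, hzU⟩ ⟨z', hz', hz'V⟩
    exact hdisj a (by rw [mem_preimage, show psPi n a = t from ha]; exact ht) haU haV
  have hsatU : psPi n ⁻¹' (psPi n '' (psPi n ⁻¹' O ∩ U)) = psPi n ⁻¹' O ∩ U := by
    apply Subset.antisymm
    · rintro z ⟨z', ⟨hz'S, hz'U⟩, hzz'⟩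
      have hzS : z ∈ psPi n ⁻¹' O := by
        rw [mem_preimage, ← hzz']; exact hz'S
      exact ⟨hzS, hfib _ hzS z' z hzz' rfl hz'U⟩
    · exact subset_preimage_image _ _
  have hsatV : psPi n ⁻¹' (psPi n '' (psPi n ⁻¹' O ∩ V)) = psPi n ⁻¹' O ∩ V := by
    apply Subset.antisymm
    · rintro z ⟨z', ⟨hz'S, hz'V⟩, hzz'⟩
      have hzS : z ∈ psPi n ⁻¹' O := by
        rw [mem_preimage, ← hzz']; exact hz'S
      refine ⟨hzS, ?_⟩
      by_contra hzV
      have hzU : z ∈ U := (hsub hzS).resolve_right hzV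
      have : z' ∈ U := hfib _ hzS z z' rfl hzz' hzU
      exact hdisj z' hz'S this hz'V
    · exact subset_preimage_image _ _
  have hU' : IsOpen (psPi n '' (psPi n ⁻¹' O ∩ U)) := by
    rw [← (isQuotientMap_psPi n).isOpen_preimage, hsatU]
    exact hSo.inter hU
  have hV' : IsOpen (psPi n '' (psPi n ⁻¹' O ∩ V)) := by
    rw [← (isQuotientMap_psPi n).isOpen_preimage, hsatV]
    exact hSo.inter hV
  obtain ⟨zu, hzu, hzu'⟩ := hUne
  obtain ⟨zv, hzv, hzv'⟩ := hVne
  obtain ⟨t, ht, ⟨z, hz, hzt⟩, ⟨z', hz', hzt'⟩⟩ := hc _ _ hU' hV' (by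
    intro t ht
    obtain ⟨z, rfl⟩ := (isQuotientMap_psPi n).surjective t
    rcases hsub (show z ∈ psPi n ⁻¹' O from ht) with h | h
    · exact Or.inl ⟨z, ⟨ht, h⟩, rfl⟩
    · exact Or.inr ⟨z, ⟨ht, h⟩, rfl⟩) ⟨psPi n zu, hzu, ⟨zu, ⟨hzu, hzu'⟩, rfl⟩⟩
    ⟨psPi n zv, hzv, ⟨zv, ⟨hzv, hzv'⟩, rfl⟩⟩
  have : z' ∈ U := hfib t ht z z' hzt hzt' hz.2
  exact hdisj z' hz'.1 this hz'.2

/-- The angle. -/
noncomputable def ang (n : ℕ) : PS n → AddCircle (1 : ℝ) :=
  Quotient.lift (fun z : ℝ × ℝ => ((n * z.1 : ℝ) : AddCircle (1 : ℝ))) (by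
    rintro a b ⟨h, h'⟩
    show ((n * a.1 : ℝ) : AddCircle (1 : ℝ)) = ((n * b.1 : ℝ) : AddCircle (1 : ℝ))
    rw [← sub_eq_zero, ← AddCircle.coe_sub, AddCircle.coe_eq_zero_iff]
    rcases h' with ⟨m, hm⟩ | ⟨_, m, hm⟩
    · exact ⟨n * m, by rw [zsmul_eq_mul, mul_one]; push_cast; rw [← hm]; ring⟩
    · exact ⟨m, by rw [zsmul_eq_mul, mul_one]; rw [← hm]; ring⟩)

theorem ang_mk (n : ℕ) (z : ℝ × ℝ) : ang n (psMk n z) = ((n * z.1 : ℝ) : AddCircle (1 : ℝ)) := rfl

theorem continuous_ang (n : ℕ) : Continuous (ang n) := by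
  rw [(isQuotientMap_psMk n).continuous_iff]
  show Continuous fun z : ℝ × ℝ => ((n * z.1 : ℝ) : AddCircle (1 : ℝ))
  exact (AddCircle.continuous_mk' 1).comp (by fun_prop)

/-- The point of the singular circle. -/
noncomputable def cs (n : ℕ) (u : ℝ) : PS n := psMk n (u / n, 0)

theorem continuous_cs (n : ℕ) : Continuous (cs n) := (continuous_psMk n).comp (by fun_prop)

theorem ang_cs {n : ℕ} (hn : n ≠ 0) (u : ℝ) : ang n (cs n u) = ((u : ℝ) : AddCircle (1 : ℝ)) := by
  have hn' : (n : ℝ) ≠ 0 := Nat.cast_ne_zero.2 hn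
  show ang n (psMk n (u / n, 0)) = _
  rw [ang_mk]
  congr 1
  field_simp

theorem cs_add_one {n : ℕ} (hn : n ≠ 0) (u : ℝ) : cs n (u + 1) = cs n u := by
  have hn' : (n : ℝ) ≠ 0 := Nat.cast_ne_zero.2 hn
  apply Quotient.sound (s := psSetoid n)
  refine ⟨rfl, Or.inr ⟨le_rfl, 1, ?_⟩⟩
  push_cast
  field_simp
  ring

theorem coe_add_int (t : ℝ) (k : ℤ) : ((t + k : ℝ) : AddCircle (1 : ℝ)) = (t : AddCircle (1 : ℝ)) := by
  rw [AddCircle.coe_add]
  have : ((k : ℝ) : AddCircle (1 : ℝ)) = 0 := by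
    rw [AddCircle.coe_eq_zero_iff]
    exact ⟨k, by simp⟩
  rw [this, add_zero]

/-- There is a curve over `S` from the point `u` to the point `u'` of the singular circle along
which the angle increases by `u' + k - u`. -/
def Hol (n : ℕ) (S : Set (PP n)) (u u' : ℝ) (k : ℤ) : Prop :=
  ∃ (w : Path (cs n u) (cs n u')) (θ : Path u (u' + k)), (∀ r, psPi n (w r) ∈ S) ∧
    ∀ r, ((θ r : ℝ) : AddCircle (1 : ℝ)) = ang n (w r)

theorem Hol.mono {n : ℕ} {S S' : Set (PP n)} {u u' : ℝ} {k : ℤ} (h : Hol n S u u' k)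
    (hS : S ⊆ S') : Hol n S' u u' k := by
  obtain ⟨w, θ, h1, h2⟩ := h
  exact ⟨w, θ, fun r => hS (h1 r), h2⟩

theorem Hol.symm {n : ℕ} {S : Set (PP n)} {u u' : ℝ} {k : ℤ} (h : Hol n S u u' k) :
    Hol n S u' u (-k) := by
  obtain ⟨w, θ, h1, h2⟩ := h
  refine ⟨w.symm, (θ.symm.map (f := fun t : ℝ => t - k) (by fun_prop)).cast (by simp)
    (by push_cast; ring), fun r => h1 _, ?_⟩
  intro r
  show ((θ (unitInterval.symm r) - k : ℝ) : AddCircle (1 : ℝ)) = ang n (w (unitInterval.symm r))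
  rw [← h2, sub_eq_add_neg]
  have := coe_add_int (θ (unitInterval.symm r)) (-k)
  push_cast at this
  exact this

theorem Hol.trans {n : ℕ} {S : Set (PP n)} {u u' u'' : ℝ} {k k' : ℤ} (h : Hol n S u u' k)
    (h' : Hol n S u' u'' k') : Hol n S u u'' (k + k') := by
  obtain ⟨w, θ, h1, h2⟩ := h
  obtain ⟨w', θ', h1', h2'⟩ := h'
  refine ⟨w.trans w', (θ.trans (θ'.map (f := fun t : ℝ => t + k) (by fun_prop))).cast rfl
    (by push_cast; ring), ?_, ?_⟩
  · intro r
    rw [Path.trans_apply]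
    split_ifs
    · exact h1 _
    · exact h1' _
  · intro r
    rw [Path.cast_coe, Path.trans_apply, Path.trans_apply]
    split_ifs
    · exact h2 _
    · rw [← h2', Path.map_coe]
      exact coe_add_int _ _

/-- Real lifts of the angle along a curve. -/
theorem exists_lift {n : ℕ} (hn : n ≠ 0) {u u' : ℝ} (w : Path (cs n u) (cs n u')) :
    ∃ (k : ℤ) (θ : Path u (u' + k)), ∀ r, ((θ r : ℝ) : AddCircle (1 : ℝ)) = ang n (w r) := by
  obtain ⟨F, hF, hFa⟩ := lift_real (fun z => ang n (w (projIcc 0 1 zero_le_one z.1)))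
    ((continuous_ang n).comp (w.continuous.comp (continuous_projIcc.comp continuous_fst)))
  have h0 : ((F (0, 0) : ℝ) : AddCircle (1 : ℝ)) = ((u : ℝ) : AddCircle (1 : ℝ)) := by
    rw [hFa]
    show ang n (w (projIcc 0 1 zero_le_one 0)) = _
    rw [projIcc_left]
    show ang n (w 0) = _
    rw [w.source, ang_cs hn]
  have h1 : ((F (1, 0) : ℝ) : AddCircle (1 : ℝ)) = ((u' : ℝ) : AddCircle (1 : ℝ)) := by
    rw [hFa]
    show ang n (w (projIcc 0 1 zero_le_one 1)) = _
    rw [projIcc_right]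
    show ang n (w 1) = _
    rw [w.target, ang_cs hn]
  rw [← sub_eq_zero, ← AddCircle.coe_sub, AddCircle.coe_eq_zero_iff] at h0 h1
  obtain ⟨m, hm⟩ := h0
  obtain ⟨l, hl⟩ := h1
  rw [zsmul_eq_mul, mul_one] at hm hl
  refine ⟨l - m, { toFun := fun r => F ((r : ℝ), 0) + ((-m : ℤ) : ℝ)
                   continuous_toFun := by fun_prop
                   source' := ?_
                   target' := ?_ }, ?_⟩
  · show F (((0 : I) : ℝ), 0) + _ = u
    push_cast
    linarith
  · show F (((1 : I) : ℝ), 0) + _ = u' + _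
    push_cast
    linarith
  · intro r
    show ((F ((r : ℝ), 0) + ((-m : ℤ) : ℝ) : ℝ) : AddCircle (1 : ℝ)) = _
    rw [coe_add_int, hFa]
    show ang n (w (projIcc 0 1 zero_le_one (r : ℝ))) = ang n (w r)
    rw [projIcc_val]

/-- Two points of the singular circle in an open connected set are joined by a curve over it. -/
theorem exists_Hol {n : ℕ} (hn : n ≠ 0) {O : Set (PP n)} (hO : IsOpen O) (hc : IsPreconnected O)
    {u u' : ℝ} (hu : psPi n (cs n u) ∈ O) (hu' : psPi n (cs n u') ∈ O) :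
    ∃ k, Hol n O u u' k := by
  have h1 := isPreconnected_preimage hO hc
  have h2 : IsOpen (psPi n ⁻¹' O) := hO.preimage (continuous_psPi n)
  have h3 : IsConnected (psPi n ⁻¹' O) := ⟨⟨cs n u, hu⟩, h1⟩
  have h4 := h2.isConnected_iff_isPathConnected.1 h3
  have h5 := h4.joinedIn (cs n u) hu (cs n u') hu'
  obtain ⟨k, θ, hθ⟩ := exists_lift hn h5.somePath
  exact ⟨k, h5.somePath, θ, fun r => h5.somePath_mem r, hθ⟩

end Pool.Agent.Work.MP_71c2fc_gt
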