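import Mathlib

set_option autoImplicit false

open Set Metric Topology
open scoped Manifold ContDiff

namespace Pool.Agent.Work.MP_71c2fc_gt

/-- Smoothing on an open set `W` with a prescribed tolerance `r` which vanishes off `W`. -/
theorem smoothing {D E : Type*} [NormedAddCommGroup D] [NormedSpace ℝ D] [FiniteDimensional ℝ D]
    [NormedAddCommGroup E] [NormedSpace ℝ E]
    {f : D → E} (hf : Continuous f) {W : Set D} (hW : IsOpen W)
    {r : D → ℝ} (hr : Continuous r) (hrW : ∀ z ∈ W, 0 < r z) (hr0 : ∀ z, z ∉ W → r z = 0) :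
    ∃ g : D → E, Continuous g ∧ (∀ z, z ∉ W → g z = f z) ∧ (∀ z ∈ W, ContDiffAt ℝ 1 g z) ∧
      (∀ z ∈ W, dist (g z) (f z) < r z) := by
  classical
  have hps : ProperSpace D := FiniteDimensional.proper_real D
  have hsc : SecondCountableTopology D := inferInstance
  let M : TopologicalSpace.Opens D := ⟨W, hW⟩
  have hlc : LocallyCompactSpace M := hW.locallyCompactSpace
  have hsg : SigmaCompactSpace M := inferInstance
  have key := exists_contMDiffMap_forall_mem_convex_of_local_const (n := 1) (M := M) (F := E)
    𝓘(ℝ, D) (t := fun z : M => ball (f z) (r z)) (fun z => convex_ball _ _) (by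
      intro z
      refine ⟨f z, ?_⟩
      have h1 : Continuous (fun y : M => dist (f z) (f y)) := by fun_prop
      have h2 : Continuous (fun y : M => r y) := by fun_prop
      have h3 : dist (f z) (f z) < r z := by rw [dist_self]; exact hrW z z.2
      have := h1.continuousAt.eventually_lt h2.continuousAt h3
      filter_upwards [this] with y hy
      exact hy)
  obtain ⟨g, hg⟩ := key
  let G : D → E := fun z => if h : z ∈ W then g ⟨z, h⟩ else f z
  have hGM : ∀ z : M, G z = g z := fun z => by
    have : (z : D) ∈ W := z.2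
    simp [G, this]
  have hGoff : ∀ z, z ∉ W → G z = f z := fun z hz => by simp [G, hz]
  have hGd : ∀ z ∈ W, dist (G z) (f z) < r z := fun z hz => by
    have := hg ⟨z, hz⟩
    rw [← hGM] at this
    exact this
  have hGC : ∀ z ∈ W, ContDiffAt ℝ 1 G z := by
    intro z hz
    have h1 : ContMDiffAt 𝓘(ℝ, D) 𝓘(ℝ, E) 1 (fun x : M => G x) ⟨z, hz⟩ := by
      have : (fun x : M => G x) = g := funext hGM
      rw [this]
      exact g.contMDiff.contMDiffAt
    exact (contMDiffAt_iff_contDiffAt).1 ((contMDiffAt_subtype_iff (U := M) (x := ⟨z, hz⟩)).1 h1)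
  refine ⟨G, ?_, hGoff, hGC, hGd⟩
  rw [continuous_iff_continuousAt]
  intro z
  by_cases hz : z ∈ W
  · exact (hGC z hz).continuousAt
  · have hd : ∀ y, dist (G y) (f y) ≤ r y := by
      intro y
      by_cases hy : y ∈ W
      · exact (hGd y hy).le
      · rw [hGoff y hy, dist_self, hr0 y hy]
    have h1 : Filter.Tendsto (fun y => dist (G y) (f y)) (𝓝 z) (𝓝 0) := by
      have : Filter.Tendsto r (𝓝 z) (𝓝 0) := by
        have := hr.tendsto z
        rwa [hr0 z hz] at this
      exact squeeze_zero (fun y => dist_nonneg) hd this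
    unfold ContinuousAt
    rw [hGoff z hz]
    exact (tendsto_iff_of_dist h1).2 (hf.tendsto z)

end Pool.Agent.Work.MP_71c2fc_gt
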