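import Pool.Agent.Work.MP_71c2fc_gt.Nodes

set_option autoImplicit false

open Set Filter Topology

namespace Pool.Agent.Work.MP_71c2fc_gt

/-- The region between the parabola and its chord over `[0, 1]`. -/
def Dom : Set (ℝ × ℝ) := {z | z.1 ^ 2 ≤ z.2 ∧ z.2 ≤ z.1}

theorem Dom.mem_Icc {z : ℝ × ℝ} (hz : z ∈ Dom) : z.1 ∈ Icc (0 : ℝ) 1 := by
  have h : z.1 ^ 2 ≤ z.1 := hz.1.trans hz.2
  constructor
  · nlinarith [sq_nonneg z.1]
  · nlinarith [sq_nonneg (z.1 - 1)]

/-- One stage of the approximation. -/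
theorem exists_stage {P : Type*} [TopologicalSpace P] [LocallyConnectedSpace P]
    (hP : LiftsCircle P) {M : Type*} [PseudoMetricSpace M] (u : P → M)
    {ι : Type*} {d : ι → P → ℝ} (hd : ∀ k, Continuous (d k)) (hd0 : ∀ k z, 0 ≤ d k z)
    (hcov : ∀ z, ∃ k, 0 < d k z)
    (hord : ∀ z k l m, 0 < d k z → 0 < d l z → 0 < d m z → k = l ∨ k = m ∨ l = m)
    {ε : ℝ} (hε : 0 < ε) (hmesh : ∀ k a b, 0 < d k a → 0 < d k b → dist (u a) (u b) ≤ ε)
    (c : ℝ → P) (hc : Continuous c) (hc01 : c 0 = c 1) :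
    ∃ T : ℝ × ℝ → (Fin 3 → ℝ) × (Fin 3 → ℝ),
      (∀ z ∈ Dom, (∀ i, (T z).1 i ∈ Icc (0 : ℝ) 1) ∧ (∀ i, 0 ≤ (T z).2 i) ∧
        ∑ i, (T z).2 i = 1 ∧ ∑ i, (T z).2 i * (T z).1 i = z.1 ∧
        |∑ i, (T z).2 i * (T z).1 i ^ 2 - z.2| ≤ ε ∧
        ∃ L : Set P, IsPreconnected L ∧ (∀ i, c ((T z).1 i) ∈ L) ∧
          ∀ a ∈ L, ∀ b ∈ L, dist (u a) (u b) ≤ 2 * ε) ∧
      (∀ z ∈ Dom, ∀ z' ∈ Dom, NonCross (T z).1 (T z').1) := by
  classical
  obtain ⟨δ, hδ, hleb⟩ := lebesgue_number_lemma_of_metric (s := Icc (0 : ℝ) 1)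
    (c := fun k => c ⁻¹' {z | 0 < d k z}) isCompact_Icc
    (fun k => (isOpen_lt continuous_const (hd k)).preimage hc) (by
      intro x _
      obtain ⟨k, hk⟩ := hcov (c x)
      exact mem_iUnion.2 ⟨k, hk⟩)
  have hιne : Nonempty ι := ⟨(hcov (c 0)).choose⟩
  choose! kf hkf using hleb
  obtain ⟨n, hn1, hn2⟩ : ∃ n : ℕ, 1 ≤ n ∧ 1 / (n : ℝ) < min δ ε := by
    obtain ⟨m, hm⟩ := exists_nat_one_div_lt (lt_min hδ hε)
    refine ⟨m + 1, by omega, ?_⟩
    push_cast
    exact hm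
  have hnpos : (0 : ℝ) < n := by exact_mod_cast hn1
  have hnδ : 1 / (n : ℝ) < δ := hn2.trans_le (min_le_left _ _)
  have hnε : 1 / (n : ℝ) < ε := hn2.trans_le (min_le_right _ _)
  let W : ι → Set P := fun k => {z | 0 < d k z}
  let nd : Icc (0 : ℝ) 1 → Node W := fun x =>
    Node.mk' (kf x) (c x) (hkf x x.2 (Metric.mem_ball_self hδ))
  let tv : ℕ → ℝ := fun i => if i < n then (i : ℝ) / n else 0
  have htv : ∀ i, tv i ∈ Icc (0 : ℝ) 1 := by
    intro i
    by_cases h : i < n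
    · show (if i < n then (i : ℝ) / n else 0) ∈ _
      rw [if_pos h]
      refine ⟨by positivity, ?_⟩
      rw [div_le_one hnpos]
      exact_mod_cast h.le
    · show (if i < n then (i : ℝ) / n else 0) ∈ _
      rw [if_neg h]
      exact ⟨le_rfl, zero_le_one⟩
  let y : ℕ → Node W := fun i => nd ⟨tv i, htv i⟩
  let s : ℕ → ℝ := fun i => (i : ℝ) / n
  have hmem : ∀ i ≤ n, c (s i) ∈ (y i).carrier := by
    intro i hi
    have h1 : c (tv i) ∈ (y i).carrier := Node.mem_mk' _ _ _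
    rcases Nat.lt_or_ge i n with h | h
    · have : tv i = s i := if_pos h
      rwa [this] at h1
    · have hin : i = n := le_antisymm hi h
      have h2 : tv i = 0 := if_neg (by omega)
      have h3 : s i = 1 := by
        show (i : ℝ) / n = 1
        rw [hin]; exact div_self hnpos.ne'
      rw [h2, hc01] at h1
      rwa [h3]
  have hmem' : ∀ i < n, c (s (i + 1)) ∈ (y i).carrier := by
    intro i hi
    have h2 : tv i = s i := if_pos hi
    have hsi : s i ∈ Icc (0 : ℝ) 1 := by rw [← h2]; exact htv i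
    have hs1 : s (i + 1) = s i + 1 / n := by
      show ((i + 1 : ℕ) : ℝ) / n = (i : ℝ) / n + 1 / n
      push_cast; ring
    have hle : s i ≤ s (i + 1) := by rw [hs1]; have : 0 < 1 / (n : ℝ) := by positivity
                                     linarith
    have hsub : c '' (Icc (s i) (s (i + 1))) ⊆ W (kf (tv i)) := by
      rintro _ ⟨t, ht, rfl⟩
      apply hkf (tv i) (htv i)
      rw [h2, Metric.mem_ball, Real.dist_eq, abs_of_nonneg (by linarith [ht.1])]
      have := ht.2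
      rw [hs1] at this
      linarith
    have hpc : IsPreconnected (c '' (Icc (s i) (s (i + 1)))) :=
      isPreconnected_Icc.image _ hc.continuousOn
    have h3 := hpc.subset_connectedComponentIn (x := c (tv i))
      ⟨s i, ⟨le_rfl, hle⟩, by rw [h2]⟩ hsub
    exact h3 ⟨s (i + 1), ⟨hle, le_rfl⟩, rfl⟩
  have hwalk : ∀ i < n, (y i).meets (y (i + 1)) := fun i hi =>
    ⟨c (s (i + 1)), hmem' i hi, hmem (i + 1) (by omega)⟩
  have hclosed : y 0 = y n := by
    have h1 : tv 0 = tv n := by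
      show (if 0 < n then ((0 : ℕ) : ℝ) / n else 0) = if n < n then ((n : ℕ) : ℝ) / n else 0
      rw [if_pos (by omega), if_neg (by omega)]
      simp
    show nd ⟨tv 0, htv 0⟩ = nd ⟨tv n, htv n⟩
    congr 1
    exact Subtype.ext h1
  have hrefl : ∀ A : Node W, A.meets A := fun A => by
    obtain ⟨z, hz⟩ := A.nonempty
    exact ⟨z, hz, hz⟩
  have hsymm : ∀ A B : Node W, A.meets B → B.meets A := fun A B h => by
    obtain ⟨z, hz⟩ := h
    exact ⟨z, hz.2, hz.1⟩
  obtain ⟨T, hT1, hT2, hT3⟩ := exists_triangulation Node.meets hrefl hsymm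
    (exists_ear Node.meets hrefl (node_bridge hP hd hd0 hcov hord)) n s y hn1
    (by
      intro i _
      show (i : ℝ) / n < ((i + 1 : ℕ) : ℝ) / n
      apply div_lt_div_of_pos_right _ hnpos
      push_cast; linarith) hwalk hclosed
  have hs0 : s 0 = 0 := by show ((0 : ℕ) : ℝ) / n = 0; simp
  have hsn : s n = 1 := div_self hnpos.ne'
  -- choose the data for each point of the domain
  have hex : ∀ z ∈ Dom, ∃ q : (Fin 3 → ℝ) × (Fin 3 → ℝ),
      (q.1 ∈ T ∨ ∃ x, q.1 = fun _ => x) ∧ (∀ i, q.1 i ∈ Icc (0 : ℝ) 1) ∧ (∀ i, 0 ≤ q.2 i) ∧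
        ∑ i, q.2 i = 1 ∧ ∑ i, q.2 i * q.1 i = z.1 ∧
        |∑ i, q.2 i * q.1 i ^ 2 - z.2| ≤ ε ∧
        ∃ L : Set P, IsPreconnected L ∧ (∀ i, c (q.1 i) ∈ L) ∧
          ∀ a ∈ L, ∀ b ∈ L, dist (u a) (u b) ≤ 2 * ε := by
    intro z hz
    by_cases hcase : ∀ j < n, 0 ≤ z.2 - (s j + s (j + 1)) * z.1 + s j * s (j + 1)
    · obtain ⟨τ, hτ, w, hw0, hw1, hw2, hw3⟩ := hT2 z.1 z.2 hz.1 hcase (by
        rw [hs0, hsn]; linarith [hz.2])
      obtain ⟨idx, hidx, hR⟩ := hT1 τ hτ
      refine ⟨(τ, w), Or.inl hτ, ?_, hw0, hw1, hw2, ?_, ?_⟩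
      · intro i
        show τ i ∈ _
        rw [(hidx i).2]
        refine ⟨by show 0 ≤ ((idx i : ℕ) : ℝ) / n; positivity, ?_⟩
        show ((idx i : ℕ) : ℝ) / n ≤ 1
        rw [div_le_one hnpos]
        exact_mod_cast (hidx i).1
      · show |∑ i, w i * τ i ^ 2 - z.2| ≤ ε
        rw [hw3, sub_self, abs_zero]
        exact hε.le
      · refine ⟨⋃ i, (y (idx i)).carrier, ?_, ?_, ?_⟩
        · obtain ⟨z0, hz0⟩ := (y (idx 0)).nonempty
          refine isPreconnected_of_forall z0 ?_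
          intro a ha
          obtain ⟨i, hi⟩ := mem_iUnion.1 ha
          refine ⟨(y (idx 0)).carrier ∪ (y (idx i)).carrier, ?_, Or.inl hz0, Or.inr hi, ?_⟩
          · exact union_subset (subset_iUnion (fun i => (y (idx i)).carrier) 0)
              (subset_iUnion (fun i => (y (idx i)).carrier) i)
          · obtain ⟨b, hb1, hb2⟩ := hR 0 i
            exact IsPreconnected.union b hb1 hb2 (Node.isPreconnected _) (Node.isPreconnected _)
        · intro i
          refine mem_iUnion.2 ⟨i, ?_⟩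
          show c (τ i) ∈ _
          rw [(hidx i).2]
          exact hmem _ (hidx i).1
        · intro a ha b hb
          obtain ⟨i, hi⟩ := mem_iUnion.1 ha
          obtain ⟨j, hj⟩ := mem_iUnion.1 hb
          obtain ⟨e, he1, he2⟩ := hR i j
          have h1 := hmesh _ a e ((y (idx i)).subset hi) ((y (idx i)).subset he1)
          have h2 := hmesh _ e b ((y (idx j)).subset he2) ((y (idx j)).subset hj)
          linarith [dist_triangle (u a) (u e) (u b)]
    · push Not at hcase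
      obtain ⟨j, hj, hneg⟩ := hcase
      have hzI := Dom.mem_Icc hz
      refine ⟨(fun _ => z.1, ![1, 0, 0]), Or.inr ⟨z.1, rfl⟩, fun _ => hzI, ?_, ?_, ?_, ?_, ?_⟩
      · intro i; fin_cases i <;> simp
      · simp [Fin.sum_univ_three]
      · simp [Fin.sum_univ_three]
      · simp only [Fin.sum_univ_three]
        simp only [Matrix.cons_val_zero, Matrix.cons_val_one, Matrix.cons_val]
        have hsj : s (j + 1) = s j + 1 / n := by
          show ((j + 1 : ℕ) : ℝ) / n = (j : ℝ) / n + 1 / n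
          push_cast; ring
        have h1 : z.1 ^ 2 ≤ z.2 := hz.1
        have h2 : 1 / (n : ℝ) ≤ 1 := by
          rw [div_le_one hnpos]; exact_mod_cast hn1
        have h3 : 0 < 1 / (n : ℝ) := by positivity
        rw [hsj] at hneg
        have h4 : z.2 - z.1 ^ 2 ≤ (1 / (n : ℝ)) ^ 2 / 4 := by
          nlinarith [sq_nonneg (z.1 - s j - 1 / (n : ℝ) / 2)]
        have h5 : (1 / (n : ℝ)) ^ 2 / 4 ≤ 1 / (n : ℝ) := by nlinarith
        rw [abs_le]
        constructor <;> nlinarith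
      · refine ⟨{c z.1}, isPreconnected_singleton, fun i => rfl, ?_⟩
        rintro a rfl b rfl
        rw [dist_self]; positivity
  choose! Tz hTz using hex
  refine ⟨Tz, fun z hz => (hTz z hz).2, ?_⟩
  intro z hz z' hz'
  rcases (hTz z hz).1 with h | ⟨x, h⟩
  · rcases (hTz z' hz').1 with h' | ⟨x', h'⟩
    · exact hT3 _ h _ h'
    · rw [h']; exact (NonCross.const x' _).symm
  · rw [h]; exact NonCross.const x _

end Pool.Agent.Work.MP_71c2fc_gt
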